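import Mathlib

/-!
# Project PSB (MP_26ac92_gt): bodies with polynomial support function and constant brightness are balls
Owner helper51.  Definitions.

`m = k + 2` is the dimension of the projections, `n = k + 3` the dimension of the space.
-/

set_option autoImplicit false

namespace Pool.Helper51.PSB

open MeasureTheory

/-- the space of dimension `k + 2` -/
abbrev V (k : ℕ) := EuclideanSpace ℝ (Fin (k + 2))
/-- the space of dimension `k + 3` -/
abbrev W (k : ℕ) := EuclideanSpace ℝ (Fin (k + 3))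

/-- coordinates of the direction of `y` -/
noncomputable def hat {k : ℕ} (y : V k) : Fin (k + 2) → ℝ := fun i => ‖y‖⁻¹ * y i

section
variable {A : Type} [CommRing A] [Algebra ℝ A] {p q : ℕ}

/-- the value of `P` at the point with the coordinates `∑ i, s i * c i l` -/
noncomputable def R0 (P : MvPolynomial (Fin p) ℝ) (c : Fin q → Fin p → A) (s : Fin q → A) : A :=
  MvPolynomial.aeval (fun l => ∑ i, s i * c i l) P

/-- its derivative with respect to `s i` (chain rule) -/
noncomputable def R1 (P : MvPolynomial (Fin p) ℝ) (c : Fin q → Fin p → A) (s : Fin q → A) (i : Fin q) : A :=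
  ∑ l, c i l * R0 (MvPolynomial.pderiv l P) c s

/-- its second derivative with respect to `s i`, `s j` -/
noncomputable def R2 (P : MvPolynomial (Fin p) ℝ) (c : Fin q → Fin p → A) (s : Fin q → A) (i j : Fin q) : A :=
  ∑ l, ∑ l', c i l * c j l' * R0 (MvPolynomial.pderiv l' (MvPolynomial.pderiv l P)) c s

/-- the matrix of the derivative at the unit vector `s` of `y ↦ ‖y‖ ∇ (‖y‖^(1-d) P (J y))`, where `J` has the matrix `c` -/
noncomputable def Mat (d : ℕ) (P : MvPolynomial (Fin p) ℝ) (c : Fin q → Fin p → A) (s : Fin q → A) :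
    Matrix (Fin q) (Fin q) A := fun i j =>
  (d : A) * ((d : A) - 1) * s i * s j * R0 P c s
    + (1 - (d : A)) * ((if i = j then R0 P c s else 0) + s i * R1 P c s j)
    + (2 - (d : A)) * s j * R1 P c s i + R2 P c s i j

end

/-- the frame `cos φ w_0 + sin φ w_1, w_2, w_3, ...` -/
noncomputable def frame {k : ℕ} (w : Fin (k + 3) → Fin (k + 3) → ℝ) (φ : ℝ) : Fin (k + 2) → Fin (k + 3) → ℝ :=
  fun i l => if i = 0 then Real.cos φ * w 0 l + Real.sin φ * w 1 l else w i.succ l

/-- the vector `(w_0 - i w_1) / 2` -/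
noncomputable def nu {k : ℕ} (w : Fin (k + 3) → Fin (k + 3) → ℝ) : Fin (k + 3) → ℂ :=
  fun l => ((w 0 l : ℂ) - Complex.I * (w 1 l : ℂ)) / 2

/-- its conjugate -/
noncomputable def nub {k : ℕ} (w : Fin (k + 3) → Fin (k + 3) → ℝ) : Fin (k + 3) → ℂ :=
  fun l => ((w 0 l : ℂ) + Complex.I * (w 1 l : ℂ)) / 2

/-- `z` times the frame, as a polynomial in `z = exp (i φ)` -/
noncomputable def frameX {k : ℕ} (w : Fin (k + 3) → Fin (k + 3) → ℝ) : Fin (k + 2) → Fin (k + 3) → Polynomial ℂ :=
  fun i l => if i = 0 then Polynomial.C (nu w l) * Polynomial.X ^ 2 + Polynomial.C (nub w l)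
    else Polynomial.C (w i.succ l : ℂ) * Polynomial.X

/-- the matrix `Mat` over `ℂ[X]` -/
noncomputable def MatX {k : ℕ} (d : ℕ) (P : MvPolynomial (Fin (k + 3)) ℝ) (w : Fin (k + 3) → Fin (k + 3) → ℝ)
    (s : Fin (k + 2) → ℝ) : Matrix (Fin (k + 2)) (Fin (k + 2)) (Polynomial ℂ) :=
  Mat d P (frameX w) (fun i => Polynomial.C (s i : ℂ))

/-- the matrix `Mat` for the polynomial `s_0 ^ d` and the standard frame -/
noncomputable def T {k : ℕ} (d : ℕ) (s : Fin (k + 2) → ℝ) : Matrix (Fin (k + 2)) (Fin (k + 2)) ℝ := fun i j =>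
  (d : ℝ) * ((d : ℝ) - 1) * s i * s j * s 0 ^ d
    + (1 - (d : ℝ)) * ((if i = j then s 0 ^ d else 0) + s i * (if j = 0 then (d : ℝ) * s 0 ^ (d - 1) else 0))
    + (2 - (d : ℝ)) * s j * (if i = 0 then (d : ℝ) * s 0 ^ (d - 1) else 0)
    + (if i = 0 ∧ j = 0 then (d : ℝ) * ((d : ℝ) - 1) * s 0 ^ (d - 2) else 0)

/-- the quadratic form `∑ X_l ^ 2` -/
noncomputable def qf (k : ℕ) : MvPolynomial (Fin (k + 3)) ℝ := ∑ l, MvPolynomial.X l ^ 2

end Pool.Helper51.PSB
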