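import Pool.Agent.Helper51.PSB.St

/-!
# PSB, module AlgPrime (MP_26ac92_gt): the quadratic form is a prime polynomial.
-/

set_option autoImplicit false

namespace Pool.Helper51.PSB

private lemma AlgPrime_fin (k : ℕ) :
    MvPolynomial.finSuccEquiv ℝ (k + 2) (qf k) =
      (Polynomial.X : Polynomial (MvPolynomial (Fin (k + 2)) ℝ)) ^ 2
        + Polynomial.C (∑ l : Fin (k + 2), (MvPolynomial.X l : MvPolynomial (Fin (k + 2)) ℝ) ^ 2) := by
  unfold qf
  rw [map_sum, Fin.sum_univ_succ]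
  simp only [map_pow, MvPolynomial.finSuccEquiv_X_zero, MvPolynomial.finSuccEquiv_X_succ, map_sum]

private lemma AlgPrime_irr (k : ℕ) :
    Irreducible ((Polynomial.X : Polynomial (MvPolynomial (Fin (k + 2)) ℝ)) ^ 2
        + Polynomial.C (∑ l : Fin (k + 2), (MvPolynomial.X l : MvPolynomial (Fin (k + 2)) ℝ) ^ 2)) := by
  set σ : MvPolynomial (Fin (k + 2)) ℝ := ∑ l : Fin (k + 2), (MvPolynomial.X l : MvPolynomial (Fin (k + 2)) ℝ) ^ 2
    with hσ
  have hm : ((Polynomial.X : Polynomial (MvPolynomial (Fin (k + 2)) ℝ)) ^ 2 + Polynomial.C σ).Monic :=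
    Polynomial.monic_X_pow_add_C σ (by norm_num)
  have hd : ((Polynomial.X : Polynomial (MvPolynomial (Fin (k + 2)) ℝ)) ^ 2 + Polynomial.C σ).natDegree = 2 :=
    Polynomial.natDegree_X_pow_add_C
  rw [hm.irreducible_iff_roots_eq_zero_of_degree_le_three (by omega) (by omega)]
  rw [Multiset.eq_zero_iff_forall_notMem]
  intro b hb
  rw [Polynomial.mem_roots hm.ne_zero, Polynomial.IsRoot.def] at hb
  simp only [Polynomial.eval_add, Polynomial.eval_pow, Polynomial.eval_X, Polynomial.eval_C] at hb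
  have h1 := congrArg (MvPolynomial.eval (fun l : Fin (k + 2) => if l = 0 then (1 : ℝ) else 0)) hb
  rw [map_add, map_pow, map_zero, hσ, map_sum] at h1
  have h2 : ∑ x : Fin (k + 2), (MvPolynomial.eval (fun l : Fin (k + 2) => if l = 0 then (1 : ℝ) else 0))
      ((MvPolynomial.X x : MvPolynomial (Fin (k + 2)) ℝ) ^ 2) = 1 := by
    rw [Finset.sum_eq_single (0 : Fin (k + 2))]
    · simp
    · intro l _ hl
      simp [hl]
    · simp
  rw [h2] at h1
  nlinarith [sq_nonneg (MvPolynomial.eval (fun l : Fin (k + 2) => if l = 0 then (1 : ℝ) else 0) b)]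

theorem pAlgPrime : StAlgPrime := by
  intro k
  rw [← MulEquiv.prime_iff (MvPolynomial.finSuccEquiv ℝ (k + 2)).toMulEquiv]
  have h : (MvPolynomial.finSuccEquiv ℝ (k + 2)).toMulEquiv (qf k) = MvPolynomial.finSuccEquiv ℝ (k + 2) (qf k) := rfl
  rw [h, AlgPrime_fin]
  exact (AlgPrime_irr k).prime

end Pool.Helper51.PSB
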