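import Pool.Agent.Helper51.PSB.St

set_option autoImplicit false

namespace Pool.Helper51.PSB

private theorem Ball_lin {n : ℕ} (P : MvPolynomial (Fin n) ℝ)
    (h1 : P ∈ Submodule.span ℝ (Set.range (MvPolynomial.X : Fin n → MvPolynomial (Fin n) ℝ))) :
    ∃ c : EuclideanSpace ℝ (Fin n), ∀ u : EuclideanSpace ℝ (Fin n),
      MvPolynomial.eval (fun l => u l) P = (inner ℝ c u : ℝ) := by
  induction h1 using Submodule.span_induction with
  | mem x hx =>
    obtain ⟨i, rfl⟩ := hx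
    refine ⟨EuclideanSpace.single i 1, fun u => ?_⟩
    rw [EuclideanSpace.inner_single_left]
    simp
  | zero => exact ⟨0, fun u => by simp⟩
  | add x y _ _ hx hy =>
    obtain ⟨c, hc⟩ := hx
    obtain ⟨d, hd⟩ := hy
    exact ⟨c + d, fun u => by rw [map_add, hc, hd, inner_add_left]⟩
  | smul a x _ hx =>
    obtain ⟨c, hc⟩ := hx
    exact ⟨a • c, fun u => by rw [MvPolynomial.smul_eval, hc, real_inner_smul_left]⟩

private theorem Ball_const {n : ℕ} (Q : MvPolynomial (Fin n) ℝ) (h : Q.IsHomogeneous 0) :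
    ∃ r : ℝ, ∀ u : Fin n → ℝ, MvPolynomial.eval u Q = r := by
  rw [← MvPolynomial.totalDegree_zero_iff_isHomogeneous, MvPolynomial.totalDegree_eq_zero_iff_eq_C] at h
  refine ⟨MvPolynomial.coeff 0 Q, fun u => ?_⟩
  rw [h]
  simp

theorem pBall : StBall := by
  intro k K P Q hcv hcp hne hP hQ hlub
  obtain ⟨c, hc⟩ := Ball_lin P (by
    rw [← MvPolynomial.homogeneousSubmodule_one_eq_span_X]
    exact hP)
  obtain ⟨r, hr⟩ := Ball_const Q hQ
  refine ⟨c, r, Set.Subset.antisymm ?_ ?_⟩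
  · intro x hx
    rw [Metric.mem_closedBall, dist_eq_norm]
    by_cases h0 : x - c = 0
    · -- r ≥ 0 from any unit vector and its opposite
      rw [h0, norm_zero]
      have h1 := hlub (EuclideanSpace.single 0 (1 : ℝ)) (by simp)
      have h2 := hlub (-EuclideanSpace.single 0 (1 : ℝ)) (by simp)
      have h3 := h1.1 ⟨x, hx, rfl⟩
      have h4 := h2.1 ⟨x, hx, rfl⟩
      rw [hc, hr] at h3 h4
      simp only [inner_neg_right] at h4
      have h5 : x = c := sub_eq_zero.1 h0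
      rw [h5] at h3
      linarith
    · have hn : 0 < ‖x - c‖ := norm_pos_iff.2 h0
      have h1 := hlub (‖x - c‖⁻¹ • (x - c)) (by
        rw [norm_smul, norm_inv, norm_norm, inv_mul_cancel₀ hn.ne'])
      have h3 := h1.1 ⟨x, hx, rfl⟩
      rw [hc, hr] at h3
      have h4 : (inner ℝ (x - c) (‖x - c‖⁻¹ • (x - c)) : ℝ) = ‖x - c‖ := by
        rw [real_inner_smul_right, real_inner_self_eq_norm_sq]
        field_simp
      rw [inner_sub_left] at h4
      have h5 : (inner ℝ x (‖x - c‖⁻¹ • (x - c)) : ℝ) ≤ inner ℝ c (‖x - c‖⁻¹ • (x - c)) + r := h3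
      linarith
  · intro x hx
    by_contra hxK
    obtain ⟨f, s, hf1, hf2⟩ := geometric_hahn_banach_closed_point hcv hcp.isClosed hxK
    set v : W k := (InnerProductSpace.toDual ℝ (W k)).symm f with hv
    have hfv : ∀ y, f y = (inner ℝ y v : ℝ) := by
      intro y
      rw [real_inner_comm, hv, InnerProductSpace.toDual_symm_apply]
    have hv0 : v ≠ 0 := by
      intro h0
      obtain ⟨y, hy⟩ := hne
      have h1 := hf1 y hy
      rw [hfv, h0, inner_zero_right] at h1
      rw [hfv, h0, inner_zero_right] at hf2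
      linarith
    have hn : 0 < ‖v‖ := norm_pos_iff.2 hv0
    have hu : ‖(‖v‖⁻¹ • v : W k)‖ = 1 := by
      rw [norm_smul, norm_inv, norm_norm, inv_mul_cancel₀ hn.ne']
    have h1 := hlub (‖v‖⁻¹ • v) hu
    rw [hc, hr] at h1
    have h2 : (inner ℝ c (‖v‖⁻¹ • v) : ℝ) + r ≤ ‖v‖⁻¹ * s := by
      apply h1.2
      rintro _ ⟨y, hy, rfl⟩
      change (inner ℝ y (‖v‖⁻¹ • v) : ℝ) ≤ _
      rw [real_inner_smul_right, ← hfv]
      exact mul_le_mul_of_nonneg_left (hf1 y hy).le (inv_nonneg.2 hn.le)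
    have h3 : ‖v‖⁻¹ * s < (inner ℝ x (‖v‖⁻¹ • v) : ℝ) := by
      rw [real_inner_smul_right, ← hfv]
      exact mul_lt_mul_of_pos_left hf2 (inv_pos.2 hn)
    have h4 : (inner ℝ (x - c) (‖v‖⁻¹ • v) : ℝ) ≤ ‖x - c‖ := by
      have := real_inner_le_norm (x - c) (‖v‖⁻¹ • v)
      rw [hu, mul_one] at this
      exact this
    rw [inner_sub_left] at h4
    rw [Metric.mem_closedBall, dist_eq_norm] at hx
    linarith

end Pool.Helper51.PSB
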