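import Pool.Agent.Helper51.PSB.St

/-! # Project PSB, module Const: the brightness as an integral -/

set_option autoImplicit false

namespace Pool.Helper51.PSB

open MeasureTheory

theorem Const_haar (k : ℕ) : (Measure.hausdorffMeasure ((k : ℝ) + 2) : Measure (V k)).IsAddHaarMeasure := by
  have h1 : Module.finrank ℝ (V k) = k + 2 := by simp
  have h2 : ((Module.finrank ℝ (V k) : ℕ) : ℝ) = (k : ℝ) + 2 := by rw [h1]; push_cast; ring
  have h3 : (Measure.hausdorffMeasure ((Module.finrank ℝ (V k) : ℕ) : ℝ) : Measure (V k)).IsAddHaarMeasure := inferInstance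
  rwa [h2] at h3

theorem Const_hat_le {k : ℕ} (y : V k) (i : Fin (k + 2)) : |hat y i| ≤ 1 := by
  unfold hat
  rw [abs_mul, abs_inv, abs_norm]
  rcases eq_or_ne y 0 with h | h
  · subst h
    simp
  · have h1 : 0 < ‖y‖ := norm_pos_iff.2 h
    have h2 : |y i| ≤ ‖y‖ := by
      have := PiLp.norm_apply_le y i
      rwa [Real.norm_eq_abs] at this
    rw [inv_mul_le_iff₀ h1]
    linarith

theorem Const_hat_meas (k : ℕ) : Measurable (hat : V k → Fin (k + 2) → ℝ) := by
  refine measurable_pi_lambda _ (fun i => ?_)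
  unfold hat
  exact measurable_norm.inv.mul (by fun_prop)

theorem Const_R0 {p q : ℕ} (P : MvPolynomial (Fin p) ℝ) (c : Fin q → Fin p → ℝ) :
    Continuous (fun s : Fin q → ℝ => R0 P c s) := by
  unfold R0
  have h : ∀ s : Fin q → ℝ, MvPolynomial.aeval (fun l => ∑ i, s i * c i l) P =
      MvPolynomial.eval (fun l => ∑ i, s i * c i l) P := fun s => by
    rw [MvPolynomial.aeval_def, MvPolynomial.eval, MvPolynomial.coe_eval₂Hom]
    rfl
  simp only [h]
  exact (MvPolynomial.continuous_eval P).comp (by fun_prop)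

theorem Const_Mat {p q : ℕ} (d : ℕ) (P : MvPolynomial (Fin p) ℝ) (c : Fin q → Fin p → ℝ) :
    Continuous (fun s : Fin q → ℝ => Mat d P c s) := by
  have h0 := fun P => Const_R0 (q := q) P c
  refine continuous_matrix (fun i j => ?_)
  unfold Mat R1 R2
  by_cases hij : i = j
  · simp only [hij, if_true]
    fun_prop
  · simp only [hij, if_false]
    fun_prop

theorem pConst (hVolB : StVolB) (hVolE : StVolE) (hGrd : StGrd) (hGeo : StGeo) : StConst := by
  intro k a b K P Q A hcv hcp h0 hP hQ hlub hbr w φ J u hu hJu hJ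
  obtain ⟨L, hLcv, hLcp, hL0, hLlub, hLμ⟩ := hGeo k K J u hcv hcp h0 hu hJu
  obtain ⟨GP, MP, hP1, hP2, hP3⟩ := hGrd k a P hP J
  obtain ⟨GQ, MQ, hQ1, hQ2, hQ3⟩ := hGrd k b Q hQ J
  have hfr : (fun i l => J (EuclideanSpace.single i (1 : ℝ)) l) = frame w φ := by
    funext i l
    exact hJ i l
  rw [hfr] at hP3 hQ3
  have hDat : Dat k L (fun y => ‖y‖ * MvPolynomial.eval (fun l => J (‖y‖⁻¹ • y) l) P +
      ‖y‖ * MvPolynomial.eval (fun l => J (‖y‖⁻¹ • y) l) Q) (fun y => GP y + GQ y) (fun y => MP y + MQ y) := by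
    refine ⟨hLcv, hLcp, hL0, ?_, ?_, ?_⟩
    · intro y hy
      apply hLlub
      have hy0 : 0 < ‖y‖ := norm_pos_iff.2 hy
      have hJ1 : ‖J (‖y‖⁻¹ • y)‖ = 1 := by
        rw [J.norm_map, norm_smul, norm_inv, norm_norm, inv_mul_cancel₀ hy0.ne']
      have hJy : J y = ‖y‖ • J (‖y‖⁻¹ • y) := by
        rw [← map_smul, smul_smul, mul_inv_cancel₀ hy0.ne', one_smul]
      have h1 := hlub _ hJ1
      rw [← mul_add]
      constructor
      · rintro _ ⟨x, hx, rfl⟩
        have h2 := h1.1 ⟨x, hx, rfl⟩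
        simp only at h2 ⊢
        rw [hJy, inner_smul_right]
        exact mul_le_mul_of_nonneg_left h2 hy0.le
      · intro B hB
        have h2 : B / ‖y‖ ∈ upperBounds ((fun x => (inner ℝ x (J (‖y‖⁻¹ • y)) : ℝ)) '' K) := by
          rintro _ ⟨x, hx, rfl⟩
          have h3 := hB ⟨x, hx, rfl⟩
          simp only at h3 ⊢
          rw [hJy, inner_smul_right] at h3
          rw [le_div_iff₀ hy0]
          linarith
        have h4 := h1.2 h2
        rw [le_div_iff₀ hy0] at h4
        linarith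
    · intro y hy
      have h1 := (hP1 y hy).hasFDerivAt.add (hQ1 y hy).hasFDerivAt
      rw [hasGradientAt_iff_hasFDerivAt]
      refine h1.congr_fderiv ?_
      rw [smul_add, map_add]
    · intro y hy
      exact (hP2 y hy).add (hQ2 y hy)
  have hμ := Const_haar k
  set μ : Measure (V k) := Measure.hausdorffMeasure ((k : ℝ) + 2) with hμdef
  have hdet : ∀ y : V k, y ≠ 0 → (MP y + MQ y).det = (Mat a P (frame w φ) (hat y) + Mat b Q (frame w φ) (hat y)).det := by
    intro y hy
    rw [ContinuousLinearMap.det, ← LinearMap.det_toMatrix (EuclideanSpace.basisFun (Fin (k + 2)) ℝ).toBasis]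
    congr 1
    ext i j
    rw [LinearMap.toMatrix_apply, Matrix.add_apply, ← hP3 y hy i j, ← hQ3 y hy i j]
    simp
  have hE := hVolE k μ L _ _ _ hμ hDat
  have hB := hVolB k L _ _ _ hDat
  have hnn : 0 ≤ᵐ[μ.restrict (Metric.ball 0 1)] fun y : V k => (Mat a P (frame w φ) (hat y) + Mat b Q (frame w φ) (hat y)).det := by
    refine ae_restrict_of_ae ?_
    have h0 : ∀ᵐ y : V k ∂μ, y ≠ 0 := by
      rw [ae_iff]
      simp
    filter_upwards [h0] with y hy
    have := hB y hy
    rw [hdet y hy] at this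
    exact this
  have hmeas : AEStronglyMeasurable (fun y : V k => (Mat a P (frame w φ) (hat y) + Mat b Q (frame w φ) (hat y)).det)
      (μ.restrict (Metric.ball 0 1)) := by
    have hc : Continuous (fun s : Fin (k + 2) → ℝ => (Mat a P (frame w φ) s + Mat b Q (frame w φ) s).det) :=
      ((Const_Mat a P (frame w φ)).add (Const_Mat b Q (frame w φ))).matrix_det
    exact hc.comp_aestronglyMeasurable (Const_hat_meas k).aestronglyMeasurable
  rw [integral_eq_lintegral_of_nonneg_ae hnn hmeas]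
  congr 1
  rw [← hbr u hu, ← hLμ, hE]
  rw [← setLIntegral_congr (sdiff_null_ae_eq_self (by simp) : (Metric.ball (0 : V k) 1 \ {0} : Set (V k)) =ᵐ[μ] Metric.ball 0 1)]
  refine setLIntegral_congr_fun (measurableSet_ball.diff (measurableSet_singleton 0)) (fun y hy => ?_)
  have hy0 : y ≠ 0 := fun h => hy.2 h
  simp only [hdet y hy0]

end Pool.Helper51.PSB
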