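import Pool.Agent.Helper51.PSB.St

/-! Project PSB, module Cont: the coefficients of the determinant are continuous. -/

set_option autoImplicit false

namespace Pool.Helper51.PSB

/-- all coefficients are continuous -/
def Cont_Gd {X : Type} [TopologicalSpace X] (F : X → Polynomial ℂ) : Prop :=
  ∀ j, Continuous (fun s => (F s).coeff j)

section
variable {X : Type} [TopologicalSpace X]

theorem Cont_const (p : Polynomial ℂ) : Cont_Gd (fun _ : X => p) := fun _ => continuous_const

theorem Cont_C {f : X → ℂ} (hf : Continuous f) : Cont_Gd (fun s => Polynomial.C (f s)) := by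
  intro j
  simp only [Polynomial.coeff_C]
  by_cases h : j = 0
  · simpa [h] using hf
  · simpa [h] using continuous_const

theorem Cont_add {F G : X → Polynomial ℂ} (hF : Cont_Gd F) (hG : Cont_Gd G) :
    Cont_Gd (fun s => F s + G s) := by
  intro j
  simp only [Polynomial.coeff_add]
  exact (hF j).add (hG j)

theorem Cont_mul {F G : X → Polynomial ℂ} (hF : Cont_Gd F) (hG : Cont_Gd G) :
    Cont_Gd (fun s => F s * G s) := by
  intro j
  simp only [Polynomial.coeff_mul]
  exact continuous_finsetSum _ fun x _ => (hF x.1).mul (hG x.2)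

theorem Cont_sum {ι : Type} (S : Finset ι) {F : ι → X → Polynomial ℂ} (hF : ∀ i ∈ S, Cont_Gd (F i)) :
    Cont_Gd (fun s => ∑ i ∈ S, F i s) := by
  intro j
  simp only [Polynomial.finsetSum_coeff]
  exact continuous_finsetSum _ fun i hi => hF i hi j

theorem Cont_prod {ι : Type} (S : Finset ι) {F : ι → X → Polynomial ℂ} (hF : ∀ i ∈ S, Cont_Gd (F i)) :
    Cont_Gd (fun s => ∏ i ∈ S, F i s) := by
  classical
  induction S using Finset.induction_on with
  | empty => simpa using Cont_const (1 : Polynomial ℂ)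
  | insert a S ha ih =>
    simp only [Finset.prod_insert ha]
    exact Cont_mul (hF a (Finset.mem_insert_self _ _)) (ih fun i hi => hF i (Finset.mem_insert_of_mem hi))

theorem Cont_aeval {p : ℕ} (P : MvPolynomial (Fin p) ℝ) {c : Fin p → X → Polynomial ℂ}
    (hc : ∀ l, Cont_Gd (c l)) : Cont_Gd (fun s => MvPolynomial.aeval (fun l => c l s) P) := by
  induction P using MvPolynomial.induction_on with
  | C a => simpa using Cont_const (algebraMap ℝ (Polynomial ℂ) a)
  | add P Q hP hQ =>
    simp only [map_add]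
    exact Cont_add hP hQ
  | mul_X P n hP =>
    simp only [map_mul, MvPolynomial.aeval_X]
    exact Cont_mul hP (hc n)

variable {q p : ℕ}

theorem Cont_R0 (P : MvPolynomial (Fin p) ℝ) (c : Fin q → Fin p → Polynomial ℂ)
    {s : X → Fin q → Polynomial ℂ} (hs : ∀ i, Cont_Gd (fun t => s t i)) : Cont_Gd (fun t => R0 P c (s t)) := by
  unfold R0
  exact Cont_aeval P (c := fun l t => ∑ i, s t i * c i l)
    fun l => Cont_sum _ fun i _ => Cont_mul (hs i) (Cont_const _)

theorem Cont_R1 (P : MvPolynomial (Fin p) ℝ) (c : Fin q → Fin p → Polynomial ℂ)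
    {s : X → Fin q → Polynomial ℂ} (hs : ∀ i, Cont_Gd (fun t => s t i)) (i : Fin q) :
    Cont_Gd (fun t => R1 P c (s t) i) := by
  unfold R1
  exact Cont_sum _ fun l _ => Cont_mul (Cont_const _) (Cont_R0 _ c hs)

theorem Cont_R2 (P : MvPolynomial (Fin p) ℝ) (c : Fin q → Fin p → Polynomial ℂ)
    {s : X → Fin q → Polynomial ℂ} (hs : ∀ i, Cont_Gd (fun t => s t i)) (i j : Fin q) :
    Cont_Gd (fun t => R2 P c (s t) i j) := by
  unfold R2
  exact Cont_sum _ fun l _ => Cont_sum _ fun l' _ => Cont_mul (Cont_const _) (Cont_R0 _ c hs)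

theorem Cont_Mat (d : ℕ) (P : MvPolynomial (Fin p) ℝ) (c : Fin q → Fin p → Polynomial ℂ)
    {s : X → Fin q → Polynomial ℂ} (hs : ∀ i, Cont_Gd (fun t => s t i)) (i j : Fin q) :
    Cont_Gd (fun t => Mat d P c (s t) i j) := by
  unfold Mat
  have h0 := Cont_R0 P c hs
  have h1 := fun i => Cont_R1 P c hs i
  have h2 := Cont_R2 P c hs i j
  have hif : Cont_Gd (fun t => if i = j then R0 P c (s t) else 0) := by
    by_cases h : i = j
    · simpa [h] using h0
    · simpa [h] using Cont_const (0 : Polynomial ℂ)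
  exact Cont_add (Cont_add (Cont_add (Cont_mul (Cont_mul (Cont_mul (Cont_const _) (hs i)) (hs j)) h0)
    (Cont_mul (Cont_const _) (Cont_add hif (Cont_mul (hs i) (h1 j)))))
    (Cont_mul (Cont_mul (Cont_const _) (hs j)) (h1 i))) h2

theorem Cont_det {n : ℕ} {A : X → Matrix (Fin n) (Fin n) (Polynomial ℂ)}
    (hA : ∀ i j, Cont_Gd (fun t => A t i j)) : Cont_Gd (fun t => (A t).det) := by
  simp only [Matrix.det_apply']
  exact Cont_sum _ fun σ _ => Cont_mul (Cont_const _) (Cont_prod _ fun i _ => hA _ _)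

end

theorem pCont : StCont := by
  intro k a b r r' P Q w j
  have hs : ∀ i : Fin (k + 2), Cont_Gd (fun s : Fin (k + 2) → ℝ => Polynomial.C ((s i : ℝ) : ℂ)) := fun i =>
    Cont_C (Complex.continuous_ofReal.comp (continuous_apply i))
  refine Cont_det (A := fun s : Fin (k + 2) → ℝ =>
    (Polynomial.X : Polynomial ℂ) ^ r • MatX a P w s + (Polynomial.X : Polynomial ℂ) ^ r' • MatX b Q w s) ?_ j
  intro i i'
  simp only [Matrix.add_apply, Matrix.smul_apply, smul_eq_mul]
  exact Cont_add (Cont_mul (Cont_const _) (Cont_Mat a P (frameX w) hs i i'))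
    (Cont_mul (Cont_const _) (Cont_Mat b Q (frameX w) hs i i'))

end Pool.Helper51.PSB
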