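import Pool.Agent.Helper51.PSB.St

/-! # Project PSB, module Core: the top coefficients -/

set_option autoImplicit false

namespace Pool.Helper51.PSB

open MeasureTheory

theorem Core_hat_le {k : ℕ} (y : V k) (i : Fin (k + 2)) : |hat y i| ≤ 1 := by
  unfold hat
  rw [abs_mul, abs_inv, abs_norm]
  rcases eq_or_ne y 0 with h | h
  · subst h
    simp
  · have h1 : 0 < ‖y‖ := norm_pos_iff.2 h
    have h2 : |y i| ≤ ‖y‖ := by
      have := PiLp.norm_apply_le y i
      rwa [Real.norm_eq_abs] at this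
    rw [inv_mul_le_iff₀ h1]
    linarith

theorem Core_hat_meas (k : ℕ) : Measurable (hat : V k → Fin (k + 2) → ℝ) := by
  refine measurable_pi_lambda _ (fun i => ?_)
  unfold hat
  exact measurable_norm.inv.mul (by fun_prop)

theorem Core_integrable {k : ℕ} {E : Type} [NormedAddCommGroup E] [NormedSpace ℝ E]
    [SecondCountableTopology E] (f : (Fin (k + 2) → ℝ) → E) (hf : Continuous f) (μ : Measure (V k)) [μ.IsAddHaarMeasure] :
    IntegrableOn (fun y : V k => f (hat y)) (Metric.ball 0 1) μ := by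
  obtain ⟨C, hC⟩ := (isCompact_closedBall (0 : Fin (k + 2) → ℝ) 1).exists_bound_of_continuousOn hf.continuousOn
  refine Measure.integrableOn_of_bounded (M := C) measure_ball_lt_top.ne ?_ (Filter.Eventually.of_forall fun y => ?_)
  · exact hf.comp_aestronglyMeasurable (Core_hat_meas k).aestronglyMeasurable
  · refine hC _ ?_
    rw [mem_closedBall_zero_iff, pi_norm_le_iff_of_nonneg zero_le_one]
    intro i
    exact Core_hat_le y i

theorem Core_hat_sq {k : ℕ} {y : V k} (hy : y ≠ 0) : ∑ i, hat y i ^ 2 = 1 := by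
  have h1 : 0 < ‖y‖ := norm_pos_iff.2 hy
  have h2 : ‖y‖ ^ 2 = ∑ i, y i ^ 2 := by
    rw [EuclideanSpace.norm_sq_eq]
    exact Finset.sum_congr rfl (fun i _ => by rw [Real.norm_eq_abs, sq_abs])
  unfold hat
  simp only [mul_pow, ← Finset.mul_sum, ← h2]
  field_simp

theorem Core_hat_neg {k : ℕ} (y : V k) : hat (-y) = fun i => - hat y i := by
  funext i
  unfold hat
  simp

theorem Core_odd {k : ℕ} (f : (Fin (k + 2) → ℝ) → ℂ) (hf : ∀ s, f (fun i => - s i) = - f s)
    (μ : Measure (V k)) [μ.IsAddHaarMeasure] : ∫ y in Metric.ball 0 1, f (hat y) ∂μ = 0 := by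
  have h1 : ∫ y in Metric.ball (0 : V k) 1, f (hat y) ∂μ = ∫ y, (Metric.ball (0 : V k) 1).indicator (fun y => f (hat y)) y ∂μ :=
    (integral_indicator measurableSet_ball).symm
  have h2 := integral_neg_eq_self (fun y => (Metric.ball (0 : V k) 1).indicator (fun y => f (hat y)) y) μ
  have h3 : ∀ y : V k, (Metric.ball (0 : V k) 1).indicator (fun y => f (hat y)) (-y) =
      - (Metric.ball (0 : V k) 1).indicator (fun y => f (hat y)) y := by
    intro y
    by_cases hy : y ∈ Metric.ball (0 : V k) 1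
    · have hy' : -y ∈ Metric.ball (0 : V k) 1 := by
        rw [mem_ball_zero_iff] at hy ⊢
        rwa [norm_neg]
      rw [Set.indicator_of_mem hy, Set.indicator_of_mem hy', Core_hat_neg, hf]
    · have hy' : -y ∉ Metric.ball (0 : V k) 1 := by
        rw [mem_ball_zero_iff] at hy ⊢
        rwa [norm_neg]
      rw [Set.indicator_of_notMem hy, Set.indicator_of_notMem hy', neg_zero]
  simp only [h3, integral_neg] at h2
  rw [h1]
  have h4 : (2 : ℂ) * ∫ y, (Metric.ball (0 : V k) 1).indicator (fun y => f (hat y)) y ∂μ = 0 := by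
    linear_combination -h2
  simpa using h4

theorem Core_ae {k : ℕ} {E : Type} [NormedAddCommGroup E] [NormedSpace ℝ E] (f g : (Fin (k + 2) → ℝ) → E)
    (h : ∀ s, ∑ i, s i ^ 2 = 1 → f s = g s) (μ : Measure (V k)) [μ.IsAddHaarMeasure] :
    ∫ y in Metric.ball 0 1, f (hat y) ∂μ = ∫ y in Metric.ball 0 1, g (hat y) ∂μ := by
  refine integral_congr_ae (ae_restrict_of_ae ?_)
  have h0 : ∀ᵐ y : V k ∂μ, y ≠ 0 := by
    rw [ae_iff]
    simp
  filter_upwards [h0] with y hy
  exact h _ (Core_hat_sq hy)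

theorem Core_intF {k : ℕ} (hInt : StInt) (μ : Measure (V k)) [μ.IsAddHaarMeasure] (N : ℕ) (hN : Even N) (hN2 : 2 ≤ N) (x : ℝ) :
    ((N : ℝ) - 1) * ∫ y in Metric.ball 0 1, ((x + 1) * hat y 0 ^ N - x * hat y 0 ^ (N - 2)) ∂μ =
      ((N : ℝ) - 1 - x - x * k) * ∫ y in Metric.ball 0 1, hat y 0 ^ N ∂μ := by
  obtain ⟨-, h2⟩ := hInt k N μ inferInstance hN hN2
  have i1 : IntegrableOn (fun y : V k => (x + 1) * hat y 0 ^ N) (Metric.ball 0 1) μ :=
    Core_integrable (fun s => (x + 1) * s 0 ^ N) (by fun_prop) μ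
  have i2 : IntegrableOn (fun y : V k => x * hat y 0 ^ (N - 2)) (Metric.ball 0 1) μ :=
    Core_integrable (fun s => x * s 0 ^ (N - 2)) (by fun_prop) μ
  rw [integral_sub i1 i2, integral_const_mul, integral_const_mul]
  linear_combination (-x) * h2

theorem Core_intT {k : ℕ} (hInt : StInt) (hDetA : StDetA) (μ : Measure (V k)) [μ.IsAddHaarMeasure] (d : ℕ) (hd : 2 ≤ d)
    (hN : Even (d * (k + 2))) : ∫ y in Metric.ball 0 1, (T d (hat y)).det ∂μ ≠ 0 := by
  have hd' : (2 : ℝ) ≤ d := by exact_mod_cast hd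
  have hk : (0 : ℝ) ≤ k := Nat.cast_nonneg k
  have hN2 : 2 ≤ d * (k + 2) := by nlinarith
  rw [Core_ae (fun s => (T d s).det) (fun s => (1 - (d : ℝ)) ^ (k + 1) *
    (((d : ℝ) + 1) * s 0 ^ (d * (k + 2)) - d * s 0 ^ (d * (k + 2) - 2))) (fun s hs => hDetA k d s hd hs) μ, integral_const_mul]
  have h1 := Core_intF hInt μ (d * (k + 2)) hN hN2 d
  obtain ⟨h3, -⟩ := hInt k (d * (k + 2)) μ inferInstance hN hN2
  refine mul_ne_zero (pow_ne_zero _ (by linarith)) ?_
  intro h0
  rw [h0, mul_zero] at h1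
  have h4 : ((d * (k + 2) : ℕ) : ℝ) - 1 - d - d * k = d - 1 := by push_cast; ring
  rw [h4] at h1
  have h5 : (d : ℝ) - 1 > 0 := by linarith
  have := mul_pos h5 h3
  linarith

theorem Core_intD {k : ℕ} (hInt : StInt) (hDetB : StDetB) (μ : Measure (V k)) [μ.IsAddHaarMeasure] (a b : ℕ) (ha : 3 ≤ a)
    (hb : Even b) (hN : Even ((k + 1) * a + b)) :
    ∫ y in Metric.ball 0 1, ∑ i, ((T a (hat y)).updateCol i (fun j => T b (hat y) j i)).det ∂μ ≠ 0 := by
  have ha' : (3 : ℝ) ≤ a := by exact_mod_cast ha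
  have hk : (0 : ℝ) ≤ k := Nat.cast_nonneg k
  have hb1 : b ≠ 1 := by
    rintro rfl
    exact absurd hb (by decide)
  have hN2 : 2 ≤ (k + 1) * a + b := by nlinarith
  set N := (k + 1) * a + b with hNdef
  have hNr : (N : ℝ) = (k + 1) * a + b := by rw [hNdef]; push_cast; ring
  rw [Core_ae (fun s => ∑ i, ((T a s).updateCol i (fun j => T b s j i)).det) (fun s => (1 - (a : ℝ)) ^ k * ((1 - (a : ℝ) + k * (1 - (b : ℝ))) *
        (((a : ℝ) + 1) * s 0 ^ N - a * s 0 ^ (N - 2))
      + (1 - (b : ℝ)) * (((b : ℝ) + 1) * s 0 ^ N - b * s 0 ^ (N - 2))))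
      (fun s hs => hDetB k a b s (by omega) hb1 hs) μ, integral_const_mul]
  have i1 : IntegrableOn (fun y : V k => (1 - (a : ℝ) + k * (1 - (b : ℝ))) *
        (((a : ℝ) + 1) * hat y 0 ^ N - a * hat y 0 ^ (N - 2))) (Metric.ball 0 1) μ :=
    Core_integrable (fun s => (1 - (a : ℝ) + k * (1 - (b : ℝ))) *
        (((a : ℝ) + 1) * s 0 ^ N - a * s 0 ^ (N - 2))) (by fun_prop) μ
  have i2 : IntegrableOn (fun y : V k => (1 - (b : ℝ)) * (((b : ℝ) + 1) * hat y 0 ^ N - b * hat y 0 ^ (N - 2)))
      (Metric.ball 0 1) μ :=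
    Core_integrable (fun s => (1 - (b : ℝ)) * (((b : ℝ) + 1) * s 0 ^ N - b * s 0 ^ (N - 2))) (by fun_prop) μ
  rw [integral_add i1 i2, integral_const_mul, integral_const_mul]
  have h1 := Core_intF hInt μ N hN hN2 a
  have h2 := Core_intF hInt μ N hN hN2 b
  obtain ⟨h3, -⟩ := hInt k N μ inferInstance hN hN2
  refine mul_ne_zero (pow_ne_zero _ (by linarith)) ?_
  intro h0
  have h4 : (1 - (b : ℝ)) * ((k + 2) * ((a : ℝ) - 1)) * ∫ y in Metric.ball 0 1, hat y 0 ^ N ∂μ = 0 := by
    rw [hNr] at h1 h2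
    linear_combination (((k : ℝ) + 1) * a + b - 1) * h0 - (1 - (a : ℝ) + k * (1 - (b : ℝ))) * h1 - (1 - (b : ℝ)) * h2
  have h6 : (1 - (b : ℝ)) ≠ 0 := by
    intro h
    have : (b : ℝ) = 1 := by linarith
    exact hb1 (by exact_mod_cast this)
  have h7 : ((k : ℝ) + 2) * ((a : ℝ) - 1) ≠ 0 := mul_ne_zero (by linarith) (by linarith)
  exact (mul_ne_zero (mul_ne_zero h6 h7) h3.ne') h4

open Polynomial in
theorem Core_dom {k : ℕ} (hTop : StTop) (hPolA : StPolA) (hInt : StInt) (hDetA : StDetA) (μ : Measure (V k)) [μ.IsAddHaarMeasure]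
    (a b : ℕ) (P Q : MvPolynomial (Fin (k + 3)) ℝ) (hP : P.IsHomogeneous a) (hQ : Q.IsHomogeneous b) (hab : a < b) (hb : 2 ≤ b)
    (hN : Even (b * (k + 2))) (w : Fin (k + 3) → Fin (k + 3) → ℝ)
    (h0 : ∫ y in Metric.ball 0 1, (((X : ℂ[X]) ^ (b - a) • MatX a P w (hat y) + MatX b Q w (hat y)).det).coeff
      ((k + 2) * (2 * b)) ∂μ = 0) : MvPolynomial.aeval (nu w) Q = 0 := by
  have key : ∀ s : Fin (k + 2) → ℝ, (((X : ℂ[X]) ^ (b - a) • MatX a P w s + MatX b Q w s).det).coeff ((k + 2) * (2 * b)) =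
      MvPolynomial.aeval (nu w) Q ^ (k + 2) * (((T b s).det : ℝ) : ℂ) := by
    intro s
    have hd : ∀ i j, (((X : ℂ[X]) ^ (b - a) • MatX a P w s + MatX b Q w s) i j).natDegree ≤ 2 * b := by
      intro i j
      rw [Matrix.add_apply, Matrix.smul_apply, smul_eq_mul]
      refine natDegree_add_le_of_degree_le ?_ (hTop k b Q hQ w s i j).1
      refine natDegree_mul_le.trans ?_
      rw [natDegree_X_pow]
      have := (hTop k a P hP w s i j).1
      omega
    rw [(hPolA (k + 2) (2 * b) _ hd).2]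
    have h1 : (Matrix.of (fun i j => (((X : ℂ[X]) ^ (b - a) • MatX a P w s + MatX b Q w s) i j).coeff (2 * b))) =
        MvPolynomial.aeval (nu w) Q • (Complex.ofRealHom.mapMatrix (T b s)) := by
      ext i j
      rw [Matrix.of_apply, Matrix.add_apply, Matrix.smul_apply, smul_eq_mul, coeff_add, (hTop k b Q hQ w s i j).2,
        Matrix.smul_apply, smul_eq_mul]
      have h2 : 2 * b = (a + b) + (b - a) := by omega
      have h3 : ((X : ℂ[X]) ^ (b - a) * MatX a P w s i j).coeff (2 * b) = 0 := by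
        rw [h2, coeff_X_pow_mul]
        refine coeff_eq_zero_of_natDegree_lt ?_
        have := (hTop k a P hP w s i j).1
        omega
      rw [h3, zero_add]
      rfl
    rw [h1, Matrix.det_smul, Fintype.card_fin, ← RingHom.map_det]
    rfl
  simp only [key] at h0
  rw [integral_const_mul, integral_complex_ofReal] at h0
  have h1 := Core_intT hInt hDetA μ b hb hN
  rcases mul_eq_zero.1 h0 with h | h
  · exact pow_eq_zero_iff (by omega) |>.1 h
  · exact absurd (by exact_mod_cast h) h1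

open Polynomial in
theorem Core_col {k : ℕ} (p q : ℂ) (A B : Matrix (Fin (k + 2)) (Fin (k + 2)) ℝ) (i : Fin (k + 2)) :
    ((Matrix.of (fun j l => p * ((A j l : ℝ) : ℂ))).updateCol i (fun j => q * ((B j i : ℝ) : ℂ))).det =
      p ^ (k + 1) * q * (((A.updateCol i (fun j => B j i)).det : ℝ) : ℂ) := by
  have h1 : (Matrix.of (fun j l => p * ((A j l : ℝ) : ℂ))).updateCol i (fun j => q * ((B j i : ℝ) : ℂ)) =
      Matrix.of (fun j l => (Function.update (fun _ => p) i q) l * (Complex.ofRealHom.mapMatrix (A.updateCol i (fun j => B j i))) j l) := by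
    ext j l
    by_cases h : l = i
    · subst h
      simp
    · simp [Matrix.updateCol_apply, h, Function.update_of_ne]
  rw [h1, Matrix.det_mul_row, ← RingHom.map_det, Finset.prod_update_of_mem (Finset.mem_univ i), Finset.prod_const]
  have h2 : (Finset.univ \ {i} : Finset (Fin (k + 2))).card = k + 1 := by
    rw [Finset.card_sdiff_of_subset (Finset.subset_univ _)]
    simp
  rw [h2]
  simp only [Complex.ofRealHom_eq_coe]
  ring

open Polynomial in
theorem Core_mix {k : ℕ} (hTop : StTop) (hPolB : StPolB) (hInt : StInt) (hDetB : StDetB) (hCont : StCont) (hHomog : StHomog)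
    (μ : Measure (V k)) [μ.IsAddHaarMeasure]
    (a b : ℕ) (P Q : MvPolynomial (Fin (k + 3)) ℝ) (hP : P.IsHomogeneous a) (hQ : Q.IsHomogeneous b) (hab : b < a) (ha : 3 ≤ a)
    (hao : Odd a) (hbe : Even b) (hk : Odd k) (w : Fin (k + 3) → Fin (k + 3) → ℝ)
    (h0 : ∫ y in Metric.ball 0 1, ((MatX a P w (hat y) + (X : ℂ[X]) ^ (a - b) • MatX b Q w (hat y)).det).coeff
      ((k + 2) * (2 * a) - (a - b)) ∂μ = 0) : MvPolynomial.aeval (nu w) P * MvPolynomial.aeval (nu w) Q = 0 := by
  have key : ∀ s : Fin (k + 2) → ℝ,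
      ((MatX a P w s + (X : ℂ[X]) ^ (a - b) • MatX b Q w s).det).coeff ((k + 2) * (2 * a) - (a - b)) -
        ((MatX a P w s).det).coeff ((k + 2) * (2 * a) - (a - b)) =
      MvPolynomial.aeval (nu w) P ^ (k + 1) * MvPolynomial.aeval (nu w) Q *
        ((∑ i, ((T a s).updateCol i (fun j => T b s j i)).det : ℝ) : ℂ) := by
    intro s
    have hB : ∀ i j, (((X : ℂ[X]) ^ (a - b) • MatX b Q w s) i j).natDegree ≤ 2 * a - (a - b) := by
      intro i j
      rw [Matrix.smul_apply, smul_eq_mul]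
      refine natDegree_mul_le.trans ?_
      rw [natDegree_X_pow]
      have := (hTop k b Q hQ w s i j).1
      omega
    rw [hPolB (k + 2) (2 * a) (a - b) _ _ (by omega) (by omega) (by omega) (fun i j => (hTop k a P hP w s i j).1) hB,
      add_sub_cancel_left]
    rw [Complex.ofReal_sum, Finset.mul_sum]
    refine Finset.sum_congr rfl (fun i _ => ?_)
    rw [← Core_col]
    congr 2
    · ext j l
      rw [Matrix.of_apply, Matrix.of_apply, (hTop k a P hP w s j l).2]
    · funext j
      rw [Matrix.smul_apply, smul_eq_mul]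
      have h2 : 2 * a - (a - b) = 2 * b + (a - b) := by omega
      rw [h2, coeff_X_pow_mul, (hTop k b Q hQ w s j i).2]
  have hc1 : Continuous (fun s : Fin (k + 2) → ℝ =>
      ((MatX a P w s + (X : ℂ[X]) ^ (a - b) • MatX b Q w s).det).coeff ((k + 2) * (2 * a) - (a - b))) := by
    have := hCont k a b 0 (a - b) P Q w ((k + 2) * (2 * a) - (a - b))
    simpa only [pow_zero, one_smul] using this
  have hc2 : Continuous (fun s : Fin (k + 2) → ℝ => ((MatX a P w s).det).coeff ((k + 2) * (2 * a) - (a - b))) := by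
    have := hCont k a 0 0 0 P 0 w ((k + 2) * (2 * a) - (a - b))
    have hz : ∀ s : Fin (k + 2) → ℝ, MatX 0 (0 : MvPolynomial (Fin (k + 3)) ℝ) w s = 0 := by
      intro s
      ext i j
      simp [MatX, Mat, R0, R1, R2]
    simpa only [pow_zero, one_smul, hz, add_zero] using this
  have ho : ∫ y in Metric.ball (0 : V k) 1, ((MatX a P w (hat y)).det).coeff ((k + 2) * (2 * a) - (a - b)) ∂μ = 0 := by
    refine Core_odd (fun s => ((MatX a P w s).det).coeff ((k + 2) * (2 * a) - (a - b))) (fun s => ?_) μ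
    have h1 : MatX a P w (fun i => - s i) = - MatX a P w s := by
      ext i j : 2
      have := (hHomog ℂ[X] (k + 3) (k + 2) a P hP (frameX w) (fun i => C (s i : ℂ)) i j).2 hao
      rw [Matrix.neg_apply]
      unfold MatX
      rw [← this]
      simp only [Complex.ofReal_neg, map_neg]
    simp only [h1]
    rw [Matrix.det_neg, Fintype.card_fin]
    have h2 : Odd (k + 2) := by
      obtain ⟨r, hr⟩ := hk
      exact ⟨r + 1, by omega⟩
    rw [h2.neg_one_pow, neg_one_mul, coeff_neg]
  have hs := integral_sub (Core_integrable _ hc1 μ) (Core_integrable _ hc2 μ)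
  simp only [key] at hs
  rw [h0, ho, sub_zero, integral_const_mul, integral_complex_ofReal] at hs
  have hN : Even ((k + 1) * a + b) := by
    have : Even (k + 1) := hk.add_one
    exact (this.mul_right a).add hbe
  have hD := Core_intD hInt hDetB μ a b ha hbe hN
  rcases mul_eq_zero.1 hs with h | h
  · rcases mul_eq_zero.1 h with h | h
    · rw [pow_eq_zero_iff (by omega)] at h
      rw [h, zero_mul]
    · rw [h, mul_zero]
  · exact absurd (by exact_mod_cast h) hD

open Polynomial in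
theorem pCore (hCoef : StCoef) (hTop : StTop) (hPolA : StPolA) (hPolB : StPolB) (hDetA : StDetA) (hDetB : StDetB) (hInt : StInt)
    (hCont : StCont) (hHomog : StHomog) : StCore := by
  intro k a b μ P Q w c hμ hP hQ ha hb hint
  have hco := hCoef k a b μ P Q w c hμ hP hQ hint
  constructor
  · intro hab
    have hb2 : 2 ≤ b := by
      obtain ⟨r, hr⟩ := ha
      obtain ⟨r', hr'⟩ := hb
      omega
    refine Core_dom hTop hPolA hInt hDetA μ a b P Q hP hQ hab hb2 (hb.mul_right _) w ?_
    have hm : max a b = b := max_eq_right hab.le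
    have h1 := hco ((k + 2) * (2 * b)) (by rw [hm]; intro h; nlinarith)
    rw [hm] at h1
    simpa only [Nat.sub_self, pow_zero, one_smul] using h1
  · intro hab ha3
    have hm : max a b = a := max_eq_left hab.le
    rcases Nat.even_or_odd k with hk | hk
    · have h1 := hco ((k + 2) * (2 * a)) (by rw [hm]; intro h; nlinarith)
      rw [hm] at h1
      simp only [Nat.sub_self, pow_zero, one_smul] at h1
      have h2 : MvPolynomial.aeval (nu w) P = 0 := by
        refine Core_dom hTop hPolA hInt hDetA μ b a Q P hQ hP hab (by omega) ?_ w ?_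
        · exact (hk.add (by decide)).mul_left a
        · simpa only [add_comm] using h1
      rw [h2, zero_mul]
    · refine Core_mix hTop hPolB hInt hDetB hCont hHomog μ a b P Q hP hQ hab ha3 ha hb hk w ?_
      have h1 := hco ((k + 2) * (2 * a) - (a - b)) (by
        rw [hm]
        intro h
        have h3 : (k + 2) * (2 * a) = a * (k + 2) + a * (k + 2) := by ring
        have h4 : a * 2 ≤ a * (k + 2) := Nat.mul_le_mul_left a (by omega)
        omega)
      rw [hm] at h1
      simpa only [Nat.sub_self, pow_zero, one_smul] using h1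

end Pool.Helper51.PSB
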