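import Pool.Agent.Helper51.PSB.St

/-!
# Project PSB (MP_26ac92_gt): module DP (helper23), derivative of a polynomial function
-/

set_option autoImplicit false

namespace Pool.Helper51.PSB

theorem pDP : StDP := by
  classical
  intro p P x
  induction P using MvPolynomial.induction_on with
  | C a =>
    have h : (∑ l, MvPolynomial.eval (fun l => x l) (MvPolynomial.pderiv l (MvPolynomial.C a)) •
        (EuclideanSpace.proj l : EuclideanSpace ℝ (Fin p) →L[ℝ] ℝ)) = 0 := by
      refine Finset.sum_eq_zero fun l _ => ?_
      rw [MvPolynomial.pderiv_C, map_zero, zero_smul]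
    rw [h]
    simp only [MvPolynomial.eval_C]
    exact hasFDerivAt_const a x
  | add P Q hP hQ =>
    have h := hP.add hQ
    rw [← Finset.sum_add_distrib] at h
    simp only [map_add]
    refine h.congr_fderiv ?_
    refine Finset.sum_congr rfl fun l _ => ?_
    rw [add_smul]
  | mul_X P n hP =>
    have h := hP.mul ((EuclideanSpace.proj n : EuclideanSpace ℝ (Fin p) →L[ℝ] ℝ).hasFDerivAt (x := x))
    simp only [map_mul, MvPolynomial.eval_X]
    refine h.congr_fderiv ?_
    ext v
    have hpr : ∀ (l : Fin p) (u : EuclideanSpace ℝ (Fin p)),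
        (EuclideanSpace.proj l : EuclideanSpace ℝ (Fin p) →L[ℝ] ℝ) u = u l := fun _ _ => rfl
    simp only [ContinuousLinearMap.add_apply, ContinuousLinearMap.smul_apply,
      ContinuousLinearMap.sum_apply, Derivation.leibniz, MvPolynomial.pderiv_X, smul_eq_mul, map_add,
      map_mul, MvPolynomial.eval_X, hpr, Finset.mul_sum]
    have h2 : ∀ l, MvPolynomial.eval (fun l => x l) P *
        MvPolynomial.eval (fun l => x l) ((Pi.single l (1 : MvPolynomial (Fin p) ℝ) :
          Fin p → MvPolynomial (Fin p) ℝ) n) * v l = if l = n then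
          MvPolynomial.eval (fun l => x l) P * v n else 0 := by
      intro l
      by_cases hl : l = n
      · subst hl
        simp
      · rw [if_neg hl, Pi.single_eq_of_ne (Ne.symm hl), map_zero, mul_zero, zero_mul]
    simp only [add_mul, h2, Finset.sum_add_distrib]
    rw [Finset.sum_ite_eq' Finset.univ n, if_pos (Finset.mem_univ n)]
    congr 1
    refine Finset.sum_congr rfl fun l _ => ?_
    rw [mul_assoc]

end Pool.Helper51.PSB
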