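import Pool.Agent.Helper51.PSB.St

/-!
# Project PSB (MP_26ac92_gt), module DetA (helper80)
-/

set_option autoImplicit false

namespace Pool.Helper51.PSB

theorem pDetA (hDetU : StDetU) : StDetA := by
  intro k d s hd hs
  have h := hDetU k d 0 s hd (by norm_num) hs ℝ (1 : ℝ) (0 : ℝ)
  have hM : (Matrix.of (fun i j => (1 : ℝ) * algebraMap ℝ ℝ (T d s i j) +
      (0 : ℝ) * algebraMap ℝ ℝ (T 0 s i j)) : Matrix (Fin (k + 2)) (Fin (k + 2)) ℝ) = T d s := by
    ext i j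
    simp
  rw [hM] at h
  rw [h]
  obtain ⟨e, rfl⟩ : ∃ e, d = e + 2 := ⟨d - 2, by omega⟩
  have h1 : (e + 2) * (k + 2) - 2 = (e + 2) + e + (e + 2) * k := by
    have : (e + 2) * (k + 2) = (e + 2) + e + (e + 2) * k + 2 := by ring
    omega
  have h2 : (e + 2) * (k + 2) = (e + 2) + (e + 2) + (e + 2) * k := by ring
  rw [h1, h2]
  simp only [Algebra.algebraMap_self, RingHom.id_apply, Nat.add_sub_cancel, one_mul, zero_mul,
    add_zero]
  rw [mul_pow, ← pow_mul, pow_add (s 0) (e + 2 + (e + 2)), pow_add (s 0) (e + 2 + e),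
    pow_add (s 0) (e + 2) (e + 2), pow_add (s 0) (e + 2) e, pow_succ (1 - ((e + 2 : ℕ) : ℝ)) k]
  ring

end Pool.Helper51.PSB
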