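import Pool.Agent.Helper51.PSB.St

set_option autoImplicit false

namespace Pool.Helper51.PSB

open Polynomial

private theorem DetB_coeff {n : ℕ} (A B : Matrix (Fin n) (Fin n) ℝ) :
    (derivative ((Matrix.of (fun i j => (1 : ℝ[X]) * algebraMap ℝ ℝ[X] (A i j)
      + (X : ℝ[X]) * algebraMap ℝ ℝ[X] (B i j))).det)).eval 0 =
      ∑ i, (A.updateCol i (fun j => B j i)).det := by
  rw [Matrix.det_apply]
  simp_rw [Matrix.det_apply]
  rw [Finset.sum_comm]
  simp only [derivative_sum, eval_finsetSum]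
  refine Finset.sum_congr rfl fun σ _ => ?_
  have key : ∀ M N : Fin n → ℝ, (derivative (∏ i, ((1 : ℝ[X]) * algebraMap ℝ ℝ[X] (M i)
      + (X : ℝ[X]) * algebraMap ℝ ℝ[X] (N i)))).eval 0
      = ∑ i, (∏ j ∈ Finset.univ.erase i, M j) * N i := by
    intro M N
    rw [derivative_prod_finset]
    simp only [eval_finsetSum, eval_mul, eval_prod]
    refine Finset.sum_congr rfl fun i _ => ?_
    congr 1
    · refine Finset.prod_congr rfl fun j _ => ?_
      simp
    · simp
  have key2 : ∀ (i : Fin n), ∏ j, (A.updateCol i (fun j => B j i)) (σ j) j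
      = (∏ j ∈ Finset.univ.erase i, A (σ j) j) * B (σ i) i := by
    intro i
    rw [← Finset.prod_erase_mul Finset.univ _ (Finset.mem_univ i)]
    congr 1
    · refine Finset.prod_congr rfl fun j hj => ?_
      rw [Matrix.updateCol_ne (Finset.ne_of_mem_erase hj)]
    · rw [Matrix.updateCol_self]
  simp only [Matrix.of_apply]
  have h3 : ∀ (u : ℤˣ) (p : ℝ[X]), (derivative (u • p)).eval 0 = u • ((derivative p).eval 0) := by
    intro u p
    rcases Int.units_eq_one_or u with h | h <;> simp [h]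
  rw [h3, key (fun i => A (σ i) i) (fun i => B (σ i) i), Finset.smul_sum]
  refine Finset.sum_congr rfl fun i _ => ?_
  rw [key2]

theorem pDetB (hDetU : StDetU) : StDetB := by
  intro k a b s ha hb hs
  rw [← DetB_coeff, hDetU k a b s ha hb hs ℝ[X] 1 X]
  obtain ⟨a', rfl⟩ : ∃ a', a = a' + 2 := ⟨a - 2, by omega⟩
  set t := s 0 with ht
  simp only [derivative_mul, derivative_add, derivative_pow, derivative_X,
    derivative_C, eval_add, eval_mul, eval_pow, eval_X, eval_C,
    Polynomial.algebraMap_eq, zero_mul, one_mul, mul_zero, add_zero, zero_add]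
  have e1 : a' + 2 - 2 = a' := by omega
  rw [e1]
  have hN : t ^ ((k + 1) * (a' + 2) + b) = t ^ b * (t ^ a' * t ^ 2) * (t ^ a' * t ^ 2) ^ k := by
    rw [← pow_add, ← pow_mul, ← pow_add, ← pow_add]
    congr 1
    ring
  have hN2 : t ^ ((k + 1) * (a' + 2) + b - 2) = t ^ b * t ^ a' * (t ^ a' * t ^ 2) ^ k := by
    rw [← pow_add, ← pow_add, ← pow_mul, ← pow_add]
    congr 1
    have : (k + 1) * (a' + 2) + b = (b + a' + (a' + 2) * k) + 2 := by ring
    omega
  have hA : t ^ (a' + 2) = t ^ a' * t ^ 2 := pow_add _ _ _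
  rw [hN, hN2, hA]
  have hB : (b : ℝ) * t ^ (b - 2) * (t ^ a' * t ^ 2) = (b : ℝ) * (t ^ b * t ^ a') := by
    rcases Nat.lt_or_ge b 2 with h | h
    · have h0 : b = 0 := by omega
      subst h0
      simp
    · obtain ⟨b', rfl⟩ : ∃ b', b = b' + 2 := ⟨b - 2, by omega⟩
      have e2 : b' + 2 - 2 = b' := by omega
      rw [e2, pow_add t b' 2]
      ring
  generalize ((a' + 2 : ℕ) : ℝ) = α
  generalize hβ : (b : ℝ) = β at hB ⊢
  generalize t ^ (b - 2) = u2 at hB ⊢
  generalize t ^ b = u at hB ⊢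
  generalize hτ : t ^ a' * t ^ 2 = τ at hB ⊢
  generalize t ^ a' = v at hB hτ ⊢
  rcases Nat.eq_zero_or_pos k with hk | hk
  · subst hk
    simp only [pow_zero, Nat.cast_zero, zero_mul, mul_zero, mul_one, add_zero, one_mul]
    linear_combination (-(1 - β)) * hB
  · obtain ⟨k', rfl⟩ : ∃ k', k = k' + 1 := ⟨k - 1, by omega⟩
    have e3 : k' + 1 - 1 = k' := by omega
    rw [e3]
    simp only [mul_pow, pow_succ]
    generalize (1 - α) ^ k' = x
    generalize τ ^ k' = y
    push_cast
    linear_combination (-(1 - β)) * (x * (1 - α)) * (y * τ) * hB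

end Pool.Helper51.PSB
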