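import Pool.Agent.Helper51.PSB.St

/-! Project PSB, module DetU: the determinant of a rank two perturbation of a scalar matrix. -/

set_option autoImplicit false

namespace Pool.Helper51.PSB

private lemma DetU_gen {R : Type} [CommRing R] (k : ℕ) (s e : Fin (k + 2) → R) (t : R)
    (h1 : ∑ i, s i * s i = 1) (h2 : ∑ i, e i * e i = 1) (h3 : ∑ i, s i * e i = t)
    (l k00 k01 k10 k11 : R) :
    (Matrix.of (fun i j : Fin (k + 2) => (if i = j then l else 0) +
      (k00 * s i * s j + k01 * s i * e j + k10 * e i * s j + k11 * e i * e j))).det =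
    l ^ k * ((l + k00 + k01 * t) * (l + k10 * t + k11) -
      (k00 * t + k01) * (k10 + k11 * t)) := by
  let A : Matrix (Fin (k + 2)) (Fin 2) R := Matrix.of (fun i p => if p = 0 then - s i else - e i)
  let B : Matrix (Fin 2) (Fin (k + 2)) R := Matrix.of (fun p j =>
    if p = 0 then k00 * s j + k01 * e j else k10 * s j + k11 * e j)
  have h := congrArg (Polynomial.eval l) (Matrix.charpoly_mul_comm_of_le A B (by simp))
  rw [Polynomial.eval_mul, Polynomial.eval_pow, Polynomial.eval_X, Matrix.eval_charpoly,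
    Matrix.eval_charpoly] at h
  have hc : Fintype.card (Fin (k + 2)) - Fintype.card (Fin 2) = k := by simp
  rw [hc] at h
  have hL : (Matrix.scalar (Fin (k + 2)) l - A * B) = Matrix.of (fun i j : Fin (k + 2) =>
      (if i = j then l else 0) +
      (k00 * s i * s j + k01 * s i * e j + k10 * e i * s j + k11 * e i * e j)) := by
    ext i j
    rw [Matrix.sub_apply, Matrix.mul_apply, Fin.sum_univ_two, Matrix.scalar_apply,
      Matrix.diagonal_apply]
    simp only [A, B, Matrix.of_apply, if_true, if_neg (one_ne_zero : (1 : Fin 2) ≠ 0)]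
    ring
  rw [hL] at h
  rw [h]
  congr 1
  have h3' : ∑ i, e i * s i = t := by
    rw [← h3]
    exact Finset.sum_congr rfl (fun i _ => mul_comm _ _)
  have b00 : (B * A) 0 0 = - (k00 + k01 * t) := by
    rw [Matrix.mul_apply]
    have : ∀ j, B 0 j * A j 0 = - (k00 * (s j * s j) + k01 * (e j * s j)) := by
      intro j
      simp only [A, B, Matrix.of_apply, if_true]
      ring
    rw [Finset.sum_congr rfl (fun j _ => this j), Finset.sum_neg_distrib, Finset.sum_add_distrib,
      ← Finset.mul_sum, ← Finset.mul_sum, h1, h3', mul_one]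
  have b01 : (B * A) 0 1 = - (k00 * t + k01) := by
    rw [Matrix.mul_apply]
    have : ∀ j, B 0 j * A j 1 = - (k00 * (s j * e j) + k01 * (e j * e j)) := by
      intro j
      simp only [A, B, Matrix.of_apply, if_true, if_neg (one_ne_zero : (1 : Fin 2) ≠ 0)]
      ring
    rw [Finset.sum_congr rfl (fun j _ => this j), Finset.sum_neg_distrib, Finset.sum_add_distrib,
      ← Finset.mul_sum, ← Finset.mul_sum, h3, h2, mul_one]
  have b10 : (B * A) 1 0 = - (k10 + k11 * t) := by
    rw [Matrix.mul_apply]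
    have : ∀ j, B 1 j * A j 0 = - (k10 * (s j * s j) + k11 * (e j * s j)) := by
      intro j
      simp only [A, B, Matrix.of_apply, if_true, if_neg (one_ne_zero : (1 : Fin 2) ≠ 0)]
      ring
    rw [Finset.sum_congr rfl (fun j _ => this j), Finset.sum_neg_distrib, Finset.sum_add_distrib,
      ← Finset.mul_sum, ← Finset.mul_sum, h1, h3', mul_one]
  have b11 : (B * A) 1 1 = - (k10 * t + k11) := by
    rw [Matrix.mul_apply]
    have : ∀ j, B 1 j * A j 1 = - (k10 * (s j * e j) + k11 * (e j * e j)) := by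
      intro j
      simp only [A, B, Matrix.of_apply, if_true, if_neg (one_ne_zero : (1 : Fin 2) ≠ 0)]
      ring
    rw [Finset.sum_congr rfl (fun j _ => this j), Finset.sum_neg_distrib, Finset.sum_add_distrib,
      ← Finset.mul_sum, ← Finset.mul_sum, h3, h2, mul_one]
  rw [Matrix.det_fin_two]
  simp only [Matrix.sub_apply, Matrix.scalar_apply, Matrix.diagonal_apply, b00, b01, b10, b11,
    if_true, if_neg (one_ne_zero : (1 : Fin 2) ≠ 0), if_neg (zero_ne_one : (0 : Fin 2) ≠ 1)]
  ring

theorem pDetU : StDetU := by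
  intro k a b s ha hb hs R _ _ x y
  obtain ⟨a, rfl⟩ : ∃ a', a = a' + 2 := ⟨a - 2, by omega⟩
  let F := algebraMap ℝ R
  have key := DetU_gen (R := R) k (fun i => F (s i)) (fun i => if i = 0 then 1 else 0) (F (s 0))
    (by
      have : ∑ i, F (s i) * F (s i) = F (∑ i, s i ^ 2) := by
        rw [map_sum]
        exact Finset.sum_congr rfl (fun i _ => by rw [sq, map_mul])
      rw [this, hs, map_one])
    (by simp) (by simp)
    (x * F ((1 - ((a + 2 : ℕ) : ℝ)) * s 0 ^ (a + 2)) + y * F ((1 - (b : ℝ)) * s 0 ^ b))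
    (x * F (((a + 2 : ℕ) : ℝ) * (((a + 2 : ℕ) : ℝ) - 1) * s 0 ^ (a + 2)) +
      y * F ((b : ℝ) * ((b : ℝ) - 1) * s 0 ^ b))
    (x * F ((1 - ((a + 2 : ℕ) : ℝ)) * (((a + 2 : ℕ) : ℝ) * s 0 ^ (a + 2 - 1))) +
      y * F ((1 - (b : ℝ)) * ((b : ℝ) * s 0 ^ (b - 1))))
    (x * F ((2 - ((a + 2 : ℕ) : ℝ)) * (((a + 2 : ℕ) : ℝ) * s 0 ^ (a + 2 - 1))) +
      y * F ((2 - (b : ℝ)) * ((b : ℝ) * s 0 ^ (b - 1))))
    (x * F (((a + 2 : ℕ) : ℝ) * (((a + 2 : ℕ) : ℝ) - 1) * s 0 ^ (a + 2 - 2)) +
      y * F ((b : ℝ) * ((b : ℝ) - 1) * s 0 ^ (b - 2)))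
  have hM : (Matrix.of (fun i j => x * algebraMap ℝ R (T (a + 2) s i j) +
      y * algebraMap ℝ R (T b s i j))) = Matrix.of (fun i j : Fin (k + 2) =>
      (if i = j then (x * F ((1 - ((a + 2 : ℕ) : ℝ)) * s 0 ^ (a + 2)) +
        y * F ((1 - (b : ℝ)) * s 0 ^ b)) else 0) +
      ((x * F (((a + 2 : ℕ) : ℝ) * (((a + 2 : ℕ) : ℝ) - 1) * s 0 ^ (a + 2)) +
        y * F ((b : ℝ) * ((b : ℝ) - 1) * s 0 ^ b)) * (fun i => F (s i)) i * (fun i => F (s i)) j +
      (x * F ((1 - ((a + 2 : ℕ) : ℝ)) * (((a + 2 : ℕ) : ℝ) * s 0 ^ (a + 2 - 1))) +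
        y * F ((1 - (b : ℝ)) * ((b : ℝ) * s 0 ^ (b - 1)))) * (fun i => F (s i)) i *
          (fun i : Fin (k + 2) => if i = 0 then (1 : R) else 0) j +
      (x * F ((2 - ((a + 2 : ℕ) : ℝ)) * (((a + 2 : ℕ) : ℝ) * s 0 ^ (a + 2 - 1))) +
        y * F ((2 - (b : ℝ)) * ((b : ℝ) * s 0 ^ (b - 1)))) *
          (fun i : Fin (k + 2) => if i = 0 then (1 : R) else 0) i * (fun i => F (s i)) j +
      (x * F (((a + 2 : ℕ) : ℝ) * (((a + 2 : ℕ) : ℝ) - 1) * s 0 ^ (a + 2 - 2)) +
        y * F ((b : ℝ) * ((b : ℝ) - 1) * s 0 ^ (b - 2))) *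
          (fun i : Fin (k + 2) => if i = 0 then (1 : R) else 0) i *
          (fun i : Fin (k + 2) => if i = 0 then (1 : R) else 0) j)) := by
    ext i j
    simp only [Matrix.of_apply, T, F]
    by_cases hij : i = j
    · subst hij
      by_cases hi : i = 0
      · simp only [hi, if_true, and_self]
        simp only [map_add, map_mul, map_sub, map_pow, map_one, map_natCast, map_ofNat]
        ring
      · simp only [hi, if_true, if_false, and_self]
        simp only [map_add, map_mul, map_sub, map_pow, map_one, map_natCast, map_ofNat, map_zero]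
        ring
    · by_cases hi : i = 0
      · have hj : ¬ (j = 0) := fun h => hij (hi.trans h.symm)
        simp only [hij, hj, if_false, and_false]
        simp only [hi, if_true]
        simp only [map_add, map_mul, map_sub, map_pow, map_one, map_natCast, map_ofNat, map_zero]
        ring
      · by_cases hj : j = 0
        · simp only [hij, hi, if_false, false_and]
          simp only [hj, if_true]
          simp only [map_add, map_mul, map_sub, map_pow, map_one, map_natCast, map_ofNat, map_zero]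
          ring
        · simp only [hij, hi, hj, if_false, false_and]
          simp only [map_add, map_mul, map_sub, map_pow, map_one, map_natCast, map_ofNat, map_zero]
          ring
  rw [hM, key]
  rw [mul_comm]
  congr 1
  have hsub1 : a + 2 - 1 = a + 1 := by omega
  have hsub2 : a + 2 - 2 = a := by omega
  rw [hsub1, hsub2]
  rcases Nat.lt_or_ge b 2 with hb2 | hb2
  · have hb0 : b = 0 := by omega
    subst hb0
    simp only [map_add, map_mul, map_sub, map_pow, map_one, map_natCast, map_ofNat,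
      Nat.cast_zero, map_zero, F]
    push_cast
    ring
  · obtain ⟨b, rfl⟩ : ∃ b', b = b' + 2 := ⟨b - 2, by omega⟩
    have hsub3 : b + 2 - 1 = b + 1 := by omega
    have hsub4 : b + 2 - 2 = b := by omega
    rw [hsub3, hsub4]
    simp only [map_add, map_mul, map_sub, map_pow, map_one, map_natCast, map_ofNat, F]
    push_cast
    ring

end Pool.Helper51.PSB
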