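import Pool.Agent.Helper51.PSB.St

/-! # Project PSB, module Ev -/

set_option autoImplicit false

namespace Pool.Helper51.PSB

private theorem Ev_frame {k : ℕ} (w : Fin (k + 3) → Fin (k + 3) → ℝ) (φ : ℝ) (i : Fin (k + 2)) (l : Fin (k + 3)) :
    (frameX w i l).eval (Complex.exp (φ * Complex.I)) =
      Complex.exp (φ * Complex.I) * ((frame w φ i l : ℝ) : ℂ) := by
  by_cases hi : i = 0
  · subst hi
    have hz : Complex.exp (φ * Complex.I) = (Real.cos φ : ℂ) + (Real.sin φ : ℂ) * Complex.I := by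
      rw [Complex.exp_mul_I, Complex.ofReal_cos, Complex.ofReal_sin]
    have hcs : (Real.cos φ : ℂ) ^ 2 + (Real.sin φ : ℂ) ^ 2 = 1 := by
      have h := Real.cos_sq_add_sin_sq φ
      exact_mod_cast h
    have hI : Complex.I ^ 2 = -1 := Complex.I_sq
    simp only [frameX, frame, if_true, Polynomial.eval_add, Polynomial.eval_mul, Polynomial.eval_C,
      Polynomial.eval_pow, Polynomial.eval_X, nu, nub, hz]
    push_cast
    generalize (w 0 l : ℂ) = a
    generalize (w 1 l : ℂ) = b
    rw [Complex.ofReal_cos, Complex.ofReal_sin] at hcs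
    generalize Complex.cos (φ : ℂ) = c at hcs ⊢
    generalize Complex.sin (φ : ℂ) = s at hcs ⊢
    generalize Complex.I = J at hI ⊢
    linear_combination (a * s ^ 2 / 2 - b * c * s - b * J * s ^ 2 / 2) * hI + (-a / 2 - b * J / 2) * hcs
  · simp only [frameX, frame, if_neg hi, Polynomial.eval_mul, Polynomial.eval_C, Polynomial.eval_X]
    ring

theorem pEv (hMap : StMap) (hHomog : StHomog) : StEv := by
  intro k d P hP w s φ i j
  set z : ℂ := Complex.exp (φ * Complex.I) with hz
  let ev : Polynomial ℂ →ₐ[ℝ] ℂ := (Polynomial.aeval z).restrictScalars ℝ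
  have h1 := hMap (Polynomial ℂ) ℂ ev (k + 3) (k + 2) d P (frameX w) (fun i => Polynomial.C (s i : ℂ)) i j
  have h2 := (hHomog ℂ (k + 3) (k + 2) d P hP (fun i l => ((frame w φ i l : ℝ) : ℂ)) (fun i => (s i : ℂ)) i j).1 z
  have h3 := hMap ℝ ℂ Complex.ofRealAm (k + 3) (k + 2) d P (frame w φ) s i j
  have e1 : ∀ p : Polynomial ℂ, ev p = p.eval z := by
    intro p
    simp only [ev, AlgHom.restrictScalars_apply]
    exact Polynomial.coe_aeval_eq_eval z ▸ rfl
  have e2 : (fun i l => ev (frameX w i l)) = (fun i l => z * ((frame w φ i l : ℝ) : ℂ)) := by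
    funext i l
    rw [e1, hz, Ev_frame]
  have e3 : (fun i => ev (Polynomial.C (s i : ℂ))) = (fun i => (s i : ℂ)) := by
    funext i
    rw [e1, Polynomial.eval_C]
  rw [e1, e2, e3] at h1
  have h3' : ((Mat d P (frame w φ) s i j : ℝ) : ℂ) =
      Mat d P (fun i l => ((frame w φ i l : ℝ) : ℂ)) (fun i => ((s i : ℝ) : ℂ)) i j := h3
  rw [h3', ← h2, ← h1]
  rfl

end Pool.Helper51.PSB
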