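import Pool.Agent.Helper51.PSB.St

/-! PSB module Geo. -/

set_option autoImplicit false

namespace Pool.Helper51.PSB

open MeasureTheory

private theorem Geo_adj_left {k : ℕ} (J : V k →ₗᵢ[ℝ] W k) (x : W k) (y : V k) :
    (inner ℝ (ContinuousLinearMap.adjoint J.toContinuousLinearMap x) y : ℝ) = inner ℝ x (J y) := by
  rw [ContinuousLinearMap.adjoint_inner_left]
  rfl

private theorem Geo_adj_J {k : ℕ} (J : V k →ₗᵢ[ℝ] W k) (y : V k) :
    ContinuousLinearMap.adjoint J.toContinuousLinearMap (J y) = y := by
  refine ext_inner_right ℝ ?_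
  intro z
  rw [Geo_adj_left, LinearIsometry.inner_map_map]

private theorem Geo_J_adj {k : ℕ} (J : V k →ₗᵢ[ℝ] W k) (u : W k) (hu : ‖u‖ = 1)
    (h0 : ∀ y, (inner ℝ (J y) u : ℝ) = 0) (x : W k) :
    J (ContinuousLinearMap.adjoint J.toContinuousLinearMap x) = x - (inner ℝ x u : ℝ) • u := by
  have hu0 : u ≠ 0 := by
    intro h
    rw [h, norm_zero] at hu
    exact zero_ne_one hu
  have hle : LinearMap.range J.toLinearMap ≤ (Submodule.span ℝ {u})ᗮ := by
    rintro _ ⟨y, rfl⟩
    rw [Submodule.mem_orthogonal_singleton_iff_inner_left]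
    exact h0 y
  have : Fact (Module.finrank ℝ (W k) = (k + 2) + 1) := ⟨by simp⟩
  have hf1 : Module.finrank ℝ (Submodule.span ℝ {u})ᗮ = k + 2 :=
    Submodule.finrank_orthogonal_span_singleton hu0
  have hf2 : Module.finrank ℝ (LinearMap.range J.toLinearMap) = k + 2 := by
    rw [LinearMap.finrank_range_of_inj J.injective]
    simp
  have heq : LinearMap.range J.toLinearMap = (Submodule.span ℝ {u})ᗮ :=
    Submodule.eq_of_le_of_finrank_eq hle (by rw [hf1, hf2])
  have hmem : x - (inner ℝ x u : ℝ) • u ∈ LinearMap.range J.toLinearMap := by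
    rw [heq, Submodule.mem_orthogonal_singleton_iff_inner_left, inner_sub_left, inner_smul_left,
      real_inner_self_eq_norm_sq, hu]
    simp
  obtain ⟨y0, hy0⟩ := hmem
  have hy0' : J y0 = x - (inner ℝ x u : ℝ) • u := hy0
  have hAu : ContinuousLinearMap.adjoint J.toContinuousLinearMap u = 0 := by
    refine ext_inner_right ℝ ?_
    intro z
    rw [Geo_adj_left, inner_zero_left, real_inner_comm]
    exact h0 z
  have hx : x = J y0 + (inner ℝ x u : ℝ) • u := by
    rw [hy0']
    abel
  have hA : ContinuousLinearMap.adjoint J.toContinuousLinearMap x = y0 := by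
    conv_lhs => rw [hx]
    rw [map_add, map_smul, hAu, smul_zero, add_zero, Geo_adj_J]
  rw [hA, hy0']

theorem pGeo : StGeo := by
  intro k K J u hcv hcp h0 hu hJ
  refine ⟨ContinuousLinearMap.adjoint J.toContinuousLinearMap '' K, ?_, ?_, ?_, ?_, ?_⟩
  · exact hcv.linear_image (ContinuousLinearMap.adjoint J.toContinuousLinearMap).toLinearMap
  · exact hcp.image (ContinuousLinearMap.adjoint J.toContinuousLinearMap).continuous
  · rw [mem_interior_iff_mem_nhds, Metric.mem_nhds_iff] at h0 ⊢
    obtain ⟨ε, hε, hb⟩ := h0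
    refine ⟨ε, hε, ?_⟩
    intro y hy
    refine ⟨J y, hb ?_, Geo_adj_J J y⟩
    rw [mem_ball_zero_iff] at hy ⊢
    rw [LinearIsometry.norm_map]
    exact hy
  · intro y v hv
    have he : (fun x : V k => (inner ℝ x y : ℝ)) ''
        (ContinuousLinearMap.adjoint J.toContinuousLinearMap '' K) =
        (fun x : W k => (inner ℝ x (J y) : ℝ)) '' K := by
      rw [Set.image_image]
      refine Set.image_congr ?_
      intro x _
      exact Geo_adj_left J x y
    rw [he]
    exact hv
  · have he : (fun x : W k => x - (inner ℝ x u : ℝ) • u) '' K =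
        J '' (ContinuousLinearMap.adjoint J.toContinuousLinearMap '' K) := by
      rw [Set.image_image]
      refine Set.image_congr ?_
      intro x _
      exact (Geo_J_adj J u hu hJ x).symm
    rw [he]
    exact (J.isometry.hausdorffMeasure_image (Or.inl (by positivity)) _).symm

end Pool.Helper51.PSB
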