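import Pool.Agent.Helper51.PSB.St

/-! Module Grd of project PSB: the gradient of the support function of a projection and its derivative. -/

set_option autoImplicit false

namespace Pool.Helper51.PSB

open MvPolynomial

private theorem Grd_p {n : ℕ} (m : Fin n) (v : EuclideanSpace ℝ (Fin n)) :
    (EuclideanSpace.proj m : EuclideanSpace ℝ (Fin n) →L[ℝ] ℝ) v = v m := rfl

private theorem Grd_norm {k : ℕ} (y : V k) (hy : y ≠ 0) :
    HasFDerivAt (fun y' : V k => ‖y'‖) (innerSL ℝ (‖y‖⁻¹ • y)) y := by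
  have hn : 0 < ‖y‖ := norm_pos_iff.mpr hy
  have h1 := (hasStrictFDerivAt_norm_sq y).hasFDerivAt
  have h2 := h1.sqrt (by positivity)
  have h3 : (fun y' : V k => Real.sqrt (‖y'‖ ^ 2)) = fun y' : V k => ‖y'‖ := by
    funext y'
    exact Real.sqrt_sq (norm_nonneg _)
  rw [h3] at h2
  refine h2.congr_fderiv ?_
  ext v
  rw [Real.sqrt_sq (norm_nonneg _)]
  simp
  field_simp

private theorem Grd_inv {k : ℕ} (y : V k) (hy : y ≠ 0) :
    HasFDerivAt (fun y' : V k => ‖y'‖⁻¹ • y')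
      (‖y‖⁻¹ • (ContinuousLinearMap.id ℝ (V k) -
        (innerSL ℝ (‖y‖⁻¹ • y)).smulRight (‖y‖⁻¹ • y))) y := by
  have hn : ‖y‖ ≠ 0 := norm_ne_zero_iff.mpr hy
  have h1 := Grd_norm y hy
  have h2 : HasFDerivAt (fun y' : V k => ‖y'‖⁻¹) ((-(‖y‖ ^ 2)⁻¹) • innerSL ℝ (‖y‖⁻¹ • y)) y := by
    have := (hasDerivAt_inv hn).comp_hasFDerivAt y h1
    exact this
  have h3 := h2.smul (hasFDerivAt_id y)
  refine h3.congr_fderiv ?_
  ext v i
  simp
  field_simp
  ring

private theorem Grd_A {k : ℕ} (F : V k → ℝ) (F' : V k →L[ℝ] ℝ) (y : V k) (hy : y ≠ 0)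
    (hF : HasFDerivAt F F' (‖y‖⁻¹ • y)) :
    HasFDerivAt (fun y' : V k => ‖y'‖ * F (‖y'‖⁻¹ • y'))
      (F (‖y‖⁻¹ • y) • innerSL ℝ (‖y‖⁻¹ • y) +
        (F' - F' (‖y‖⁻¹ • y) • innerSL ℝ (‖y‖⁻¹ • y))) y := by
  have hn : ‖y‖ ≠ 0 := norm_ne_zero_iff.mpr hy
  have h1 := Grd_norm y hy
  have h2 : HasFDerivAt (fun y' : V k => F (‖y'‖⁻¹ • y'))
      (F'.comp (‖y‖⁻¹ • (ContinuousLinearMap.id ℝ (V k) -
        (innerSL ℝ (‖y‖⁻¹ • y)).smulRight (‖y‖⁻¹ • y)))) y :=
    HasFDerivAt.comp (g := F) (f := fun y' : V k => ‖y'‖⁻¹ • y') y hF (Grd_inv y hy)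
  have h3 := h1.mul h2
  refine h3.congr_fderiv ?_
  ext v
  have e1 : (F'.comp (‖y‖⁻¹ • (ContinuousLinearMap.id ℝ (V k) -
        (innerSL ℝ (‖y‖⁻¹ • y)).smulRight (‖y‖⁻¹ • y)))) v
      = ‖y‖⁻¹ * (F' v - (inner ℝ (‖y‖⁻¹ • y) v : ℝ) * F' (‖y‖⁻¹ • y)) := by
    simp only [ContinuousLinearMap.comp_apply, _root_.smul_apply,
      _root_.sub_apply, ContinuousLinearMap.id_apply,
      ContinuousLinearMap.smulRight_apply, innerSL_apply_apply, map_smul, map_sub, smul_eq_mul,
      real_inner_smul_left]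
  simp only [_root_.add_apply, _root_.smul_apply,
    _root_.sub_apply, innerSL_apply_apply, smul_eq_mul, e1]
  field_simp
  ring

section
variable {k : ℕ} (J : V k →ₗᵢ[ℝ] W k)

private theorem Grd_J (s : V k) (l : Fin (k + 3)) :
    J s l = ∑ i, s i * J (EuclideanSpace.single i (1 : ℝ)) l := by
  have h : s = ∑ i, s i • (EuclideanSpace.single i (1 : ℝ) : V k) := by
    ext j
    simp [Finset.sum_apply, Pi.single_apply]
  conv_lhs => rw [h]
  rw [map_sum]
  simp [map_smul, Finset.sum_apply]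

private theorem Grd_R0 (Q : MvPolynomial (Fin (k + 3)) ℝ) (s : V k) :
    R0 Q (fun i l => J (EuclideanSpace.single i (1 : ℝ)) l) (fun i => s i) =
      eval (fun l => J s l) Q := by
  have h := congrArg (fun φ : MvPolynomial (Fin (k + 3)) ℝ →+* ℝ => φ Q)
    (MvPolynomial.coe_aeval_eq_eval (fun l => J s l))
  refine Eq.trans ?_ h
  have h2 : (fun l => J s l) = fun l => ∑ i, s i * J (EuclideanSpace.single i (1 : ℝ)) l := by
    funext l
    exact Grd_J J s l
  rw [h2]
  rfl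

private theorem Grd_B (hDP : StDP) (Q : MvPolynomial (Fin (k + 3)) ℝ) (s : V k) :
    HasFDerivAt (fun s' : V k => R0 Q (fun i l => J (EuclideanSpace.single i (1 : ℝ)) l) (fun i => s' i))
      (∑ m, R1 Q (fun i l => J (EuclideanSpace.single i (1 : ℝ)) l) (fun i => s i) m •
        (EuclideanSpace.proj m : V k →L[ℝ] ℝ)) s := by
  have h1 := hDP (k + 3) Q (J s)
  have h2 := h1.comp s (J.toContinuousLinearMap.hasFDerivAt)
  have h3 : (fun s' : V k => R0 Q (fun i l => J (EuclideanSpace.single i (1 : ℝ)) l) (fun i => s' i)) =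
      ((fun x' : W k => eval (fun l => x' l) Q) ∘ J) := by
    funext s'
    rw [Grd_R0]
    rfl
  rw [h3]
  refine h2.congr_fderiv ?_
  ext v
  simp only [ContinuousLinearMap.comp_apply, _root_.sum_apply,
    _root_.smul_apply, Grd_p, smul_eq_mul,
    LinearIsometry.coe_toContinuousLinearMap, R1, Grd_R0]
  simp only [Grd_J J v, Finset.mul_sum, Finset.sum_mul]
  rw [Finset.sum_comm]
  refine Finset.sum_congr rfl fun m _ => Finset.sum_congr rfl fun l _ => ?_
  ring

private theorem Grd_C (hDP : StDP) (Q : MvPolynomial (Fin (k + 3)) ℝ) (s : V k) (i : Fin (k + 2)) :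
    HasFDerivAt (fun s' : V k => R1 Q (fun i l => J (EuclideanSpace.single i (1 : ℝ)) l) (fun i => s' i) i)
      (∑ m, R2 Q (fun i l => J (EuclideanSpace.single i (1 : ℝ)) l) (fun i => s i) i m •
        (EuclideanSpace.proj m : V k →L[ℝ] ℝ)) s := by
  unfold R1
  have h := HasFDerivAt.fun_sum (u := Finset.univ) (fun l (_ : l ∈ (Finset.univ : Finset (Fin (k + 3)))) =>
    (Grd_B J hDP (pderiv l Q) s).const_mul (J (EuclideanSpace.single i (1 : ℝ)) l))
  refine h.congr_fderiv ?_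
  ext v
  simp only [_root_.sum_apply,
    _root_.smul_apply, Grd_p, smul_eq_mul, R1, R2]
  simp only [Finset.mul_sum, Finset.sum_mul]
  rw [Finset.sum_comm]
  refine Finset.sum_congr rfl fun m _ => Finset.sum_congr rfl fun l _ =>
    Finset.sum_congr rfl fun l' _ => ?_
  ring

end

section
variable {p q : ℕ}

private theorem Grd_E1 (Q : MvPolynomial (Fin p) ℝ) (e : ℕ) (hQ : Q.IsHomogeneous e)
    (c : Fin q → Fin p → ℝ) (s : Fin q → ℝ) :
    ∑ m, s m * R1 Q c s m = (e : ℝ) * R0 Q c s := by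
  have h := congrArg (aeval (fun l => ∑ i, s i * c i l)) hQ.sum_X_mul_pderiv
  rw [map_sum, map_nsmul, nsmul_eq_mul] at h
  unfold R1 R0
  rw [← h]
  simp only [map_mul, aeval_X, Finset.mul_sum, Finset.sum_mul]
  rw [Finset.sum_comm]
  refine Finset.sum_congr rfl fun m _ => Finset.sum_congr rfl fun l _ => ?_
  ring

private theorem Grd_E2 (Q : MvPolynomial (Fin p) ℝ) (e : ℕ) (hQ : Q.IsHomogeneous e)
    (c : Fin q → Fin p → ℝ) (s : Fin q → ℝ) (i : Fin q) :
    ∑ m, s m * R2 Q c s i m = ((e : ℝ) - 1) * R1 Q c s i := by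
  have h0 : ∑ m, s m * R2 Q c s i m = ∑ l, c i l * ∑ m, s m * R1 (pderiv l Q) c s m := by
    unfold R2 R1
    simp only [Finset.mul_sum]
    rw [Finset.sum_comm]
    refine Finset.sum_congr rfl fun m _ => Finset.sum_congr rfl fun l _ =>
      Finset.sum_congr rfl fun l' _ => ?_
    ring
  rw [h0]
  unfold R1
  rw [Finset.mul_sum]
  refine Finset.sum_congr rfl fun l _ => ?_
  rcases Nat.eq_zero_or_pos e with he | he
  · subst he
    have h1 : pderiv l Q = 0 := by
      have h2 : Q = C (coeff 0 Q) := by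
        have := (MvPolynomial.totalDegree_eq_zero_iff_eq_C (p := Q)).1
          (Nat.le_zero.mp hQ.totalDegree_le)
        exact this
      rw [h2, pderiv_C]
    rw [h1]
    simp [R0]
  · have h1 := Grd_E1 (pderiv l Q) (e - 1) hQ.pderiv c s
    have h2 : ∑ m, s m * R1 (pderiv l Q) c s m = ((e : ℝ) - 1) * R0 (pderiv l Q) c s := by
      rw [h1, Nat.cast_sub he]
      push_cast
      ring
    have h3 : ∑ m, s m * ∑ l', c m l' * R0 (pderiv l' (pderiv l Q)) c s =
        ((e : ℝ) - 1) * R0 (pderiv l Q) c s := h2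
    rw [h3]
    ring

end

theorem pGrd (hDP : StDP) : StGrd := by
  intro k d P hP J
  set c : Fin (k + 2) → Fin (k + 3) → ℝ := fun i l => J (EuclideanSpace.single i (1 : ℝ)) l with hc
  set Φ : V k → Fin (k + 2) → ℝ := fun s i =>
    (1 - (d : ℝ)) * (R0 P c (fun i => s i) * s i) + R1 P c (fun i => s i) i with hΦ
  set G : V k → V k := fun y => WithLp.toLp 2 (fun i => ‖y‖ * Φ (‖y‖⁻¹ • y) i) with hG
  have hE1 : ∀ s : V k, ∑ m, s m * R1 P c (fun i => s i) m = (d : ℝ) * R0 P c (fun i => s i) :=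
    fun s => Grd_E1 P d hP c (fun i => s i)
  have hE2 : ∀ (s : V k) (i), ∑ m, s m * R2 P c (fun i => s i) i m =
      ((d : ℝ) - 1) * R1 P c (fun i => s i) i :=
    fun s i => Grd_E2 P d hP c (fun i => s i) i
  have hΦd : ∀ (s : V k) (i : Fin (k + 2)), HasFDerivAt (fun s' : V k => Φ s' i)
      ((1 - (d : ℝ)) • (R0 P c (fun i => s i) • (EuclideanSpace.proj i : V k →L[ℝ] ℝ) +
        s i • (∑ m, R1 P c (fun i => s i) m • (EuclideanSpace.proj m : V k →L[ℝ] ℝ))) +
        ∑ m, R2 P c (fun i => s i) i m • (EuclideanSpace.proj m : V k →L[ℝ] ℝ)) s := by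
    intro s i
    have h1 := Grd_B J hDP P s
    have h2 := Grd_C J hDP P s i
    have h3 : HasFDerivAt (fun s' : V k => s' i) (EuclideanSpace.proj i : V k →L[ℝ] ℝ) s :=
      (EuclideanSpace.proj i : V k →L[ℝ] ℝ).hasFDerivAt
    exact ((h1.mul h3).const_mul (1 - (d : ℝ))).add h2
  have hGd : ∀ (y : V k), y ≠ 0 → ∀ i : Fin (k + 2), HasFDerivAt (fun y' : V k => G y' i)
      (Φ (‖y‖⁻¹ • y) i • innerSL ℝ (‖y‖⁻¹ • y) + _) y := fun y hy i =>
    Grd_A (fun s' => Φ s' i) _ y hy (hΦd (‖y‖⁻¹ • y) i)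
  have hGdiff : ∀ y : V k, y ≠ 0 → DifferentiableAt ℝ G y := fun y hy =>
    differentiableAt_euclidean.mpr fun i => (hGd y hy i).differentiableAt
  refine ⟨G, fun y => fderiv ℝ G y, ?_, ?_, ?_⟩
  · intro y hy
    rw [hasGradientAt_iff_hasFDerivAt]
    have hn : ‖y‖ ≠ 0 := norm_ne_zero_iff.mpr hy
    have h1 := Grd_A _ _ y hy (Grd_B J hDP P (‖y‖⁻¹ • y))
    have h2 : (fun y' : V k => ‖y'‖ * R0 P (fun i l => J (EuclideanSpace.single i (1 : ℝ)) l)
        (fun i => (‖y'‖⁻¹ • y') i)) =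
        fun y' => ‖y'‖ * MvPolynomial.eval (fun l => J (‖y'‖⁻¹ • y') l) P := by
      funext y'
      rw [Grd_R0]
    rw [h2] at h1
    refine h1.congr_fderiv ?_
    ext v
    set u : V k := ‖y‖⁻¹ • y with hu
    have h3 : ‖y‖⁻¹ • G y = WithLp.toLp 2 (fun i => Φ u i) := by
      ext i
      simp only [hG, PiLp.smul_apply, smul_eq_mul]
      rw [← hu]
      field_simp
    rw [h3]
    rw [InnerProductSpace.toDual_apply_apply]
    have h4 : (inner ℝ (WithLp.toLp 2 (fun i => Φ u i) : V k) v : ℝ) = ∑ i, Φ u i * v i := by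
      rw [PiLp.inner_apply]
      refine Finset.sum_congr rfl fun i _ => ?_
      simp [mul_comm]
    have h5 : (inner ℝ u v : ℝ) = ∑ i, u i * v i := by
      rw [PiLp.inner_apply]
      refine Finset.sum_congr rfl fun i _ => ?_
      simp [mul_comm]
    rw [h4]
    have h6 : ∑ m, R1 P c (fun i => u i) m * u m = (d : ℝ) * R0 P c (fun i => u i) := by
      rw [← hE1 u]
      exact Finset.sum_congr rfl fun m _ => mul_comm _ _
    simp only [_root_.add_apply, _root_.smul_apply,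
      _root_.sub_apply, innerSL_apply_apply, smul_eq_mul,
      _root_.sum_apply, Grd_p]
    rw [h6, h5]
    simp only [hΦ, add_mul, Finset.sum_add_distrib]
    have h7 : ∑ i, (1 - (d : ℝ)) * (R0 P c (fun i => u i) * u i) * v i =
        (1 - (d : ℝ)) * R0 P c (fun i => u i) * ∑ i, u i * v i := by
      rw [Finset.mul_sum]
      exact Finset.sum_congr rfl fun i _ => by ring
    rw [h7]
    ring
  · intro y hy
    exact (hGdiff y hy).hasFDerivAt
  · intro y hy i j
    have h1 : HasFDerivAt (fun y' : V k => G y' i)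
        ((EuclideanSpace.proj i : V k →L[ℝ] ℝ).comp (fderiv ℝ G y)) y :=
      (EuclideanSpace.proj i : V k →L[ℝ] ℝ).hasFDerivAt.comp y (hGdiff y hy).hasFDerivAt
    have h2 := h1.unique (hGd y hy i)
    have h3 := congrArg (fun L : V k →L[ℝ] ℝ => L (EuclideanSpace.single j 1)) h2
    have h4 : (fderiv ℝ G y (EuclideanSpace.single j 1)) i =
      ((EuclideanSpace.proj i : V k →L[ℝ] ℝ).comp (fderiv ℝ G y)) (EuclideanSpace.single j 1) := rfl
    rw [h4]
    refine h3.trans ?_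
    set u : V k := ‖y‖⁻¹ • y with hu
    have h5 : ∀ m, hat y m = u m := fun m => rfl
    have h5' : hat y = fun i => u i := rfl
    have h6 : (inner ℝ u (EuclideanSpace.single j (1 : ℝ)) : ℝ) = u j := by
      rw [EuclideanSpace.inner_single_right]
      simp
    have h7 : ∑ m, R1 P c (fun i => u i) m * u m = (d : ℝ) * R0 P c (fun i => u i) := by
      rw [← hE1 u]
      exact Finset.sum_congr rfl fun m _ => mul_comm _ _
    have h8 : ∑ m, R2 P c (fun i => u i) i m * u m = ((d : ℝ) - 1) * R1 P c (fun i => u i) i := by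
      rw [← hE2 u i]
      exact Finset.sum_congr rfl fun m _ => mul_comm _ _
    have h9 : ∀ f : Fin (k + 2) → ℝ, ∑ m, f m * (EuclideanSpace.single j (1 : ℝ) : V k) m = f j := by
      intro f
      simp
    have h10 : ∀ m, (EuclideanSpace.single j (1 : ℝ) : V k) m = if m = j then 1 else 0 := by
      intro m
      simp
    simp only [_root_.add_apply, _root_.smul_apply,
      _root_.sub_apply, innerSL_apply_apply, smul_eq_mul,
      _root_.sum_apply, Grd_p]
    rw [h9, h9, h7, h8, h6, h10, h5']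
    unfold Mat
    simp only [hΦ]
    by_cases hij : i = j
    · subst hij
      simp only [if_true]
      ring
    · simp only [hij, if_false]
      ring

end Pool.Helper51.PSB
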