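import Pool.Agent.Helper51.PSB.St

/-!
# Project PSB (MP_26ac92_gt): homogeneity of the matrices `Mat`
-/

set_option autoImplicit false

namespace Pool.Helper51.PSB

section
variable {A : Type} [CommRing A] [Algebra ℝ A] {p q : ℕ}

private theorem Homog_aeval {e : ℕ} {Q : MvPolynomial (Fin p) ℝ} (hQ : Q.IsHomogeneous e) (z : A)
    (x : Fin p → A) :
    MvPolynomial.aeval (fun l => z * x l) Q = z ^ e * MvPolynomial.aeval x Q := by
  rw [MvPolynomial.aeval_def, MvPolynomial.aeval_def, MvPolynomial.eval₂_eq', MvPolynomial.eval₂_eq',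
    Finset.mul_sum]
  refine Finset.sum_congr rfl fun m hm => ?_
  have h1 := hQ (MvPolynomial.mem_support_iff.1 hm)
  have h2 : ∑ l, m l = e := by
    rw [← h1, Finsupp.weight_apply, Finsupp.sum_fintype _ _ (by simp)]
    simp
  simp only [mul_pow, Finset.prod_mul_distrib, Finset.prod_pow_eq_pow_sum, h2]
  ring

private theorem Homog_R0 {e : ℕ} {Q : MvPolynomial (Fin p) ℝ} (hQ : Q.IsHomogeneous e) (z : A)
    (c : Fin q → Fin p → A) (s : Fin q → A) :
    R0 Q (fun i l => z * c i l) s = z ^ e * R0 Q c s := by
  unfold R0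
  rw [← Homog_aeval hQ]
  congr 2
  funext l
  rw [Finset.mul_sum]
  refine Finset.sum_congr rfl fun i _ => ?_
  ring

private theorem Homog_neg {e : ℕ} {Q : MvPolynomial (Fin p) ℝ} (hQ : Q.IsHomogeneous e)
    (c : Fin q → Fin p → A) (s : Fin q → A) :
    R0 Q c (fun i => - s i) = (-1) ^ e * R0 Q c s := by
  unfold R0
  rw [← Homog_aeval hQ]
  congr 2
  funext l
  rw [Finset.mul_sum]
  refine Finset.sum_congr rfl fun i _ => ?_
  ring

private theorem Homog_zero {Q : MvPolynomial (Fin p) ℝ} (hQ : Q.IsHomogeneous 0) (l : Fin p) :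
    MvPolynomial.pderiv l Q = 0 := by
  have h := MvPolynomial.totalDegree_eq_zero_iff_eq_C.1 ((MvPolynomial.totalDegree_zero_iff_isHomogeneous
    (p := Q)).2 hQ)
  rw [h, MvPolynomial.pderiv_C]

private theorem Homog_R0z (c : Fin q → Fin p → A) (s : Fin q → A) :
    R0 (0 : MvPolynomial (Fin p) ℝ) c s = 0 := by
  unfold R0
  exact map_zero _

private theorem Homog_d1 {e : ℕ} {Q : MvPolynomial (Fin p) ℝ} (hQ : Q.IsHomogeneous e) (z : A)
    (c : Fin q → Fin p → A) (s : Fin q → A) (l : Fin p) :
    z * R0 (MvPolynomial.pderiv l Q) (fun i l => z * c i l) s =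
      z ^ e * R0 (MvPolynomial.pderiv l Q) c s := by
  cases e with
  | zero => rw [Homog_zero hQ, Homog_R0z, Homog_R0z, mul_zero, mul_zero]
  | succ e =>
    have h : (MvPolynomial.pderiv l Q).IsHomogeneous e := hQ.pderiv
    rw [Homog_R0 h, pow_succ]
    ring

private theorem Homog_d2 {e : ℕ} {Q : MvPolynomial (Fin p) ℝ} (hQ : Q.IsHomogeneous e) (z : A)
    (c : Fin q → Fin p → A) (s : Fin q → A) (l l' : Fin p) :
    z * z * R0 (MvPolynomial.pderiv l' (MvPolynomial.pderiv l Q)) (fun i l => z * c i l) s =
      z ^ e * R0 (MvPolynomial.pderiv l' (MvPolynomial.pderiv l Q)) c s := by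
  cases e with
  | zero => rw [Homog_zero hQ, map_zero, Homog_R0z, Homog_R0z, mul_zero, mul_zero]
  | succ e =>
    have h : (MvPolynomial.pderiv l Q).IsHomogeneous e := hQ.pderiv
    rw [mul_assoc, Homog_d1 h, pow_succ]
    ring

end

theorem pHomog : StHomog := by
  intro A _ _ p q d P hP c s i j
  constructor
  · intro z
    have h0 := Homog_R0 hP z c s
    have h1 : ∀ i, R1 P (fun i l => z * c i l) s i = z ^ d * R1 P c s i := by
      intro i
      unfold R1
      rw [Finset.mul_sum]
      refine Finset.sum_congr rfl fun l _ => ?_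
      have := Homog_d1 hP z c s l
      linear_combination c i l * this
    have h2 : R2 P (fun i l => z * c i l) s i j = z ^ d * R2 P c s i j := by
      unfold R2
      rw [Finset.mul_sum]
      refine Finset.sum_congr rfl fun l _ => ?_
      rw [Finset.mul_sum]
      refine Finset.sum_congr rfl fun l' _ => ?_
      have := Homog_d2 hP z c s l l'
      linear_combination c i l * c j l' * this
    unfold Mat
    rw [h0, h1, h1, h2]
    split_ifs <;> ring
  · intro hd
    have h0 : R0 P c (fun i => - s i) = - R0 P c s := by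
      rw [Homog_neg hP, hd.neg_one_pow]
      ring
    obtain ⟨m, rfl⟩ := hd
    have hl : ∀ l, (MvPolynomial.pderiv l P).IsHomogeneous (2 * m) := fun l => by
      have := hP.pderiv (i := l)
      simpa using this
    have h1 : ∀ i, R1 P c (fun i => - s i) i = R1 P c s i := by
      intro i
      unfold R1
      refine Finset.sum_congr rfl fun l _ => ?_
      rw [Homog_neg (hl l), pow_mul]
      simp
    have h2 : R2 P c (fun i => - s i) i j = - R2 P c s i j := by
      unfold R2
      rw [← Finset.sum_neg_distrib]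
      refine Finset.sum_congr rfl fun l _ => ?_
      rw [← Finset.sum_neg_distrib]
      refine Finset.sum_congr rfl fun l' _ => ?_
      cases m with
      | zero =>
        rw [Homog_zero (by simpa using hl l), Homog_R0z, Homog_R0z]
        ring
      | succ m =>
        have h3 : (MvPolynomial.pderiv l' (MvPolynomial.pderiv l P)).IsHomogeneous (2 * m + 1) := by
          have := (hl l).pderiv (i := l')
          simpa [Nat.mul_succ] using this
        rw [Homog_neg h3, (show Odd (2 * m + 1) from ⟨m, rfl⟩).neg_one_pow]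
        ring
    unfold Mat
    rw [h0, h1, h1, h2]
    split_ifs <;> ring

end Pool.Helper51.PSB
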