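import Pool.Agent.Helper51.PSB.St

/-!
# Module Int of project PSB (MP_26ac92_gt)
-/

set_option autoImplicit false

namespace Pool.Helper51.PSB

open MeasureTheory Filter Topology

private lemma Int_abs {k : ℕ} (y : V k) (i : Fin (k + 2)) : |hat y i| ≤ 1 := by
  unfold hat
  rw [abs_mul, abs_inv, abs_norm]
  have h1 : |y i| ≤ ‖y‖ := by
    have := PiLp.norm_apply_le y i
    rwa [Real.norm_eq_abs] at this
  rcases eq_or_lt_of_le (norm_nonneg y) with h | h
  · rw [← h]; simp
  · rw [inv_mul_le_iff₀ h, mul_one]; exact h1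

private lemma Int_meas {k : ℕ} (i : Fin (k + 2)) : Measurable (fun y : V k => hat y i) := by
  unfold hat
  fun_prop

private lemma Int_integrable {k : ℕ} (μ : Measure (V k)) [μ.IsAddHaarMeasure] (i j : Fin (k + 2)) (a b : ℕ) :
    IntegrableOn (fun y : V k => hat y i ^ a * hat y j ^ b) (Metric.ball 0 1) μ := by
  refine Measure.integrableOn_of_bounded (M := 1) measure_ball_lt_top.ne ?_ ?_
  · exact (((Int_meas i).pow_const a).mul ((Int_meas j).pow_const b)).aestronglyMeasurable
  · refine Eventually.of_forall fun y => ?_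
    rw [norm_mul, norm_pow, norm_pow, Real.norm_eq_abs, Real.norm_eq_abs]
    exact mul_le_one₀ (pow_le_one₀ (abs_nonneg _) (Int_abs y i)) (by positivity)
      (pow_le_one₀ (abs_nonneg _) (Int_abs y j))

private lemma Int_mp {k : ℕ} (μ : Measure (V k)) [μ.IsAddHaarMeasure] (f : V k ≃ₗᵢ[ℝ] V k) :
    MeasurePreserving f μ μ := by
  have h := Measure.isAddLeftInvariant_eq_smul μ (volume : Measure (V k))
  rw [h]
  exact (LinearIsometryEquiv.measurePreserving f).smul_measure _

/-- `‖y‖⁻¹ ⟪y, w⟫` -/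
private noncomputable def Int_f {k : ℕ} (w y : V k) : ℝ := ‖y‖⁻¹ * inner ℝ y w

private lemma Int_rot {k : ℕ} (μ : Measure (V k)) [μ.IsAddHaarMeasure] (N : ℕ) (w w' : V k) (h : ‖w‖ = ‖w'‖) :
    ∫ y in Metric.ball 0 1, Int_f w y ^ N ∂μ = ∫ y in Metric.ball 0 1, Int_f w' y ^ N ∂μ := by
  let ρ : V k ≃ₗᵢ[ℝ] V k := (ℝ ∙ (w - w'))ᗮ.reflection
  have hρ : ρ w = w' := Submodule.reflection_sub h
  have h1 := (Int_mp μ ρ).setIntegral_preimage_emb ρ.toHomeomorph.measurableEmbedding
    (fun y => Int_f w' y ^ N) (Metric.ball 0 1)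
  rw [LinearIsometryEquiv.preimage_ball, map_zero] at h1
  rw [← h1]
  refine integral_congr_ae (Eventually.of_forall fun y => ?_)
  simp only [Int_f]
  rw [← hρ, LinearIsometryEquiv.norm_map, LinearIsometryEquiv.inner_map_map]

private lemma Int_key {k : ℕ} (μ : Measure (V k)) [μ.IsAddHaarMeasure] (m : ℕ) (i : Fin (k + 2)) (hi : i ≠ 0)
    (x : ℝ) :
    ∫ y in Metric.ball 0 1, (hat y 0 + x * hat y i) ^ (2 * m) ∂μ =
      (1 + x ^ 2) ^ m * ∫ y in Metric.ball 0 1, hat y 0 ^ (2 * m) ∂μ := by
  have e0 : ‖(EuclideanSpace.single (0 : Fin (k + 2)) (1 : ℝ) : V k)‖ = 1 := by simp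
  let v : V k := EuclideanSpace.single 0 1 + x • EuclideanSpace.single i 1
  have hv : ‖v‖ ^ 2 = 1 + x ^ 2 := by
    have h0 : (inner ℝ (EuclideanSpace.single (0 : Fin (k + 2)) (1 : ℝ) : V k)
        (x • EuclideanSpace.single i (1 : ℝ)) : ℝ) = 0 := by
      rw [inner_smul_right, EuclideanSpace.inner_single_left]
      simp [hi.symm]
    have := norm_add_sq_real (EuclideanSpace.single (0 : Fin (k + 2)) (1 : ℝ) : V k)
      (x • EuclideanSpace.single i (1 : ℝ))
    rw [h0] at this
    show ‖(EuclideanSpace.single (0 : Fin (k + 2)) (1 : ℝ) : V k) + x • EuclideanSpace.single i (1 : ℝ)‖ ^ 2 = _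
    rw [this, norm_smul]
    simp
  have hn : ‖v‖ = ‖(‖v‖ • EuclideanSpace.single (0 : Fin (k + 2)) (1 : ℝ) : V k)‖ := by
    rw [norm_smul, e0, norm_norm, mul_one]
  have h := Int_rot μ (2 * m) v (‖v‖ • EuclideanSpace.single 0 1) hn
  have hL : ∀ y : V k, Int_f v y = hat y 0 + x * hat y i := by
    intro y
    simp only [Int_f, v, hat, inner_add_right, inner_smul_right, EuclideanSpace.inner_single_right]
    simp
    ring
  have hR : ∀ y : V k, Int_f (‖v‖ • EuclideanSpace.single 0 1) y = ‖v‖ * hat y 0 := by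
    intro y
    simp only [Int_f, hat, inner_smul_right, EuclideanSpace.inner_single_right]
    simp
    ring
  simp only [hL, hR] at h
  rw [h, ← hv, ← integral_const_mul]
  refine integral_congr_ae (Eventually.of_forall fun y => ?_)
  simp only
  rw [mul_pow, pow_mul]

private lemma Int_coef {k : ℕ} (μ : Measure (V k)) [μ.IsAddHaarMeasure] (m : ℕ) (hm : 1 ≤ m) (i : Fin (k + 2))
    (hi : i ≠ 0) :
    (2 * (m : ℝ) - 1) * ∫ y in Metric.ball 0 1, hat y 0 ^ (2 * m - 2) * hat y i ^ 2 ∂μ =
      ∫ y in Metric.ball 0 1, hat y 0 ^ (2 * m) ∂μ := by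
  set I : ℝ := ∫ y in Metric.ball 0 1, hat y 0 ^ (2 * m) ∂μ with hI
  let P : Polynomial ℝ := ∑ j ∈ Finset.range (2 * m + 1), Polynomial.C (((2 * m).choose j : ℝ) *
    ∫ y in Metric.ball 0 1, hat y 0 ^ (2 * m - j) * hat y i ^ j ∂μ) * Polynomial.X ^ j
  let Q : Polynomial ℝ := Polynomial.C I * Polynomial.expand ℝ 2 ((1 + Polynomial.X) ^ m)
  have hPQ : P = Q := by
    refine Polynomial.funext fun x => ?_
    have h := Int_key μ m i hi x
    have e1 : P.eval x = ∫ y in Metric.ball 0 1, (hat y 0 + x * hat y i) ^ (2 * m) ∂μ := by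
      have : ∀ y : V k, (hat y 0 + x * hat y i) ^ (2 * m) =
          ∑ j ∈ Finset.range (2 * m + 1), (((2 * m).choose j : ℝ) * x ^ j) *
            (hat y 0 ^ (2 * m - j) * hat y i ^ j) := by
        intro y
        rw [add_comm, add_pow]
        refine Finset.sum_congr rfl fun j _ => ?_
        rw [mul_pow]; ring
      simp only [this]
      rw [integral_finsetSum]
      · simp only [P, Polynomial.eval_finsetSum, Polynomial.eval_mul, Polynomial.eval_C,
          Polynomial.eval_pow, Polynomial.eval_X]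
        refine Finset.sum_congr rfl fun j _ => ?_
        rw [integral_const_mul]; ring
      · intro j _
        exact (Int_integrable μ 0 i (2 * m - j) j).const_mul _
    have e2 : Q.eval x = (1 + x ^ 2) ^ m * I := by
      simp only [Q, Polynomial.eval_mul, Polynomial.eval_C, Polynomial.expand_eval, Polynomial.eval_pow,
        Polynomial.eval_add, Polynomial.eval_one, Polynomial.eval_X]
      ring
    rw [e1, e2, h]
  have hc : P.coeff 2 = Q.coeff 2 := by rw [hPQ]
  have hcP : P.coeff 2 = ((2 * m).choose 2 : ℝ) *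
      ∫ y in Metric.ball 0 1, hat y 0 ^ (2 * m - 2) * hat y i ^ 2 ∂μ := by
    simp only [P, Polynomial.finsetSum_coeff, Polynomial.coeff_C_mul, Polynomial.coeff_X_pow]
    rw [Finset.sum_eq_single 2]
    · simp
    · intro j _ hj
      rw [if_neg (Ne.symm hj), mul_zero]
    · intro h
      exfalso; apply h
      rw [Finset.mem_range]; omega
  have hcQ : Q.coeff 2 = I * (m : ℝ) := by
    have := Polynomial.coeff_expand_mul (p := 2) (by norm_num) ((1 + Polynomial.X) ^ m : Polynomial ℝ) 1
    rw [one_mul] at this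
    simp only [Q, Polynomial.coeff_C_mul]
    rw [this, Polynomial.coeff_one_add_X_pow, Nat.choose_one_right]
  rw [hcP, hcQ] at hc
  have hch : (((2 * m).choose 2 : ℕ) : ℝ) = (m : ℝ) * (2 * m - 1) := by
    rw [Nat.cast_choose_two]
    push_cast
    ring
  rw [hch] at hc
  have hm0 : (m : ℝ) ≠ 0 := by positivity
  have : (m : ℝ) * ((2 * (m : ℝ) - 1) * ∫ y in Metric.ball 0 1, hat y 0 ^ (2 * m - 2) * hat y i ^ 2 ∂μ) = m * I := by
    rw [← mul_assoc, hc]; ring
  exact mul_left_cancel₀ hm0 this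

private lemma Int_sum {k : ℕ} {y : V k} (hy : y ≠ 0) : ∑ i, hat y i ^ 2 = 1 := by
  unfold hat
  simp only [mul_pow]
  rw [← Finset.mul_sum]
  have h := EuclideanSpace.real_norm_sq_eq y
  rw [← h, ← mul_pow, inv_mul_cancel₀ (norm_ne_zero_iff.mpr hy), one_pow]

theorem pInt : StInt := by
  intro k N μ hμ hN hN2
  obtain ⟨m, hm⟩ := hN
  have hm' : N = 2 * m := by omega
  subst hm'
  have hm1 : 1 ≤ m := by omega
  constructor
  · rw [setIntegral_pos_iff_support_of_nonneg_ae]
    · have hop : IsOpen ({y : V k | 0 < y 0} ∩ Metric.ball 0 1) := by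
        apply IsOpen.inter _ Metric.isOpen_ball
        exact isOpen_lt continuous_const (by fun_prop)
      have hne : ({y : V k | 0 < y 0} ∩ Metric.ball 0 1).Nonempty := by
        refine ⟨EuclideanSpace.single 0 (1 / 2), ?_, ?_⟩
        · simp
        · rw [Metric.mem_ball, dist_zero_right]
          simp
          norm_num
      refine lt_of_lt_of_le (hop.measure_pos μ hne) (measure_mono ?_)
      rintro y ⟨hy, hyb⟩
      refine ⟨?_, hyb⟩
      rw [Function.mem_support]
      apply pow_ne_zero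
      have hy0 : (0 : ℝ) < y 0 := hy
      have hyy : y ≠ 0 := by
        rintro rfl
        simp at hy0
      exact (mul_pos (inv_pos.mpr (norm_pos_iff.mpr hyy)) hy0).ne'
    · refine Eventually.of_forall fun y => ?_
      show (0 : ℝ) ≤ hat y 0 ^ (2 * m)
      rw [pow_mul]
      exact pow_nonneg (sq_nonneg _) _
    · have := Int_integrable μ 0 0 (2 * m) 0
      simpa using this
  · have hsum : ∫ y in Metric.ball 0 1, hat y 0 ^ (2 * m - 2) ∂μ - ∫ y in Metric.ball 0 1, hat y 0 ^ (2 * m) ∂μ =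
        ∑ i : Fin (k + 1), ∫ y in Metric.ball 0 1, hat y 0 ^ (2 * m - 2) * hat y i.succ ^ 2 ∂μ := by
      rw [← integral_finsetSum]
      · rw [← integral_sub]
        · refine integral_congr_ae (ae_restrict_of_ae ?_)
          filter_upwards [Measure.ae_ne μ (0 : V k)] with y hy
          have h := Int_sum hy
          rw [Fin.sum_univ_succ] at h
          rw [← Finset.mul_sum]
          have h2 : ∑ i : Fin (k + 1), hat y i.succ ^ 2 = 1 - hat y 0 ^ 2 := by linarith
          rw [h2, mul_sub, mul_one, ← pow_add]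
          congr 2
          omega
        · have h := Int_integrable μ 0 0 (2 * m - 2) 0
          simp only [pow_zero, mul_one] at h
          exact h
        · have h := Int_integrable μ 0 0 (2 * m) 0
          simp only [pow_zero, mul_one] at h
          exact h
      · intro i _
        exact Int_integrable μ 0 i.succ (2 * m - 2) 2
    have hcoef : ∀ i : Fin (k + 1), (2 * (m : ℝ) - 1) *
        ∫ y in Metric.ball 0 1, hat y 0 ^ (2 * m - 2) * hat y i.succ ^ 2 ∂μ =
        ∫ y in Metric.ball 0 1, hat y 0 ^ (2 * m) ∂μ := fun i => Int_coef μ m hm1 i.succ (Fin.succ_ne_zero i)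
    have h3 := congrArg (fun t : ℝ => (2 * (m : ℝ) - 1) * t) hsum
    simp only [Finset.mul_sum, hcoef, Finset.sum_const, Finset.card_univ, Fintype.card_fin, nsmul_eq_mul] at h3
    push_cast at h3 ⊢
    linarith

end Pool.Helper51.PSB
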