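import Pool.Agent.Helper51.PSB.St

/-!
# Project PSB (MP_26ac92_gt): module Map
-/

set_option autoImplicit false

namespace Pool.Helper51.PSB

private theorem Map_R0 (A B : Type) [CommRing A] [CommRing B] [Algebra ℝ A] [Algebra ℝ B] (f : A →ₐ[ℝ] B) (p q : ℕ)
    (P : MvPolynomial (Fin p) ℝ) (c : Fin q → Fin p → A) (s : Fin q → A) :
    f (R0 P c s) = R0 P (fun i l => f (c i l)) (fun i => f (s i)) := by
  unfold R0
  rw [MvPolynomial.comp_aeval_apply]
  simp only [map_sum, map_mul]

private theorem Map_R1 (A B : Type) [CommRing A] [CommRing B] [Algebra ℝ A] [Algebra ℝ B] (f : A →ₐ[ℝ] B) (p q : ℕ)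
    (P : MvPolynomial (Fin p) ℝ) (c : Fin q → Fin p → A) (s : Fin q → A) (i : Fin q) :
    f (R1 P c s i) = R1 P (fun i l => f (c i l)) (fun i => f (s i)) i := by
  unfold R1
  rw [map_sum]
  refine Finset.sum_congr rfl (fun l _ => ?_)
  rw [map_mul, Map_R0]

private theorem Map_R2 (A B : Type) [CommRing A] [CommRing B] [Algebra ℝ A] [Algebra ℝ B] (f : A →ₐ[ℝ] B) (p q : ℕ)
    (P : MvPolynomial (Fin p) ℝ) (c : Fin q → Fin p → A) (s : Fin q → A) (i j : Fin q) :
    f (R2 P c s i j) = R2 P (fun i l => f (c i l)) (fun i => f (s i)) i j := by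
  unfold R2
  rw [map_sum]
  refine Finset.sum_congr rfl (fun l _ => ?_)
  rw [map_sum]
  refine Finset.sum_congr rfl (fun l' _ => ?_)
  rw [map_mul, map_mul, Map_R0]

/-- Ring homomorphisms commute with `Mat`. -/
theorem pMap : StMap := by
  intro A B _ _ _ _ f p q d P c s i j
  unfold Mat
  simp only [map_add, map_mul, map_sub, map_one, map_natCast, map_ofNat, Map_R0, Map_R1, Map_R2,
    apply_ite f, map_zero]

end Pool.Helper51.PSB
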