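import Pool.Agent.Helper51.PSB.St

/-! # Project PSB, module Min -/

set_option autoImplicit false

namespace Pool.Helper51.PSB

open MvPolynomial

/-- the conditions without minimality -/
private def Min_E (k : ℕ) (p : MvPolynomial (Fin (k + 3)) ℝ) (a b : ℕ) (P Q : MvPolynomial (Fin (k + 3)) ℝ) : Prop :=
  Odd a ∧ Even b ∧ P.IsHomogeneous a ∧ Q.IsHomogeneous b ∧
  (∀ u : Fin (k + 3) → ℝ, ∑ l, u l ^ 2 = 1 → MvPolynomial.eval u p = MvPolynomial.eval u P + MvPolynomial.eval u Q)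

private theorem Min_qfh (k : ℕ) : (qf k).IsHomogeneous 2 := by
  unfold qf
  refine MvPolynomial.IsHomogeneous.sum _ _ _ (fun l _ => ?_)
  exact MvPolynomial.isHomogeneous_X_pow l 2

private theorem Min_qfe (k : ℕ) (u : Fin (k + 3) → ℝ) (hu : ∑ l, u l ^ 2 = 1) : MvPolynomial.eval u (qf k) = 1 := by
  unfold qf
  rw [map_sum]
  simp only [map_pow, eval_X]
  exact hu

private theorem Min_hom (k n : ℕ) (p : MvPolynomial (Fin (k + 3)) ℝ) (hp : p.IsHomogeneous n) :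
    ∃ (a b : ℕ) (P Q : MvPolynomial (Fin (k + 3)) ℝ), Min_E k p a b P Q := by
  rcases Nat.even_or_odd n with h | h
  · refine ⟨1, n, 0, p, odd_one, h, MvPolynomial.isHomogeneous_zero _ _ _, hp, fun u _ => ?_⟩
    rw [map_zero, zero_add]
  · refine ⟨n, 0, p, 0, h, Even.zero, hp, MvPolynomial.isHomogeneous_zero _ _ _, fun u _ => ?_⟩
    rw [map_zero, add_zero]

/-- equal degrees -/
private theorem Min_up (k a i : ℕ) (P : MvPolynomial (Fin (k + 3)) ℝ) (hP : P.IsHomogeneous a) :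
    (qf k ^ i * P).IsHomogeneous (a + 2 * i) ∧
    ∀ u : Fin (k + 3) → ℝ, ∑ l, u l ^ 2 = 1 → MvPolynomial.eval u (qf k ^ i * P) = MvPolynomial.eval u P := by
  constructor
  · have h := (MvPolynomial.IsHomogeneous.pow (Min_qfh k) i).mul hP
    have e : 2 * i + a = a + 2 * i := by ring
    rwa [e] at h
  · intro u hu
    rw [map_mul, map_pow, Min_qfe k u hu, one_pow, one_mul]

private theorem Min_lvl (a a' : ℕ) (h : (Odd a ∧ Odd a') ∨ (Even a ∧ Even a')) :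
    ∃ c i i' : ℕ, a + 2 * i = c ∧ a' + 2 * i' = c := by
  rcases le_total a a' with h1 | h1
  · obtain ⟨j, hj⟩ : ∃ j, a' = a + 2 * j := by
      rcases h with ⟨⟨x, hx⟩, ⟨y, hy⟩⟩ | ⟨⟨x, hx⟩, ⟨y, hy⟩⟩
      · exact ⟨y - x, by omega⟩
      · exact ⟨y - x, by omega⟩
    exact ⟨a', j, 0, by omega, by omega⟩
  · obtain ⟨j, hj⟩ : ∃ j, a = a' + 2 * j := by
      rcases h with ⟨⟨x, hx⟩, ⟨y, hy⟩⟩ | ⟨⟨x, hx⟩, ⟨y, hy⟩⟩
      · exact ⟨x - y, by omega⟩
      · exact ⟨x - y, by omega⟩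
    exact ⟨a, 0, j, by omega, by omega⟩

private theorem Min_add (k : ℕ) (p q : MvPolynomial (Fin (k + 3)) ℝ)
    (hp : ∃ (a b : ℕ) (P Q : MvPolynomial (Fin (k + 3)) ℝ), Min_E k p a b P Q)
    (hq : ∃ (a b : ℕ) (P Q : MvPolynomial (Fin (k + 3)) ℝ), Min_E k q a b P Q) :
    ∃ (a b : ℕ) (P Q : MvPolynomial (Fin (k + 3)) ℝ), Min_E k (p + q) a b P Q := by
  obtain ⟨a, b, P, Q, ha, hb, hP, hQ, he⟩ := hp
  obtain ⟨a', b', P', Q', ha', hb', hP', hQ', he'⟩ := hq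
  obtain ⟨c, i, i', hi, hi'⟩ := Min_lvl a a' (Or.inl ⟨ha, ha'⟩)
  obtain ⟨d, j, j', hj, hj'⟩ := Min_lvl b b' (Or.inr ⟨hb, hb'⟩)
  obtain ⟨u1, u2⟩ := Min_up k a i P hP
  obtain ⟨v1, v2⟩ := Min_up k a' i' P' hP'
  obtain ⟨x1, x2⟩ := Min_up k b j Q hQ
  obtain ⟨y1, y2⟩ := Min_up k b' j' Q' hQ'
  rw [hi] at u1
  rw [hi'] at v1
  rw [hj] at x1
  rw [hj'] at y1
  refine ⟨c, d, qf k ^ i * P + qf k ^ i' * P', qf k ^ j * Q + qf k ^ j' * Q', ?_, ?_, u1.add v1, x1.add y1, ?_⟩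
  · obtain ⟨t, ht⟩ := ha
    exact ⟨t + i, by omega⟩
  · obtain ⟨t, ht⟩ := hb
    exact ⟨t + j, by omega⟩
  · intro u hu
    rw [map_add, map_add, map_add, u2 u hu, v2 u hu, x2 u hu, y2 u hu, he u hu, he' u hu]
    ring

private theorem Min_ex (k : ℕ) (p : MvPolynomial (Fin (k + 3)) ℝ) :
    ∃ (a b : ℕ) (P Q : MvPolynomial (Fin (k + 3)) ℝ), Min_E k p a b P Q := by
  rw [← MvPolynomial.sum_homogeneousComponent p]
  refine Finset.sum_induction _ (fun p => ∃ (a b : ℕ) (P Q : MvPolynomial (Fin (k + 3)) ℝ), Min_E k p a b P Q)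
    (fun x y hx hy => Min_add k x y hx hy) (Min_hom k 0 0 (MvPolynomial.isHomogeneous_zero _ _ _)) (fun i _ => ?_)
  exact Min_hom k i _ (MvPolynomial.homogeneousComponent_isHomogeneous i p)

/-- division of a homogeneous polynomial by `qf` -/
private theorem Min_div (k a : ℕ) (P : MvPolynomial (Fin (k + 3)) ℝ) (hP : P.IsHomogeneous a) (ha : 2 ≤ a)
    (hd : qf k ∣ P) : ∃ P' : MvPolynomial (Fin (k + 3)) ℝ, P'.IsHomogeneous (a - 2) ∧ P = qf k * P' := by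
  obtain ⟨R, hR⟩ := hd
  refine ⟨homogeneousComponent (a - 2) R, homogeneousComponent_isHomogeneous _ _, ?_⟩
  have h1 : homogeneousComponent a P = P := homogeneousComponent_eq_self hP
  have h2 : homogeneousComponent a (qf k * R) = qf k * homogeneousComponent (a - 2) R := by
    have e : qf k * R = ∑ i ∈ Finset.range (R.totalDegree + 1), qf k * homogeneousComponent i R := by
      rw [← Finset.mul_sum, sum_homogeneousComponent]
    have f : ∀ i : ℕ, homogeneousComponent a (qf k * homogeneousComponent i R) =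
        if i = a - 2 then qf k * homogeneousComponent (a - 2) R else 0 := by
      intro i
      have h3 : (qf k * homogeneousComponent i R).IsHomogeneous (2 + i) :=
        (Min_qfh k).mul (homogeneousComponent_isHomogeneous i R)
      rw [homogeneousComponent_of_mem h3]
      by_cases hi : i = a - 2
      · rw [if_pos hi, if_pos (by omega), hi]
      · rw [if_neg hi, if_neg (by omega)]
    rw [e, map_sum, Finset.sum_congr rfl (fun i _ => f i), Finset.sum_ite_eq']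
    split_ifs with h4
    · rfl
    · rw [Finset.mem_range, not_lt] at h4
      rw [homogeneousComponent_eq_zero _ _ (by omega), mul_zero]
  rw [← hR, h1] at h2
  exact h2

private theorem Min_step (k : ℕ) (p : MvPolynomial (Fin (k + 3)) ℝ) : ∀ (n a b : ℕ) (P Q : MvPolynomial (Fin (k + 3)) ℝ),
    a + b ≤ n → Min_E k p a b P Q → ∃ (a b : ℕ) (P Q : MvPolynomial (Fin (k + 3)) ℝ), Min_E k p a b P Q ∧
      (3 ≤ a → ¬ qf k ∣ P) ∧ (2 ≤ b → ¬ qf k ∣ Q) := by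
  intro n
  induction n with
  | zero =>
    intro a b P Q hn hE
    exact ⟨a, b, P, Q, hE, fun h => by omega, fun h => by omega⟩
  | succ n ih =>
    intro a b P Q hn hE
    by_cases h1 : 3 ≤ a ∧ qf k ∣ P
    · obtain ⟨ha, hb, hP, hQ, he⟩ := hE
      obtain ⟨P', hP', hPe⟩ := Min_div k a P hP (by omega) h1.2
      refine ih (a - 2) b P' Q (by omega) ⟨?_, hb, hP', hQ, fun u hu => ?_⟩
      · obtain ⟨t, ht⟩ := ha
        exact ⟨t - 1, by omega⟩
      · rw [he u hu, hPe, map_mul, Min_qfe k u hu, one_mul]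
    by_cases h2 : 2 ≤ b ∧ qf k ∣ Q
    · obtain ⟨ha, hb, hP, hQ, he⟩ := hE
      obtain ⟨Q', hQ', hQe⟩ := Min_div k b Q hQ h2.1 h2.2
      refine ih a (b - 2) P Q' (by omega) ⟨ha, ?_, hP, hQ', fun u hu => ?_⟩
      · obtain ⟨t, ht⟩ := hb
        exact ⟨t - 1, by omega⟩
      · rw [he u hu, hQe, map_mul, Min_qfe k u hu, one_mul]
    exact ⟨a, b, P, Q, hE, fun h3 h4 => h1 ⟨h3, h4⟩, fun h3 h4 => h2 ⟨h3, h4⟩⟩

theorem pMin : StMin := by
  intro k p
  obtain ⟨a, b, P, Q, hE⟩ := Min_ex k p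
  obtain ⟨a, b, P, Q, ⟨h1, h2, h3, h4, h5⟩, h6, h7⟩ := Min_step k p (a + b) a b P Q le_rfl hE
  exact ⟨a, b, P, Q, h1, h2, h3, h4, h5, h6, h7⟩

end Pool.Helper51.PSB
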