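import Pool.Agent.Helper51.PSB.St

/-! # Project PSB, module PolA: degree and top coefficient of the determinant of a polynomial matrix -/

set_option autoImplicit false

namespace Pool.Helper51.PSB

theorem pPolA : StPolA := by
  intro q D C hC
  constructor
  · rw [Matrix.det_apply]
    refine Polynomial.natDegree_sum_le_of_forall_le _ _ fun σ _ => ?_
    refine le_trans (Polynomial.natDegree_smul_le _ _) ?_
    refine le_trans (Polynomial.natDegree_prod_le _ _) ?_
    refine le_trans (Finset.sum_le_card_nsmul _ _ D fun i _ => hC _ _) ?_
    simp
  · rw [Matrix.det_apply, Matrix.det_apply, Polynomial.finsetSum_coeff]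
    refine Finset.sum_congr rfl fun σ _ => ?_
    have h := Polynomial.coeff_prod_of_natDegree_le (s := Finset.univ)
      (fun i : Fin q => C (σ i) i) D (fun i _ => hC _ _)
    rw [Finset.card_univ, Fintype.card_fin] at h
    rcases Int.units_eq_one_or (Equiv.Perm.sign σ) with hs | hs
    · rw [hs]
      simp only [one_smul, Matrix.of_apply]
      exact h
    · rw [hs]
      simp only [Units.neg_smul, one_smul, Matrix.of_apply, Polynomial.coeff_neg]
      rw [h]

end Pool.Helper51.PSB
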