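import Pool.Agent.Helper51.PSB.St

/-! Project PSB, module PolB: a subleading coefficient of the determinant of a sum. -/

set_option autoImplicit false

namespace Pool.Helper51.PSB

open Polynomial

private lemma PolB_prod {ι : Type} [DecidableEq ι] (D r : ℕ) (hr : 1 ≤ r) (hrD : r ≤ D)
    (a b : ι → ℂ[X]) (ha : ∀ i, (a i).natDegree ≤ D) (hb : ∀ i, (b i).natDegree ≤ D - r)
    (S : Finset ι) (hS : S.Nonempty) :
    (∏ i ∈ S, (a i + b i) - ∏ i ∈ S, a i).natDegree ≤ S.card * D - r ∧
    (∏ i ∈ S, (a i + b i) - ∏ i ∈ S, a i).coeff (S.card * D - r) =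
      ∑ i ∈ S, (b i).coeff (D - r) * ∏ j ∈ S.erase i, (a j).coeff D := by
  have hab : ∀ i, (a i + b i).natDegree ≤ D := fun i =>
    (natDegree_add_le _ _).trans (max_le (ha i) ((hb i).trans (Nat.sub_le _ _)))
  have hbD : ∀ i, (b i).coeff D = 0 := fun i =>
    coeff_eq_zero_of_natDegree_lt (lt_of_le_of_lt (hb i) (by omega))
  induction hS using Finset.Nonempty.cons_induction with
  | singleton i =>
    simp only [Finset.prod_singleton, Finset.card_singleton, one_mul, Finset.sum_singleton,
      Finset.erase_singleton, Finset.prod_empty, mul_one, add_sub_cancel_left]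
    exact ⟨hb i, trivial⟩
  | cons i s hi hs ih =>
    obtain ⟨ih1, ih2⟩ := ih
    have hc : 1 ≤ s.card := Finset.Nonempty.card_pos hs
    have hcD : D ≤ s.card * D := Nat.le_mul_of_pos_left D hc
    have hprod : (∏ j ∈ s, a j).natDegree ≤ s.card * D := by
      refine (natDegree_prod_le _ _).trans ?_
      calc ∑ j ∈ s, (a j).natDegree ≤ ∑ _j ∈ s, D := Finset.sum_le_sum (fun j _ => ha j)
        _ = s.card * D := by simp
    have hdec : (∏ j ∈ Finset.cons i s hi, (a j + b j) - ∏ j ∈ Finset.cons i s hi, a j) =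
        (a i + b i) * (∏ j ∈ s, (a j + b j) - ∏ j ∈ s, a j) + b i * ∏ j ∈ s, a j := by
      rw [Finset.prod_cons, Finset.prod_cons]
      ring
    have hidx : (Finset.cons i s hi).card * D - r = D + (s.card * D - r) := by
      rw [Finset.card_cons, Nat.add_mul, one_mul]
      omega
    have hidx2 : (Finset.cons i s hi).card * D - r = (D - r) + s.card * D := by
      rw [hidx]
      omega
    rw [hdec]
    refine ⟨?_, ?_⟩
    · refine (natDegree_add_le _ _).trans (max_le ?_ ?_)
      · rw [hidx]
        exact natDegree_mul_le.trans (add_le_add (hab i) ih1)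
      · rw [hidx2]
        exact natDegree_mul_le.trans (add_le_add (hb i) hprod)
    · rw [coeff_add]
      have e1 : ((a i + b i) * (∏ j ∈ s, (a j + b j) - ∏ j ∈ s, a j)).coeff
          ((Finset.cons i s hi).card * D - r) = (a i).coeff D *
          ∑ l ∈ s, (b l).coeff (D - r) * ∏ j ∈ s.erase l, (a j).coeff D := by
        rw [hidx, coeff_mul_add_eq_of_natDegree_le (hab i) ih1, ih2, coeff_add, hbD i, add_zero]
      have e2 : (b i * ∏ j ∈ s, a j).coeff ((Finset.cons i s hi).card * D - r) =
          (b i).coeff (D - r) * ∏ j ∈ s, (a j).coeff D := by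
        rw [hidx2, coeff_mul_add_eq_of_natDegree_le (hb i) hprod]
        congr 1
        rw [← smul_eq_mul]
        have := coeff_prod_of_natDegree_le s a D (fun j _ => ha j)
        rw [smul_eq_mul]
        exact this
      rw [e1, e2, Finset.sum_cons, Finset.erase_cons, add_comm, Finset.mul_sum]
      congr 1
      refine Finset.sum_congr rfl (fun l hl => ?_)
      have hil : i ≠ l := fun h => hi (h ▸ hl)
      have : (Finset.cons i s hi).erase l = Finset.cons i (s.erase l)
          (fun h => hi (Finset.mem_of_mem_erase h)) := by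
        ext x
        simp only [Finset.mem_erase, Finset.mem_cons]
        constructor
        · rintro ⟨h1, h2 | h2⟩
          · exact Or.inl h2
          · exact Or.inr ⟨h1, h2⟩
        · rintro (h | ⟨h1, h2⟩)
          · exact ⟨h ▸ hil, Or.inl h⟩
          · exact ⟨h1, Or.inr h2⟩
      rw [this, Finset.prod_cons]
      ring

theorem pPolB : StPolB := by
  intro q D r A B hq hr hrD hA hB
  have key : ∀ σ : Equiv.Perm (Fin q),
      (∏ i, (A (σ i) i + B (σ i) i)).coeff (q * D - r) =
      (∏ i, A (σ i) i).coeff (q * D - r) +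
        ∑ i, (B (σ i) i).coeff (D - r) * ∏ j ∈ Finset.univ.erase i, (A (σ j) j).coeff D := by
    intro σ
    have hne : (Finset.univ : Finset (Fin q)).Nonempty := ⟨⟨0, hq⟩, Finset.mem_univ _⟩
    have h := (PolB_prod D r hr hrD (fun i => A (σ i) i) (fun i => B (σ i) i)
      (fun i => hA _ _) (fun i => hB _ _) Finset.univ hne).2
    rw [Finset.card_univ, Fintype.card_fin, coeff_sub] at h
    exact eq_add_of_sub_eq' h
  have key2 : ∀ (i : Fin q), ((Matrix.of (fun i j => (A i j).coeff D)).updateCol i
      (fun j => (B j i).coeff (D - r))).det = ∑ σ : Equiv.Perm (Fin q),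
      Equiv.Perm.sign σ • ((B (σ i) i).coeff (D - r) *
        ∏ j ∈ Finset.univ.erase i, (A (σ j) j).coeff D) := by
    intro i
    rw [Matrix.det_apply]
    refine Finset.sum_congr rfl (fun σ _ => ?_)
    congr 1
    rw [← Finset.mul_prod_erase Finset.univ _ (Finset.mem_univ i)]
    rw [Matrix.updateCol_apply, if_pos rfl]
    congr 1
    refine Finset.prod_congr rfl (fun j hj => ?_)
    rw [Matrix.updateCol_apply, if_neg (Finset.ne_of_mem_erase hj)]
    rfl
  rw [Finset.sum_congr rfl (fun i _ => key2 i), Finset.sum_comm, Matrix.det_apply, Matrix.det_apply,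
    finsetSum_coeff, finsetSum_coeff, ← Finset.sum_add_distrib]
  refine Finset.sum_congr rfl (fun σ _ => ?_)
  rw [← Finset.smul_sum]
  have hs : ∀ (z : ℤˣ) (p : ℂ[X]) (n : ℕ), (z • p).coeff n = z • p.coeff n := by
    intro z p n
    rw [Units.smul_def, Units.smul_def, coeff_smul]
  rw [hs, hs, ← smul_add]
  congr 1
  simp only [Matrix.add_apply]
  exact key σ

end Pool.Helper51.PSB
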