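import Pool.Agent.Helper51.PSB.St

/-!
# Module Top of project PSB
-/

set_option autoImplicit false

namespace Pool.Helper51.PSB

/-- degree bound and coefficient at that degree -/
private def Top_G (f : Polynomial ℂ) (n : ℕ) (c : ℂ) : Prop := f.natDegree ≤ n ∧ f.coeff n = c

private theorem Top_mul {f g : Polynomial ℂ} {n m : ℕ} {a b : ℂ} (hf : Top_G f n a) (hg : Top_G g m b) :
    Top_G (f * g) (n + m) (a * b) := by
  refine ⟨Polynomial.natDegree_mul_le.trans (add_le_add hf.1 hg.1), ?_⟩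
  rw [Polynomial.coeff_mul_add_eq_of_natDegree_le hf.1 hg.1, hf.2, hg.2]

private theorem Top_add {f g : Polynomial ℂ} {n : ℕ} {a b : ℂ} (hf : Top_G f n a) (hg : Top_G g n b) :
    Top_G (f + g) n (a + b) := by
  refine ⟨(Polynomial.natDegree_add_le _ _).trans (max_le hf.1 hg.1), ?_⟩
  rw [Polynomial.coeff_add, hf.2, hg.2]

private theorem Top_zero (n : ℕ) : Top_G 0 n 0 := by
  simp [Top_G]

private theorem Top_C (a : ℂ) : Top_G (Polynomial.C a) 0 a := by
  simp [Top_G]

private theorem Top_Cmul (c : ℂ) {f : Polynomial ℂ} {n : ℕ} {a : ℂ} (hf : Top_G f n a) :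
    Top_G (Polynomial.C c * f) n (c * a) := by
  have := Top_mul (Top_C c) hf
  rwa [Nat.zero_add] at this

private theorem Top_pow {f : Polynomial ℂ} {n : ℕ} {a : ℂ} (hf : Top_G f n a) (k : ℕ) :
    Top_G (f ^ k) (k * n) (a ^ k) := by
  induction k with
  | zero => simp [Top_G]
  | succ k ih =>
    rw [pow_succ, pow_succ, Nat.succ_mul]
    exact Top_mul ih hf

private theorem Top_sum {ι : Type} (t : Finset ι) (f : ι → Polynomial ℂ) (n : ℕ) (a : ι → ℂ)
    (h : ∀ i ∈ t, Top_G (f i) n (a i)) : Top_G (∑ i ∈ t, f i) n (∑ i ∈ t, a i) := by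
  classical
  induction t using Finset.induction_on with
  | empty => simpa using Top_zero n
  | insert i t hi ih =>
    rw [Finset.sum_insert hi, Finset.sum_insert hi]
    exact Top_add (h i (Finset.mem_insert_self _ _)) (ih (fun j hj => h j (Finset.mem_insert_of_mem hj)))

private theorem Top_prod {ι : Type} (t : Finset ι) (f : ι → Polynomial ℂ) (n : ι → ℕ) (a : ι → ℂ)
    (h : ∀ i ∈ t, Top_G (f i) (n i) (a i)) : Top_G (∏ i ∈ t, f i) (∑ i ∈ t, n i) (∏ i ∈ t, a i) := by
  classical
  induction t using Finset.induction_on with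
  | empty => simp [Top_G]
  | insert i t hi ih =>
    rw [Finset.prod_insert hi, Finset.prod_insert hi, Finset.sum_insert hi]
    exact Top_mul (h i (Finset.mem_insert_self _ _)) (ih (fun j hj => h j (Finset.mem_insert_of_mem hj)))

private theorem Top_frame {k : ℕ} (w : Fin (k + 3) → Fin (k + 3) → ℝ) (i : Fin (k + 2)) (l : Fin (k + 3)) :
    Top_G (frameX w i l) 2 (if i = 0 then nu w l else 0) := by
  unfold frameX
  by_cases hi : i = 0
  · rw [if_pos hi, if_pos hi]
    constructor
    · compute_degree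
    · simp [Polynomial.coeff_add, Polynomial.coeff_C_mul, Polynomial.coeff_X_pow]
  · rw [if_neg hi, if_neg hi]
    constructor
    · refine (Polynomial.natDegree_C_mul_le _ _).trans ?_
      exact Polynomial.natDegree_X_le.trans (by norm_num)
    · rw [Polynomial.coeff_C_mul, Polynomial.coeff_X]
      simp

private theorem Top_coord {k : ℕ} (w : Fin (k + 3) → Fin (k + 3) → ℝ) (s : Fin (k + 2) → ℝ) (l : Fin (k + 3)) :
    Top_G (∑ i, Polynomial.C (s i : ℂ) * frameX w i l) 2 ((s 0 : ℂ) * nu w l) := by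
  have h := Top_sum Finset.univ (fun i : Fin (k + 2) => Polynomial.C (s i : ℂ) * frameX w i l) 2
    (fun i => (s i : ℂ) * (if i = 0 then nu w l else 0)) (fun i _ => Top_Cmul _ (Top_frame w i l))
  have e : ∑ i : Fin (k + 2), (s i : ℂ) * (if i = 0 then nu w l else 0) = (s 0 : ℂ) * nu w l := by
    rw [Finset.sum_eq_single (0 : Fin (k + 2))]
    · simp
    · intro b _ hb
      simp [hb]
    · intro hn
      exact absurd (Finset.mem_univ _) hn
  rwa [e] at h

private theorem Top_R0 {k e : ℕ} (Q : MvPolynomial (Fin (k + 3)) ℝ) (hQ : Q.IsHomogeneous e)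
    (w : Fin (k + 3) → Fin (k + 3) → ℝ) (s : Fin (k + 2) → ℝ) :
    Top_G (R0 Q (frameX w) (fun i => Polynomial.C (s i : ℂ))) (2 * e)
      ((s 0 : ℂ) ^ e * MvPolynomial.aeval (nu w) Q) := by
  unfold R0
  rw [MvPolynomial.aeval_def, MvPolynomial.aeval_def, MvPolynomial.eval₂_eq', MvPolynomial.eval₂_eq',
    Finset.mul_sum]
  refine Top_sum _ _ _ _ ?_
  intro d hd
  have hde : ∑ l, d l = e := by
    have h1 := hQ (MvPolynomial.mem_support_iff.mp hd)
    rw [Finsupp.weight_apply, Finsupp.sum_fintype _ _ (by simp)] at h1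
    simpa using h1
  have h1 := Top_prod Finset.univ (fun l => (∑ i, Polynomial.C (s i : ℂ) * frameX w i l) ^ d l)
    (fun l => d l * 2) (fun l => ((s 0 : ℂ) * nu w l) ^ d l) (fun l _ => Top_pow (Top_coord w s l) (d l))
  have h2 : ∑ l, d l * 2 = 2 * e := by rw [← Finset.sum_mul, hde, mul_comm]
  rw [h2] at h1
  have h3 := Top_Cmul (algebraMap ℝ ℂ (Q.coeff d)) h1
  have h4 : ∏ l, ((s 0 : ℂ) * nu w l) ^ d l = (s 0 : ℂ) ^ e * ∏ l, nu w l ^ d l := by
    simp_rw [mul_pow]
    rw [Finset.prod_mul_distrib, Finset.prod_pow_eq_pow_sum, hde]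
  rw [h4] at h3
  have h5 : (s 0 : ℂ) ^ e * ((algebraMap ℝ ℂ) (MvPolynomial.coeff d Q) * ∏ l, nu w l ^ d l) =
      algebraMap ℝ ℂ (Q.coeff d) * ((s 0 : ℂ) ^ e * ∏ l, nu w l ^ d l) := by ring
  rw [h5]
  exact h3

private theorem Top_R00 {k : ℕ} (w : Fin (k + 3) → Fin (k + 3) → ℝ) (s : Fin (k + 2) → ℝ) :
    R0 (0 : MvPolynomial (Fin (k + 3)) ℝ) (frameX w) (fun i => Polynomial.C (s i : ℂ)) = 0 := by
  unfold R0
  exact map_zero _

private theorem Top_der0 {k : ℕ} (P : MvPolynomial (Fin (k + 3)) ℝ) (hP : P.IsHomogeneous 0)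
    (l : Fin (k + 3)) : MvPolynomial.pderiv l P = 0 := by
  rw [← MvPolynomial.totalDegree_zero_iff_isHomogeneous, MvPolynomial.totalDegree_eq_zero_iff_eq_C] at hP
  rw [hP, MvPolynomial.pderiv_C]

private theorem Top_euler {k n : ℕ} (P : MvPolynomial (Fin (k + 3)) ℝ) (hP : P.IsHomogeneous n)
    (w : Fin (k + 3) → Fin (k + 3) → ℝ) :
    ∑ l, nu w l * MvPolynomial.aeval (nu w) (MvPolynomial.pderiv l P) = (n : ℂ) * MvPolynomial.aeval (nu w) P := by
  have h := congrArg (MvPolynomial.aeval (nu w)) hP.sum_X_mul_pderiv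
  rw [map_sum, map_nsmul, nsmul_eq_mul] at h
  rw [← h]
  refine Finset.sum_congr rfl (fun l _ => ?_)
  rw [map_mul, MvPolynomial.aeval_X]

private theorem Top_R1 {k d : ℕ} (P : MvPolynomial (Fin (k + 3)) ℝ) (hP : P.IsHomogeneous d)
    (w : Fin (k + 3) → Fin (k + 3) → ℝ) (s : Fin (k + 2) → ℝ) (i : Fin (k + 2)) :
    Top_G (R1 P (frameX w) (fun i => Polynomial.C (s i : ℂ)) i) (2 * d)
      ((if i = 0 then (d : ℂ) * (s 0 : ℂ) ^ (d - 1) else 0) * MvPolynomial.aeval (nu w) P) := by
  unfold R1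
  obtain _ | n := d
  · have e1 : ∑ l, frameX w i l * R0 (MvPolynomial.pderiv l P) (frameX w) (fun i => Polynomial.C (s i : ℂ)) = 0 := by
      refine Finset.sum_eq_zero (fun l _ => ?_)
      rw [Top_der0 P hP l, Top_R00, mul_zero]
    rw [e1]
    have := Top_zero (2 * 0)
    simpa using this
  · have h := Top_sum Finset.univ
      (fun l => frameX w i l * R0 (MvPolynomial.pderiv l P) (frameX w) (fun i => Polynomial.C (s i : ℂ)))
      (2 + 2 * n)
      (fun l => (if i = 0 then nu w l else 0) * ((s 0 : ℂ) ^ n * MvPolynomial.aeval (nu w) (MvPolynomial.pderiv l P)))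
      (fun l _ => Top_mul (Top_frame w i l) (Top_R0 _ (by simpa using hP.pderiv (i := l)) w s))
    have e2 : 2 + 2 * n = 2 * (n + 1) := by ring
    rw [e2] at h
    have e3 : ∑ l, (if i = 0 then nu w l else 0) *
        ((s 0 : ℂ) ^ n * MvPolynomial.aeval (nu w) (MvPolynomial.pderiv l P)) =
        (if i = 0 then ((n + 1 : ℕ) : ℂ) * (s 0 : ℂ) ^ (n + 1 - 1) else 0) * MvPolynomial.aeval (nu w) P := by
      by_cases hi : i = 0
      · simp only [if_pos hi]
        have := Top_euler P hP w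
        rw [Nat.add_sub_cancel, mul_right_comm, ← this, Finset.sum_mul]
        refine Finset.sum_congr rfl (fun l _ => ?_)
        ring
      · simp [hi]
    rwa [e3] at h

private theorem Top_R2 {k d : ℕ} (P : MvPolynomial (Fin (k + 3)) ℝ) (hP : P.IsHomogeneous d)
    (w : Fin (k + 3) → Fin (k + 3) → ℝ) (s : Fin (k + 2) → ℝ) (i j : Fin (k + 2)) :
    Top_G (R2 P (frameX w) (fun i => Polynomial.C (s i : ℂ)) i j) (2 * d)
      ((if i = 0 ∧ j = 0 then (d : ℂ) * ((d : ℂ) - 1) * (s 0 : ℂ) ^ (d - 2) else 0) *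
        MvPolynomial.aeval (nu w) P) := by
  unfold R2
  obtain _ | _ | n := d
  · have e1 : ∑ l, ∑ l', frameX w i l * frameX w j l' *
        R0 (MvPolynomial.pderiv l' (MvPolynomial.pderiv l P)) (frameX w) (fun i => Polynomial.C (s i : ℂ)) = 0 := by
      refine Finset.sum_eq_zero (fun l _ => Finset.sum_eq_zero (fun l' _ => ?_))
      rw [Top_der0 P hP l, map_zero, Top_R00, mul_zero]
    rw [e1]
    have := Top_zero (2 * 0)
    simpa using this
  · have e1 : ∑ l, ∑ l', frameX w i l * frameX w j l' *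
        R0 (MvPolynomial.pderiv l' (MvPolynomial.pderiv l P)) (frameX w) (fun i => Polynomial.C (s i : ℂ)) = 0 := by
      refine Finset.sum_eq_zero (fun l _ => Finset.sum_eq_zero (fun l' _ => ?_))
      rw [Top_der0 (MvPolynomial.pderiv l P) (by simpa using hP.pderiv (i := l)) l', Top_R00, mul_zero]
    rw [e1]
    have := Top_zero (2 * (0 + 1))
    simpa using this
  · have h := Top_sum Finset.univ
      (fun l => ∑ l', frameX w i l * frameX w j l' *
        R0 (MvPolynomial.pderiv l' (MvPolynomial.pderiv l P)) (frameX w) (fun i => Polynomial.C (s i : ℂ)))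
      (2 + 2 + 2 * n)
      (fun l => ∑ l', ((if i = 0 then nu w l else 0) * (if j = 0 then nu w l' else 0)) *
        ((s 0 : ℂ) ^ n * MvPolynomial.aeval (nu w) (MvPolynomial.pderiv l' (MvPolynomial.pderiv l P))))
      (fun l _ => Top_sum _ _ _ _ (fun l' _ =>
        Top_mul (Top_mul (Top_frame w i l) (Top_frame w j l'))
          (Top_R0 _ (by simpa using (hP.pderiv (i := l)).pderiv (i := l')) w s)))
    have e2 : 2 + 2 + 2 * n = 2 * (n + 1 + 1) := by ring
    rw [e2] at h
    have e3 : ∑ l, ∑ l', ((if i = 0 then nu w l else 0) * (if j = 0 then nu w l' else 0)) *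
        ((s 0 : ℂ) ^ n * MvPolynomial.aeval (nu w) (MvPolynomial.pderiv l' (MvPolynomial.pderiv l P))) =
        (if i = 0 ∧ j = 0 then ((n + 1 + 1 : ℕ) : ℂ) * (((n + 1 + 1 : ℕ) : ℂ) - 1) * (s 0 : ℂ) ^ (n + 1 + 1 - 2) else 0) *
          MvPolynomial.aeval (nu w) P := by
      by_cases hi : i = 0
      · by_cases hj : j = 0
        · simp only [if_pos hi, if_pos hj, if_pos (And.intro hi hj)]
          have h1 := Top_euler P hP w
          have h2 : ∀ l, ∑ l', nu w l' * MvPolynomial.aeval (nu w) (MvPolynomial.pderiv l' (MvPolynomial.pderiv l P)) =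
              ((n + 1 : ℕ) : ℂ) * MvPolynomial.aeval (nu w) (MvPolynomial.pderiv l P) := fun l =>
            Top_euler (MvPolynomial.pderiv l P) (by simpa using hP.pderiv (i := l)) w
          have h3 : ∀ l, ∑ l', nu w l * nu w l' *
              ((s 0 : ℂ) ^ n * MvPolynomial.aeval (nu w) (MvPolynomial.pderiv l' (MvPolynomial.pderiv l P))) =
              (s 0 : ℂ) ^ n * ((n + 1 : ℕ) : ℂ) * (nu w l * MvPolynomial.aeval (nu w) (MvPolynomial.pderiv l P)) := by
            intro l
            have : (s 0 : ℂ) ^ n * ((n + 1 : ℕ) : ℂ) * (nu w l * MvPolynomial.aeval (nu w) (MvPolynomial.pderiv l P)) =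
                (s 0 : ℂ) ^ n * nu w l * (((n + 1 : ℕ) : ℂ) * MvPolynomial.aeval (nu w) (MvPolynomial.pderiv l P)) := by
              ring
            rw [this, ← h2 l, Finset.mul_sum]
            refine Finset.sum_congr rfl (fun l' _ => ?_)
            ring
          rw [Finset.sum_congr rfl (fun l _ => h3 l), ← Finset.mul_sum, h1]
          have e4 : n + 1 + 1 - 2 = n := by omega
          rw [e4]
          push_cast
          ring
        · simp [hj]
      · simp [hi]
    rwa [e3] at h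

theorem pTop : StTop := by
  intro k d P hP w s i j
  have h0 := Top_R0 P hP w s
  have h1 := Top_R1 P hP w s
  have h2 := Top_R2 P hP w s
  have hd : ((d : ℕ) : Polynomial ℂ) = Polynomial.C (d : ℂ) := by simp
  have key : Top_G (MatX d P w s i j) (2 * d) (MvPolynomial.aeval (nu w) P * ((T d s i j : ℝ) : ℂ)) := by
    have e1 : MatX d P w s i j =
        Polynomial.C ((d : ℂ) * ((d : ℂ) - 1) * (s i : ℂ) * (s j : ℂ)) *
            R0 P (frameX w) (fun i => Polynomial.C (s i : ℂ)) +
          Polynomial.C (1 - (d : ℂ)) *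
            (Polynomial.C (if i = j then (1 : ℂ) else 0) * R0 P (frameX w) (fun i => Polynomial.C (s i : ℂ)) +
              Polynomial.C (s i : ℂ) * R1 P (frameX w) (fun i => Polynomial.C (s i : ℂ)) j) +
          Polynomial.C ((2 - (d : ℂ)) * (s j : ℂ)) * R1 P (frameX w) (fun i => Polynomial.C (s i : ℂ)) i +
          R2 P (frameX w) (fun i => Polynomial.C (s i : ℂ)) i j := by
      unfold MatX Mat
      rw [hd]
      by_cases hij : i = j
      · simp only [if_pos hij, map_mul, map_sub, map_one, one_mul]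
        simp only [Polynomial.C_ofNat]
      · simp only [if_neg hij, map_mul, map_sub, map_one, map_zero, zero_mul]
        simp only [Polynomial.C_ofNat]
    rw [e1]
    have h := Top_add (Top_add (Top_add
      (Top_Cmul ((d : ℂ) * ((d : ℂ) - 1) * (s i : ℂ) * (s j : ℂ)) h0)
      (Top_Cmul (1 - (d : ℂ)) (Top_add (Top_Cmul (if i = j then (1 : ℂ) else 0) h0) (Top_Cmul (s i : ℂ) (h1 j)))))
      (Top_Cmul ((2 - (d : ℂ)) * (s j : ℂ)) (h1 i))) (h2 i j)
    refine ⟨h.1, h.2.trans ?_⟩
    unfold T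
    push_cast
    clear h e1 h0 h1 h2
    split_ifs <;> push_cast <;> ring
  exact key

end Pool.Helper51.PSB
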