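import Pool.Agent.Helper51.PSB.St

set_option autoImplicit false

namespace Pool.Helper51.PSB

open MeasureTheory

/-- the derivative of the norm -/
private theorem VolA_norm {k : ℕ} (y : V k) (hy : y ≠ 0) :
    HasFDerivAt (fun y' : V k => ‖y'‖) (‖y‖⁻¹ • (innerSL ℝ y : V k →L[ℝ] ℝ)) y := by
  have h1 : HasFDerivAt (fun y' : V k => ‖y'‖ ^ 2) (2 • (innerSL ℝ y : V k →L[ℝ] ℝ)) y :=
    (hasStrictFDerivAt_norm_sq y).hasFDerivAt
  have hy0 : ‖y‖ ≠ 0 := norm_ne_zero_iff.mpr hy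
  have h2 := h1.sqrt (by positivity)
  have h3 : (fun y' : V k => Real.sqrt (‖y'‖ ^ 2)) = fun y' : V k => ‖y'‖ := by
    funext y'
    exact Real.sqrt_sq (norm_nonneg y')
  rw [h3] at h2
  refine h2.congr_fderiv ?_
  ext v
  simp only [smul_apply, Real.sqrt_sq (norm_nonneg y), smul_eq_mul, nsmul_eq_mul]
  push_cast
  field_simp

/-- uniqueness of the maximiser -/
private theorem VolA_unique {k : ℕ} {L : Set (V k)} {g : V k → ℝ} {G : V k → V k} {M : V k → V k →L[ℝ] V k}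
    (D : Dat k L g G M) {y : V k} (hy : y ≠ 0) {x : V k} (hx : x ∈ L) (hxy : (inner ℝ x y : ℝ) = g y) :
    x = ‖y‖⁻¹ • G y := by
  have hmin : IsLocalMin (fun y' => g y' - (inner ℝ x y' : ℝ)) y := by
    have hne : ∀ᶠ y' in nhds y, y' ≠ 0 := isOpen_ne.mem_nhds hy
    filter_upwards [hne] with y' hy'
    have h1 : (inner ℝ x y' : ℝ) ≤ g y' := (D.lub y' hy').1 ⟨x, hx, rfl⟩
    simp only [hxy, sub_self]
    linarith
  have hd : HasFDerivAt (fun y' => g y' - (inner ℝ x y' : ℝ))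
      ((InnerProductSpace.toDual ℝ (V k)) (‖y‖⁻¹ • G y) - (innerSL ℝ x : V k →L[ℝ] ℝ)) y := by
    refine (D.gr y hy).hasFDerivAt.sub ?_
    exact (innerSL ℝ x : V k →L[ℝ] ℝ).hasFDerivAt
  have h0 := hmin.hasFDerivAt_eq_zero hd
  have h1 : ∀ v : V k, (inner ℝ x v : ℝ) = inner ℝ (‖y‖⁻¹ • G y) v := by
    intro v
    have := congrArg (fun l : V k →L[ℝ] ℝ => l v) h0
    simp only [sub_apply, zero_apply,
      InnerProductSpace.toDual_apply_apply, innerSL_apply_apply] at this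
    linarith
  exact ext_inner_right ℝ h1

theorem pVolA : StVolA := by
  intro k L g G M D
  have main : ∀ y : V k, y ≠ 0 → ‖y‖⁻¹ • G y ∈ L ∧ (inner ℝ (‖y‖⁻¹ • G y) y : ℝ) = g y := by
    intro y hy
    have hne : L.Nonempty := ⟨0, interior_subset D.h0⟩
    obtain ⟨x, hx, hmax⟩ := D.cp.exists_isMaxOn hne
      (f := fun x => (inner ℝ x y : ℝ)) (by fun_prop)
    have hxy : (inner ℝ x y : ℝ) = g y := by
      apply le_antisymm
      · exact (D.lub y hy).1 ⟨x, hx, rfl⟩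
      · apply (D.lub y hy).2
        rintro _ ⟨x', hx', rfl⟩
        exact hmax hx'
    have := VolA_unique D hy hx hxy
    rw [← this]
    exact ⟨hx, hxy⟩
  intro y hy
  have hn : 0 < ‖y‖ := norm_pos_iff.mpr hy
  obtain ⟨hm, hi⟩ := main y hy
  refine ⟨hm, hi, ?_, fun x hx hxy => VolA_unique D hy hx hxy, ?_, ?_⟩
  · obtain ⟨ε, hε, hb⟩ := Metric.mem_nhds_iff.mp (mem_interior_iff_mem_nhds.mp D.h0)
    have hmem : ((ε / 2) * ‖y‖⁻¹) • y ∈ L := by
      apply hb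
      rw [mem_ball_zero_iff, norm_smul, Real.norm_of_nonneg (by positivity), mul_assoc,
        inv_mul_cancel₀ hn.ne']
      linarith
    have h1 : (inner ℝ (((ε / 2) * ‖y‖⁻¹) • y) y : ℝ) ≤ g y := (D.lub y hy).1 ⟨_, hmem, rfl⟩
    rw [real_inner_smul_left, real_inner_self_eq_norm_sq] at h1
    have h2 : 0 < ε / 2 * ‖y‖⁻¹ * ‖y‖ ^ 2 := by positivity
    linarith
  · have hN := VolA_norm y hy
    have hinv : HasFDerivAt (fun y' : V k => ‖y'‖⁻¹) (-(‖y‖ ^ 2)⁻¹ • (‖y‖⁻¹ • (innerSL ℝ y : V k →L[ℝ] ℝ))) y :=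
      (hasDerivAt_inv hn.ne').comp_hasFDerivAt y hN
    have hH := hinv.smul (D.dv y hy)
    refine ⟨_, hH, ?_⟩
    intro v
    simp only [add_apply, smul_apply,
      ContinuousLinearMap.smulRight_apply, innerSL_apply_apply, smul_add, smul_smul, smul_eq_mul]
    rw [mul_inv_cancel₀ hn.ne', one_smul, add_assoc, ← add_smul]
    have : ‖y‖ * (-(‖y‖ ^ 2)⁻¹ * ‖y‖⁻¹ * (inner ℝ y v : ℝ)) + (inner ℝ y v : ℝ) / ‖y‖ * ‖y‖⁻¹ = 0 := by
      field_simp
      ring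
    rw [this, zero_smul, add_zero]
  · intro t ht
    have hty : t • y ≠ 0 := smul_ne_zero ht.ne' hy
    have h1 : (inner ℝ (‖y‖⁻¹ • G y) (t • y) : ℝ) = g (t • y) := by
      apply le_antisymm
      · exact (D.lub _ hty).1 ⟨_, hm, rfl⟩
      · apply (D.lub _ hty).2
        rintro _ ⟨x', hx', rfl⟩
        have h2 : (inner ℝ x' y : ℝ) ≤ g y := (D.lub y hy).1 ⟨x', hx', rfl⟩
        show (inner ℝ x' (t • y) : ℝ) ≤ _
        rw [real_inner_smul_right, real_inner_smul_right, hi]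
        exact mul_le_mul_of_nonneg_left h2 ht.le
    have h3 := VolA_unique D hty hm h1
    have h4 : G (t • y) = ‖t • y‖ • (‖t • y‖⁻¹ • G (t • y)) := by
      rw [smul_smul, mul_inv_cancel₀ (norm_ne_zero_iff.mpr hty), one_smul]
    rw [h4, ← h3, norm_smul, Real.norm_of_nonneg ht.le, smul_smul, mul_assoc, mul_inv_cancel₀ hn.ne', mul_one]

end Pool.Helper51.PSB
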