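import Pool.Agent.Helper51.PSB.St

/-!
# Module VolB of project PSB (MP_26ac92_gt)
-/

set_option autoImplicit false

namespace Pool.Helper51.PSB

open MeasureTheory Filter Topology

private lemma VolB_le {k : ℕ} {L : Set (V k)} {g : V k → ℝ} {G : V k → V k}
    {M : V k → V k →L[ℝ] V k} (hD : Dat k L g G M) {x y : V k} (hx : x ∈ L) (hy : y ≠ 0) :
    (inner ℝ x y : ℝ) ≤ g y :=
  (hD.lub y hy).1 ⟨x, hx, rfl⟩

theorem pVolB (hVolA : StVolA) : StVolB := by
  intro k L g G M hD y hy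
  obtain ⟨hL, hip, hgpos, -, ⟨H, hH, hM⟩, -⟩ := hVolA k L g G M hD y hy
  have hA := hVolA k L g G M hD
  have hyn : 0 < ‖y‖ := norm_pos_iff.mpr hy
  -- (1)
  have h1 : ∀ v, (inner ℝ y (H v) : ℝ) = 0 := by
    have hmax : IsLocalMax (fun y' : V k => (inner ℝ y (‖y'‖⁻¹ • G y') : ℝ)) y := by
      have hne : ∀ᶠ y' in 𝓝 y, y' ≠ 0 := isOpen_ne.mem_nhds hy
      filter_upwards [hne] with y' hy'
      have h := VolB_le hD (hA y' hy').1 hy
      rw [← hip] at h
      rw [real_inner_comm, real_inner_comm (‖y‖⁻¹ • G y) y]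
      exact h
    have hder : HasFDerivAt (fun y' : V k => (inner ℝ y (‖y'‖⁻¹ • G y') : ℝ))
        ((innerSL ℝ y).comp H) y :=
      (innerSL ℝ y).hasFDerivAt.comp y hH
    have h0 := hmax.hasFDerivAt_eq_zero hder
    intro v
    have := congrArg (fun T : V k →L[ℝ] ℝ => T v) h0
    simpa using this
  -- (2)
  have h2 : ∀ v, 0 ≤ (inner ℝ v (H v) : ℝ) := by
    intro v
    have hline : HasDerivAt (fun t : ℝ => y + t • v) v 0 := by
      have h := ((hasDerivAt_id (0 : ℝ)).smul_const v).const_add y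
      simpa using h
    have hγ : HasDerivAt (fun t : ℝ => ‖y + t • v‖⁻¹ • G (y + t • v)) (H v) 0 := by
      have h := hH.comp_hasDerivAt_of_eq (0 : ℝ) hline (by simp)
      exact h
    have hφ : HasDerivAt (fun t : ℝ => (inner ℝ v (‖y + t • v‖⁻¹ • G (y + t • v)) : ℝ))
        (inner ℝ v (H v)) 0 :=
      (innerSL ℝ v).hasFDerivAt.comp_hasDerivAt (0 : ℝ) hγ
    have hs := hφ.tendsto_slope
    have hs' := hs.mono_left (nhdsWithin_mono (0 : ℝ) (show Set.Ioi (0 : ℝ) ⊆ {0}ᶜ from
      fun t ht => ne_of_gt ht))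
    refine ge_of_tendsto hs' ?_
    have hne : ∀ᶠ t in 𝓝 (0 : ℝ), y + t • v ≠ 0 := by
      have hc : Continuous fun t : ℝ => y + t • v := by fun_prop
      have : {t : ℝ | y + t • v ≠ 0} ∈ 𝓝 (0 : ℝ) :=
        (isOpen_ne.preimage hc).mem_nhds (by simpa using hy)
      exact this
    filter_upwards [self_mem_nhdsWithin, nhdsWithin_le_nhds hne] with t ht hyt
    have ht0 : (0 : ℝ) < t := ht
    obtain ⟨hL', hip', -⟩ := hA (y + t • v) hyt
    have ha : (inner ℝ (‖y‖⁻¹ • G y) (y + t • v) : ℝ) ≤ g (y + t • v) := VolB_le hD hL hyt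
    have hb : (inner ℝ (‖y + t • v‖⁻¹ • G (y + t • v)) y : ℝ) ≤ g y := VolB_le hD hL' hy
    rw [← hip', inner_add_right, inner_add_right, inner_smul_right, inner_smul_right] at ha
    rw [← hip] at hb
    rw [slope_def_field]
    simp only [zero_smul, add_zero, sub_zero]
    apply div_nonneg _ ht0.le
    rw [real_inner_comm, real_inner_comm (‖y‖⁻¹ • G y) v]
    nlinarith
  -- (3)
  have h3 : ∀ ε : ℝ, 0 < ε → ∀ v, M y v + ε • v = 0 → v = 0 := by
    intro ε hε v hv
    rw [hM v] at hv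
    have e1 := congrArg (fun z => (inner ℝ y z : ℝ)) hv
    simp only [inner_add_right, inner_smul_right, inner_zero_right] at e1
    rw [h1 v] at e1
    have e2 : (inner ℝ y (‖y‖⁻¹ • G y) : ℝ) = g y := by rw [real_inner_comm]; exact hip
    rw [inner_smul_right] at e2
    rw [e2] at e1
    have e3 : (inner ℝ y v : ℝ) * (g y / ‖y‖ + ε) = 0 := by
      rw [← e1]; ring
    have e4 : 0 < g y / ‖y‖ + ε := by positivity
    have e5 : (inner ℝ y v : ℝ) = 0 := by
      rcases mul_eq_zero.mp e3 with h | h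
      · exact h
      · exact absurd h e4.ne'
    rw [e5, zero_div, zero_smul, add_zero] at hv
    have e6 := congrArg (fun z => (inner ℝ v z : ℝ)) hv
    simp only [inner_add_right, inner_smul_right, inner_zero_right] at e6
    have e7 : (inner ℝ v v : ℝ) = 0 := by
      have a1 := h2 v
      have a2 : 0 ≤ (inner ℝ v v : ℝ) := real_inner_self_nonneg
      have a3 : 0 ≤ ‖y‖ * (inner ℝ v (H v) : ℝ) := mul_nonneg hyn.le a1
      nlinarith
    exact inner_self_eq_zero.mp e7
  -- (4)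
  by_contra hneg
  push Not at hneg
  let D : ℝ → ℝ := fun s => ((1 - s) • (ContinuousLinearMap.id ℝ (V k)) + s • M y).det
  have hDc : Continuous D := by
    apply ContinuousLinearMap.continuous_det.comp
    fun_prop
  have hD0 : D 0 = 1 := by
    simp [D, ContinuousLinearMap.det]
  have hD1 : D 1 = (M y).det := by
    have e : (1 - (1 : ℝ)) • (ContinuousLinearMap.id ℝ (V k)) + (1 : ℝ) • M y = M y := by
      ext1 v
      simp
    exact congrArg ContinuousLinearMap.det e
  have hmem : (0 : ℝ) ∈ Set.Icc (D 1) (D 0) := by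
    rw [hD0, hD1]; exact ⟨hneg.le, zero_le_one⟩
  obtain ⟨s, ⟨hs0, hs1⟩, hs⟩ := intermediate_value_Icc' (zero_le_one (α := ℝ)) hDc.continuousOn hmem
  have hs1' : s ≠ 1 := by
    rintro rfl
    rw [hD1] at hs
    exact hneg.ne hs
  have hs0' : s ≠ 0 := by
    rintro rfl
    rw [hD0] at hs
    exact one_ne_zero hs
  have hsp : 0 < s := lt_of_le_of_ne hs0 (Ne.symm hs0')
  have hsl : 0 < 1 - s := by
    have := lt_of_le_of_ne hs1 hs1'
    linarith
  have hk := LinearMap.bot_lt_ker_of_det_eq_zero (show LinearMap.det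
    (((1 - s) • (ContinuousLinearMap.id ℝ (V k)) + s • M y : V k →L[ℝ] V k) : V k →ₗ[ℝ] V k) = 0 from hs)
  obtain ⟨v, hv, hv0⟩ := (Submodule.ne_bot_iff _).mp hk.ne'
  apply hv0
  refine h3 ((1 - s) / s) (div_pos hsl hsp) v ?_
  have hv1 : (1 - s) • v + s • M y v = 0 := by
    have := LinearMap.mem_ker.mp hv
    simpa using this
  have hv2 : s • (M y v + ((1 - s) / s) • v) = 0 := by
    rw [smul_add, smul_smul, mul_div_cancel₀ _ hs0', add_comm]
    exact hv1
  exact (smul_eq_zero.mp hv2).resolve_left hs0'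

end Pool.Helper51.PSB
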