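import Pool.Agent.Helper51.PSB.St

set_option autoImplicit false

namespace Pool.Helper51.PSB

open MeasureTheory

private lemma VolC_ker {k : ℕ} (M : V k →L[ℝ] V k) (v : V k) (hv : v ≠ 0) (h : M v = 0) : M.det = 0 := by
  by_contra hd
  have hd' : LinearMap.det (M : V k →ₗ[ℝ] V k) ≠ 0 := hd
  have h1 := LinearMap.equivOfDetNeZero (M : V k →ₗ[ℝ] V k) hd'
  have hker : LinearMap.ker (M : V k →ₗ[ℝ] V k) = ⊥ := by
    have hu : IsUnit (LinearMap.det (M : V k →ₗ[ℝ] V k)) := isUnit_iff_ne_zero.mpr hd'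
    have := (LinearEquiv.ofIsUnitDet (f := (M : V k →ₗ[ℝ] V k))
      (v := Module.finBasis ℝ (V k)) (v' := Module.finBasis ℝ (V k)) (by
        rw [LinearMap.det_toMatrix]; exact hu)).ker
    simpa using this
  have : v ∈ LinearMap.ker (M : V k →ₗ[ℝ] V k) := by
    rw [LinearMap.mem_ker]; exact h
  rw [hker] at this
  exact hv (by simpa using this)

private lemma VolC_le {k : ℕ} {L : Set (V k)} {g : V k → ℝ} {G : V k → V k} {M : V k → V k →L[ℝ] V k}
    (D : Dat k L g G M) {y x : V k} (hy : y ≠ 0) (hx : x ∈ L) : (inner ℝ x y : ℝ) ≤ g y :=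
  (D.lub y hy).1 ⟨x, hx, rfl⟩

private lemma VolC_norm (hVolA : StVolA) {k : ℕ} {L : Set (V k)} {g : V k → ℝ} {G : V k → V k}
    {M : V k → V k →L[ℝ] V k} (D : Dat k L g G M) {y y' : V k} (hy : y ≠ 0) (hy' : y' ≠ 0) (h : G y = G y') :
    ‖y'‖ ≤ ‖y‖ := by
  obtain ⟨hz, -, -, -, -, -⟩ := hVolA k L g G M D y hy
  obtain ⟨-, hz'2, hg', -, -, -⟩ := hVolA k L g G M D y' hy'
  have hny : 0 < ‖y‖ := norm_pos_iff.mpr hy
  have hny' : 0 < ‖y'‖ := norm_pos_iff.mpr hy'
  have h1 := VolC_le D hy' hz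
  rw [real_inner_smul_left] at h1 hz'2
  rw [h] at h1
  have h2 : (inner ℝ (G y') y' : ℝ) = ‖y'‖ * g y' := by
    rw [← hz'2]; field_simp
  rw [h2] at h1
  have h3 : ‖y'‖ * g y' ≤ ‖y‖ * g y' := by
    have := mul_le_mul_of_nonneg_left h1 hny.le
    rwa [← mul_assoc, mul_inv_cancel₀ hny.ne', one_mul] at this
  exact le_of_mul_le_mul_right h3 hg'

/-- constancy of `γ` on a half line starting at `y` gives a kernel vector of the derivative -/
private lemma VolC_der {k : ℕ} (γ : V k → V k) (y w z : V k) (H : V k →L[ℝ] V k) (hH : HasFDerivAt γ H y)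
    (hc : ∀ τ : ℝ, 0 ≤ τ → τ ≤ 1 → γ (y + τ • w) = z) : H w = 0 := by
  have h1 : HasDerivAt (fun τ : ℝ => y + τ • w) w 0 := by
    have := ((hasDerivAt_id (0:ℝ)).smul_const w).const_add y
    simpa using this
  have h0 : y + (0:ℝ) • w = y := by simp
  have h2 : HasDerivAt (γ ∘ (fun τ : ℝ => y + τ • w)) (H w) 0 := by
    apply HasFDerivAt.comp_hasDerivAt
    · show HasFDerivAt γ H (y + (0:ℝ) • w)
      rw [h0]; exact hH
    · exact h1
  have h3 : HasDerivWithinAt (γ ∘ (fun τ : ℝ => y + τ • w)) (H w) (Set.Icc (0:ℝ) 1) 0 :=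
    h2.hasDerivWithinAt
  have h4 : HasDerivWithinAt (γ ∘ (fun τ : ℝ => y + τ • w)) 0 (Set.Icc (0:ℝ) 1) 0 := by
    have hk : HasDerivWithinAt (fun _ : ℝ => z) 0 (Set.Icc (0:ℝ) 1) 0 := hasDerivWithinAt_const _ _ _
    refine hk.congr ?_ ?_
    · intro τ hτ
      exact hc τ hτ.1 hτ.2
    · exact hc 0 le_rfl zero_le_one
  have hu : UniqueDiffWithinAt ℝ (Set.Icc (0:ℝ) 1) 0 :=
    (uniqueDiffOn_Icc zero_lt_one) 0 (Set.left_mem_Icc.mpr zero_le_one)
  exact hu.eq_deriv _ h3 h4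

theorem pVolC (hVolA : StVolA) : StVolC := by
  intro k L g G M D y y' hy hy' hne hG
  have hny : 0 < ‖y‖ := norm_pos_iff.mpr hy
  have hny' : 0 < ‖y'‖ := norm_pos_iff.mpr hy'
  have hnn : ‖y'‖ = ‖y‖ := le_antisymm (VolC_norm hVolA D hy hy' hG) (VolC_norm hVolA D hy' hy hG.symm)
  obtain ⟨hz, hz2, hg, -, ⟨H, hH, hMH⟩, hhom⟩ := hVolA k L g G M D y hy
  obtain ⟨-, hz'2, hg', -, -, -⟩ := hVolA k L g G M D y' hy'
  set z : V k := ‖y‖⁻¹ • G y with hzdef
  have hzz' : ‖y'‖⁻¹ • G y' = z := by rw [hzdef, hnn, hG]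
  rw [hzz'] at hz'2
  -- constancy on the segment
  have hseg : ∀ τ : ℝ, 0 ≤ τ → τ ≤ 1 →
      (fun y'' : V k => ‖y''‖⁻¹ • G y'') (y + τ • (y' - y)) = z := by
    intro τ h0 h1
    have hin : ∀ x : V k, (inner ℝ x (y + τ • (y' - y)) : ℝ) = (1 - τ) * inner ℝ x y + τ * inner ℝ x y' := by
      intro x
      rw [inner_add_right, real_inner_smul_right, inner_sub_right]; ring
    have hpos : 0 < (inner ℝ z (y + τ • (y' - y)) : ℝ) := by
      rw [hin, hz2, hz'2]
      rcases eq_or_lt_of_le h0 with h | h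
      · rw [← h]; simpa using hg
      · have : 0 ≤ (1 - τ) * g y := mul_nonneg (by linarith) hg.le
        have : 0 < τ * g y' := mul_pos h hg'
        linarith
    have hτne : y + τ • (y' - y) ≠ 0 := by
      intro h; rw [h, inner_zero_right] at hpos; exact lt_irrefl _ hpos
    have hmax : ∀ x ∈ L, (inner ℝ x (y + τ • (y' - y)) : ℝ) ≤ inner ℝ z (y + τ • (y' - y)) := by
      intro x hx
      rw [hin, hin, hz2, hz'2]
      have a1 := VolC_le D hy hx
      have a2 := VolC_le D hy' hx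
      have b1 := mul_le_mul_of_nonneg_left a1 (by linarith : (0:ℝ) ≤ 1 - τ)
      have b2 := mul_le_mul_of_nonneg_left a2 h0
      linarith
    have hgτ : (inner ℝ z (y + τ • (y' - y)) : ℝ) = g (y + τ • (y' - y)) := by
      apply le_antisymm (VolC_le D hτne hz)
      apply (D.lub _ hτne).2
      rintro _ ⟨x, hx, rfl⟩
      exact hmax x hx
    obtain ⟨-, -, -, huniq, -, -⟩ := hVolA k L g G M D _ hτne
    exact (huniq z hz hgτ).symm
  have hHw : H (y' - y) = 0 := VolC_der _ y (y' - y) z H hH hseg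
  have hHy : H y = 0 := by
    apply VolC_der _ y y z H hH
    intro τ h0 _
    have h1 : y + τ • y = (1 + τ) • y := by rw [add_smul, one_smul]
    have h1p : 0 < 1 + τ := by linarith
    show ‖y + τ • y‖⁻¹ • G (y + τ • y) = z
    rw [h1, hhom _ h1p, norm_smul, Real.norm_of_nonneg h1p.le, smul_smul, hzdef]
    congr 1
    field_simp
  have hMw : M y (y' - y) = ((inner ℝ y (y' - y) : ℝ) / ‖y‖) • z := by
    rw [hMH, hHw, smul_zero, zero_add]
  have hMy : M y y = ‖y‖ • z := by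
    rw [hMH, hHy, smul_zero, zero_add, real_inner_self_eq_norm_sq]
    congr 1
    field_simp
  apply VolC_ker (M y) ((y' - y) - ((inner ℝ y (y' - y) : ℝ) / ‖y‖ ^ 2) • y)
  · intro h0
    set c : ℝ := (inner ℝ y (y' - y) : ℝ) / ‖y‖ ^ 2 with hc
    have hy'c : y' = (1 + c) • y := by
      have : y' - y = c • y := sub_eq_zero.mp h0
      rw [add_smul, one_smul, ← this]; abel
    have h1 : g y' = (1 + c) * g y := by
      rw [← hz'2, ← hz2, hy'c, real_inner_smul_right]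
    have h1c : 0 < 1 + c := by
      by_contra hcon
      push Not at hcon
      have : (1 + c) * g y ≤ 0 := mul_nonpos_of_nonpos_of_nonneg hcon hg.le
      linarith
    have h2 : ‖y'‖ = (1 + c) * ‖y‖ := by
      conv_lhs => rw [hy'c]
      rw [norm_smul, Real.norm_of_nonneg h1c.le]
    have h3 : c = 0 := by
      rw [hnn] at h2
      have : c * ‖y‖ = 0 := by linarith
      rcases mul_eq_zero.mp this with h | h
      · exact h
      · exact absurd h hny.ne'
    apply hne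
    rw [hy'c, h3]; simp
  · have : (inner ℝ y (y' - y) : ℝ) / ‖y‖ ^ 2 * ‖y‖ = (inner ℝ y (y' - y) : ℝ) / ‖y‖ := by
      field_simp
    rw [map_sub, map_smul, hMw, hMy, smul_smul ((inner ℝ y (y' - y) : ℝ) / ‖y‖ ^ 2) ‖y‖ z, this, sub_self]

end Pool.Helper51.PSB
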