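import Pool.Agent.Helper51.PSB.St

/-! # Project PSB, module VolD: the image of the map `G` -/

set_option autoImplicit false

namespace Pool.Helper51.PSB

open MeasureTheory Topology

theorem pVolD (hVolA : StVolA) : StVolD := by
  intro k L g G M hD
  have h0L : (0 : V k) ∈ L := interior_subset hD.h0
  have hn0 : L ∈ 𝓝 (0 : V k) := mem_interior_iff_mem_nhds.1 hD.h0
  constructor
  · intro y hy hy1
    obtain ⟨h1, -, -, -, -, -⟩ := hVolA k L g G M hD y hy
    have hpos : 0 < ‖y‖ := norm_pos_iff.2 hy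
    have h2 := hD.cv.smul_mem_of_zero_mem h0L h1 (t := ‖y‖) ⟨hpos.le, hy1.le⟩
    rwa [smul_smul, mul_inv_cancel₀ hpos.ne', one_smul] at h2
  · intro x hx hx0
    have habs : Absorbent ℝ L := absorbent_nhds_zero hn0
    have hbd : Bornology.IsVonNBounded ℝ L :=
      (NormedSpace.isVonNBounded_iff ℝ).2 hD.cp.isBounded
    have hρ0 : 0 < gauge L x := (gauge_pos habs hbd).2 hx0
    have hρ1 : gauge L x < 1 := (gauge_lt_one_iff_mem_interior hD.cv hn0).2 hx
    have hz1 : gauge L ((gauge L x)⁻¹ • x) = 1 := by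
      rw [gauge_smul_of_nonneg (inv_nonneg.2 hρ0.le), smul_eq_mul, inv_mul_cancel₀ hρ0.ne']
    have hzL : (gauge L x)⁻¹ • x ∈ L := by
      have h := (gauge_le_one_iff_mem_closure hD.cv hn0).1 hz1.le
      rwa [hD.cp.isClosed.closure_eq] at h
    have hzI : (gauge L x)⁻¹ • x ∉ interior L := by
      intro h
      have h2 := (gauge_lt_one_iff_mem_interior hD.cv hn0).2 h
      linarith
    obtain ⟨f, hf⟩ := geometric_hahn_banach_open_point hD.cv.interior isOpen_interior hzI
    have hfz : 0 < f ((gauge L x)⁻¹ • x) := by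
      have h := hf 0 hD.h0
      rwa [map_zero] at h
    have hfL : ∀ a ∈ L, f a ≤ f ((gauge L x)⁻¹ • x) := by
      intro a ha
      have hcl : IsClosed {a : V k | f a ≤ f ((gauge L x)⁻¹ • x)} :=
        isClosed_le f.continuous continuous_const
      have hsub : closure (interior L) ⊆ {a : V k | f a ≤ f ((gauge L x)⁻¹ • x)} :=
        hcl.closure_subset_iff.2 fun b hb => (hf b hb).le
      have hcv := hD.cv.closure_interior_eq_closure_of_nonempty_interior ⟨0, hD.h0⟩
      exact hsub (by rw [hcv]; exact subset_closure ha)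
    set v : V k := (InnerProductSpace.toDual ℝ (V k)).symm f with hv
    have hin : ∀ a : V k, (inner ℝ a v : ℝ) = f a := by
      intro a
      rw [real_inner_comm, hv, InnerProductSpace.toDual_symm_apply]
    have hv0 : v ≠ 0 := by
      intro h
      have h2 := hin ((gauge L x)⁻¹ • x)
      rw [h, inner_zero_right] at h2
      linarith
    have hg : (inner ℝ ((gauge L x)⁻¹ • x) v : ℝ) = g v := by
      have hl := hD.lub v hv0
      apply le_antisymm
      · exact hl.1 ⟨_, hzL, rfl⟩
      · refine hl.2 ?_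
        rintro _ ⟨a, ha, rfl⟩
        show (inner ℝ a v : ℝ) ≤ inner ℝ ((gauge L x)⁻¹ • x) v
        rw [hin, hin]
        exact hfL a ha
    obtain ⟨-, -, -, huni, -, hhom⟩ := hVolA k L g G M hD v hv0
    have hzG := huni _ hzL hg
    have hvn : 0 < ‖v‖ := norm_pos_iff.2 hv0
    have hc : 0 < gauge L x / ‖v‖ := div_pos hρ0 hvn
    refine ⟨(gauge L x / ‖v‖) • v, smul_ne_zero hc.ne' hv0, ?_, ?_⟩
    · rw [norm_smul, Real.norm_of_nonneg hc.le, div_mul_cancel₀ _ hvn.ne']
      exact hρ1
    · rw [hhom _ hc, div_eq_mul_inv, mul_smul, ← hzG, smul_smul, mul_inv_cancel₀ hρ0.ne', one_smul]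

end Pool.Helper51.PSB
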