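import Pool.Agent.Helper51.PSB.St

/-!
# Project PSB (MP_26ac92_gt), module VolE: the volume of a convex body as an integral over the ball
-/

set_option autoImplicit false

namespace Pool.Helper51.PSB

open MeasureTheory

/-- Module VolE. -/
theorem pVolE (hVolB : StVolB) (hVolC : StVolC) (hVolD : StVolD) : StVolE := by
  intro k μ L g G M hμ hD
  haveI := hμ
  have hfd : ∀ y : V k, y ≠ 0 → fderiv ℝ G y = M y := fun y hy => (hD.dv y hy).fderiv
  set B : Set (V k) := Metric.ball 0 1 \ {0} with hB
  have hBm : MeasurableSet B := Metric.isOpen_ball.measurableSet.diff (measurableSet_singleton 0)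
  have hB0 : ∀ y ∈ B, y ≠ 0 := fun y hy => by
    have := hy.2
    simpa using this
  have hB1 : ∀ y ∈ B, ‖y‖ < 1 := fun y hy => by
    have := hy.1
    simpa using this
  have hdm : Measurable (fun y : V k => (fderiv ℝ G y).det) :=
    ContinuousLinearMap.continuous_det.measurable.comp (measurable_fderiv ℝ G)
  set Z : Set (V k) := {y | (fderiv ℝ G y).det ≠ 0} with hZ
  have hZm : MeasurableSet Z := by
    have : Z = (fun y : V k => (fderiv ℝ G y).det) ⁻¹' {0}ᶜ := by
      ext y; simp [hZ]
    rw [this]
    exact hdm (measurableSet_singleton 0).compl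
  -- the image
  have him : μ (G '' B) = μ L := by
    apply le_antisymm
    · apply measure_mono
      rintro _ ⟨y, hy, rfl⟩
      exact (hVolD k L g G M hD).1 y (hB0 y hy) (hB1 y hy)
    · have hsub : L ⊆ G '' B ∪ ({0} ∪ frontier L) := by
        intro x hx
        by_cases hx0 : x = 0
        · right; left; simpa using hx0
        · by_cases hxi : x ∈ interior L
          · left
            obtain ⟨y, hy0, hy1, hyx⟩ := (hVolD k L g G M hD).2 x hxi hx0
            refine ⟨y, ⟨?_, ?_⟩, hyx⟩
            · simpa using hy1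
            · simpa using hy0
          · right; right
            exact ⟨subset_closure hx, hxi⟩
      calc μ L ≤ μ (G '' B ∪ ({0} ∪ frontier L)) := measure_mono hsub
        _ ≤ μ (G '' B) + μ ({0} ∪ frontier L) := measure_union_le _ _
        _ ≤ μ (G '' B) + (μ {0} + μ (frontier L)) := by
            gcongr
            exact measure_union_le _ _
        _ = μ (G '' B) := by
            rw [hD.cv.addHaar_frontier μ]
            simp
  -- the two pieces
  have hS : ∫⁻ y in B ∩ Z, ENNReal.ofReal |(M y).det| ∂μ = μ (G '' (B ∩ Z)) := by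
    apply lintegral_abs_det_fderiv_eq_addHaar_image μ (hBm.inter hZm)
    · intro y hy
      exact (hD.dv y (hB0 y hy.1)).hasFDerivWithinAt
    · intro y hy y' hy' h
      by_contra hne
      have h1 := hVolC k L g G M hD y y' (hB0 y hy.1) (hB0 y' hy'.1) hne h
      have h2 := hy.2
      rw [hZ, Set.mem_setOf_eq, hfd y (hB0 y hy.1)] at h2
      exact h2 h1
  have hN : μ (G '' (B \ Z)) = 0 := by
    apply addHaar_image_eq_zero_of_det_fderivWithin_eq_zero μ (f' := M)
    · intro y hy
      exact (hD.dv y (hB0 y hy.1)).hasFDerivWithinAt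
    · intro y hy
      have h2 := hy.2
      rw [hZ, Set.mem_setOf_eq, hfd y (hB0 y hy.1), not_not] at h2
      exact h2
  have hsplit : μ (G '' B) = μ (G '' (B ∩ Z)) := by
    apply le_antisymm
    · calc μ (G '' B) ≤ μ (G '' (B ∩ Z) ∪ G '' (B \ Z)) := by
            apply measure_mono
            rw [← Set.image_union, Set.inter_union_diff]
        _ ≤ μ (G '' (B ∩ Z)) + μ (G '' (B \ Z)) := measure_union_le _ _
        _ = μ (G '' (B ∩ Z)) := by rw [hN, add_zero]
    · exact measure_mono (Set.image_mono Set.inter_subset_left)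
  have hI := lintegral_inter_add_sdiff (μ := μ) (fun y => ENNReal.ofReal ((M y).det)) B hZm
  have hI2 : ∫⁻ y in B \ Z, ENNReal.ofReal ((M y).det) ∂μ = 0 := by
    rw [setLIntegral_congr_fun (hBm.diff hZm) (g := fun _ => 0)]
    · simp
    · intro y hy
      have h2 := hy.2
      rw [hZ, Set.mem_setOf_eq, hfd y (hB0 y hy.1), not_not] at h2
      simp [h2]
  have hI1 : ∫⁻ y in B ∩ Z, ENNReal.ofReal ((M y).det) ∂μ
      = ∫⁻ y in B ∩ Z, ENNReal.ofReal |(M y).det| ∂μ := by
    apply setLIntegral_congr_fun (hBm.inter hZm)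
    intro y hy
    simp only
    rw [abs_of_nonneg (hVolB k L g G M hD y (hB0 y hy.1))]
  rw [← him, hsplit, ← hS, ← hI1, ← hI, hI2, add_zero]

end Pool.Helper51.PSB
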