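import Pool.Agent.Helper51.PSB.St

/-!
# Project PSB (MP_26ac92_gt), module Zero: the case of a body with `0` in the interior
-/

set_option autoImplicit false

namespace Pool.Helper51.PSB

open MeasureTheory

private theorem Zero_haar (k : ℕ) :
    (Measure.hausdorffMeasure ((k : ℝ) + 2) : Measure (V k)).IsAddHaarMeasure := by
  have h : ((k : ℝ) + 2) = ((Module.finrank ℝ (V k) : ℕ) : ℝ) := by
    simp [V]
  rw [h]
  infer_instance

private theorem Zero_pos {k : ℕ} {K : Set (W k)} (h0 : (0 : W k) ∈ interior K) (u : W k)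
    (hu : ‖u‖ = 1) (v : ℝ) (h : IsLUB ((fun x => (inner ℝ x u : ℝ)) '' K) v) : 0 < v := by
  obtain ⟨ε, hε, hball⟩ := Metric.isOpen_iff.1 isOpen_interior 0 h0
  have h1 : ((ε / 2) • u) ∈ K := by
    apply interior_subset
    apply hball
    rw [Metric.mem_ball, dist_zero_right, norm_smul, hu, Real.norm_eq_abs,
      abs_of_pos (by linarith)]
    linarith
  have h2 : (inner ℝ ((ε / 2) • u) u : ℝ) ≤ v := h.1 ⟨_, h1, rfl⟩
  rw [real_inner_smul_left, real_inner_self_eq_norm_sq, hu] at h2
  linarith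

private theorem Zero_neg {k a : ℕ} (P : MvPolynomial (Fin (k + 3)) ℝ) (hP : P.IsHomogeneous a)
    (ha : Odd a) (u : Fin (k + 3) → ℝ) :
    MvPolynomial.eval (fun l => - u l) P = - MvPolynomial.eval u P := by
  rw [MvPolynomial.eval_eq', MvPolynomial.eval_eq', ← Finset.sum_neg_distrib]
  apply Finset.sum_congr rfl
  intro m hm
  have h1 : ∑ i, m i = a := by
    have h2 := hP (MvPolynomial.mem_support_iff.1 hm)
    rw [← h2, Finsupp.weight_apply, Finsupp.sum_fintype _ _ (by simp)]
    simp
  have h3 : ∏ i, (- u i) ^ m i = - ∏ i, u i ^ m i := by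
    have h4 : ∀ i, (- u i) ^ m i = (-1) ^ m i * u i ^ m i := fun i => neg_pow _ _
    rw [Finset.prod_congr rfl (fun i _ => h4 i), Finset.prod_mul_distrib,
      Finset.prod_pow_eq_pow_sum, h1, ha.neg_one_pow]
    ring
  rw [h3]
  ring

theorem pZero (hMin : StMin) (hFr : StFr) (hConst : StConst) (hCore : StCore) (hAlgDiv : StAlgDiv)
    (hAlgPrime : StAlgPrime) (hBall : StBall) : StZero := by
  intro k K p A hcv hcp h0 hsup hA
  obtain ⟨a, b, P, Q, ha, hb, hP, hQ, hpPQ, hP3, hQ2⟩ := hMin k p
  have hsup' : ∀ u : W k, ‖u‖ = 1 → IsLUB ((fun x => (inner ℝ x u : ℝ)) '' K)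
      (MvPolynomial.eval (fun l => u l) P + MvPolynomial.eval (fun l => u l) Q) := by
    intro u hu
    have h1 : ∑ l, (u l) ^ 2 = 1 := by
      have h2 := EuclideanSpace.norm_sq_eq u
      rw [hu] at h2
      simp only [Real.norm_eq_abs, sq_abs] at h2
      linarith
    rw [← hpPQ (fun l => u l) h1]
    exact hsup u hu
  have hcore : ∀ e f : Fin (k + 3) → ℝ, ∑ l, e l ^ 2 = 1 → ∑ l, f l ^ 2 = 1 → ∑ l, e l * f l = 0 →
      (a < b → MvPolynomial.aeval (fun l => ((e l : ℂ) - Complex.I * (f l : ℂ)) / 2) Q = 0) ∧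
      (b < a → 3 ≤ a → MvPolynomial.aeval (fun l => ((e l : ℂ) - Complex.I * (f l : ℂ)) / 2) P *
        MvPolynomial.aeval (fun l => ((e l : ℂ) - Complex.I * (f l : ℂ)) / 2) Q = 0) := by
    intro e f he hf hef
    obtain ⟨w, hw0, hw1, hw⟩ := hFr k e f he hf hef
    have hnu : nu w = fun l => ((e l : ℂ) - Complex.I * (f l : ℂ)) / 2 := by
      funext l
      simp [nu, hw0, hw1]
    have h := hCore k a b (Measure.hausdorffMeasure ((k : ℝ) + 2) : Measure (V k)) P Q w A.toReal
      (Zero_haar k) hP hQ ha hb (by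
        intro φ
        obtain ⟨J, u, hu, hJ, hJf⟩ := hw φ
        exact hConst k a b K P Q A hcv hcp h0 hP hQ hsup' hA w φ J u hu hJ hJf)
    rw [hnu] at h
    exact h
  obtain ⟨a', ha'⟩ := ha
  obtain ⟨b', hb'⟩ := hb
  have ha1 : Odd a := ⟨a', ha'⟩
  rcases lt_trichotomy a b with hab | hab | hab
  · exfalso
    exact hQ2 (by omega) (hAlgDiv k b Q hQ (fun e f he hf hef => (hcore e f he hf hef).1 hab))
  · omega
  · by_cases h3 : 3 ≤ a
    · exfalso
      have hd : qf k ∣ P * Q := hAlgDiv k (a + b) (P * Q) (hP.mul hQ) (fun e f he hf hef => by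
        rw [map_mul]
        exact (hcore e f he hf hef).2 hab h3)
      rcases (hAlgPrime k).dvd_or_dvd hd with h | h
      · exact hP3 h3 h
      · by_cases hb2 : 2 ≤ b
        · exact hQ2 hb2 h
        · have hb0 : b = 0 := by omega
          subst hb0
          have hQC : Q = MvPolynomial.C (MvPolynomial.coeff 0 Q) := by
            rw [← MvPolynomial.totalDegree_eq_zero_iff_eq_C]
            exact Nat.le_zero.1 hQ.totalDegree_le
          have hc : MvPolynomial.coeff 0 Q = 0 := by
            by_contra hne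
            apply (hAlgPrime k).not_isUnit
            apply isUnit_of_dvd_unit h
            rw [hQC]
            exact (isUnit_iff_ne_zero.2 hne).map MvPolynomial.C
          have hQ0 : Q = 0 := by rw [hQC, hc, MvPolynomial.C_0]
          have e1 : ‖(EuclideanSpace.single 0 (1 : ℝ) : W k)‖ = 1 := by simp
          have e2 : ‖-(EuclideanSpace.single 0 (1 : ℝ) : W k)‖ = 1 := by rw [norm_neg]; exact e1
          have p1 := Zero_pos h0 _ e1 _ (hsup' _ e1)
          have p2 := Zero_pos h0 _ e2 _ (hsup' _ e2)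
          rw [hQ0, map_zero, add_zero] at p1 p2
          have h5 := Zero_neg P hP ha1 (fun l => (EuclideanSpace.single 0 (1 : ℝ) : W k) l)
          have h6 : MvPolynomial.eval (fun l => (-(EuclideanSpace.single 0 (1 : ℝ) : W k)) l) P
            = - MvPolynomial.eval (fun l => (EuclideanSpace.single 0 (1 : ℝ) : W k) l) P := by
            rw [← h5]; rfl
          rw [h6] at p2
          linarith
    · have ha0 : a = 1 := by omega
      have hb0 : b = 0 := by omega
      subst ha0
      subst hb0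
      exact hBall k K P Q hcv hcp ⟨0, interior_subset h0⟩ hP hQ hsup'

end Pool.Helper51.PSB
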