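import Pool.Agent.Helper51.PSB.M_VolA
import Pool.Agent.Helper51.PSB.M_VolB
import Pool.Agent.Helper51.PSB.M_VolC
import Pool.Agent.Helper51.PSB.M_VolD
import Pool.Agent.Helper51.PSB.M_VolE
import Pool.Agent.Helper51.PSB.M_DP
import Pool.Agent.Helper51.PSB.M_Grd
import Pool.Agent.Helper51.PSB.M_Map
import Pool.Agent.Helper51.PSB.M_Homog
import Pool.Agent.Helper51.PSB.M_Ev
import Pool.Agent.Helper51.PSB.M_Top
import Pool.Agent.Helper51.PSB.M_Cont
import Pool.Agent.Helper51.PSB.M_PolA
import Pool.Agent.Helper51.PSB.M_PolB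
import Pool.Agent.Helper51.PSB.M_DetU
import Pool.Agent.Helper51.PSB.M_DetA
import Pool.Agent.Helper51.PSB.M_DetB
import Pool.Agent.Helper51.PSB.M_Int
import Pool.Agent.Helper51.PSB.M_Coef
import Pool.Agent.Helper51.PSB.M_Core
import Pool.Agent.Helper51.PSB.M_AlgDiv
import Pool.Agent.Helper51.PSB.M_AlgPrime
import Pool.Agent.Helper51.PSB.M_Min
import Pool.Agent.Helper51.PSB.M_Fr
import Pool.Agent.Helper51.PSB.M_Geo
import Pool.Agent.Helper51.PSB.M_Ball
import Pool.Agent.Helper51.PSB.M_Const
import Pool.Agent.Helper51.PSB.M_Zero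
import Pool.Agent.Helper51.PSB.M_Main

/-! Assembly of project PSB. -/

set_option autoImplicit false

namespace Pool.Helper51.PSB

theorem qVolA : StVolA := pVolA
theorem qVolB : StVolB := pVolB qVolA
theorem qVolC : StVolC := pVolC qVolA
theorem qVolD : StVolD := pVolD qVolA
theorem qVolE : StVolE := pVolE qVolB qVolC qVolD
theorem qDP : StDP := pDP
theorem qGrd : StGrd := pGrd qDP
theorem qMap : StMap := pMap
theorem qHomog : StHomog := pHomog
theorem qEv : StEv := pEv qMap qHomog
theorem qTop : StTop := pTop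
theorem qCont : StCont := pCont
theorem qPolA : StPolA := pPolA
theorem qPolB : StPolB := pPolB
theorem qDetU : StDetU := pDetU
theorem qDetA : StDetA := pDetA qDetU
theorem qDetB : StDetB := pDetB qDetU
theorem qInt : StInt := pInt
theorem qCoef : StCoef := pCoef qEv qTop qPolA qCont
theorem qCore : StCore := pCore qCoef qTop qPolA qPolB qDetA qDetB qInt qCont qHomog
theorem qAlgDiv : StAlgDiv := pAlgDiv
theorem qAlgPrime : StAlgPrime := pAlgPrime
theorem qMin : StMin := pMin
theorem qFr : StFr := pFr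
theorem qGeo : StGeo := pGeo
theorem qBall : StBall := pBall
theorem qConst : StConst := pConst qVolB qVolE qGrd qGeo
theorem qZero : StZero := pZero qMin qFr qConst qCore qAlgDiv qAlgPrime qBall
theorem qMain : StMain := pMain qZero

end Pool.Helper51.PSB
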