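import Pool.Agent.Helper51.PSB.Defs

/-!
# Statements of project PSB (MP_26ac92_gt)
Main theorem: a convex body of dimension `n ≥ 3` whose support function is, on the unit sphere, the restriction of a
polynomial, and all of whose projections to hyperplanes have the same volume, is a ball.
Every docstring contains a complete proof.  All formulas were checked numerically.
`m = k + 2` is the dimension of the projections.
-/

set_option autoImplicit false

namespace Pool.Helper51.PSB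

open MeasureTheory

/-! ## 1. the volume formula -/

/-- The data: `L` a convex body with `0` in the interior, `g` its support function, `‖y‖⁻¹ • G y` the gradient of `g` (so `G y = ‖y‖ ∇ g y`), `M` the
derivative of `G`. -/
structure Dat (k : ℕ) (L : Set (V k)) (g : V k → ℝ) (G : V k → V k) (M : V k → V k →L[ℝ] V k) : Prop where
  cv : Convex ℝ L
  cp : IsCompact L
  h0 : (0 : V k) ∈ interior L
  lub : ∀ y, y ≠ 0 → IsLUB ((fun x => (inner ℝ x y : ℝ)) '' L) (g y)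
  gr : ∀ y, y ≠ 0 → HasGradientAt g (‖y‖⁻¹ • G y) y
  dv : ∀ y, y ≠ 0 → HasFDerivAt G (M y) y

/-- StVolA.  Let `y ≠ 0`, `γ y = ‖y‖⁻¹ • G y`.  `L` is compact: some `x ∈ L` has `⟪x, y⟫ = g y` (IsCompact.exists_isMaxOn).  If `x ∈ L`, `⟪x, y⟫ = g y` then `g - ⟪x, ·⟫ ≥ 0`
near `y` (`y' ≠ 0`) with equality at `y`: local minimum, so the gradient `γ y - x` of the difference at `y` is `0`.  `0 < g y`: `ε y ∈ L` for small `ε > 0`.  `G` is
differentiable at `y`, so `γ` is, with `H k = ‖y‖⁻¹ M y k - (⟪y, k⟫ / ‖y‖ ^ 3) G y`.  `γ (t y) = γ y` for `t > 0`: `γ y` is in `L` and maximises `⟪·, t y⟫`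
(`g (t y) = t g y`), now use the uniqueness at `t y`. -/
def StVolA : Prop := ∀ (k : ℕ) (L : Set (V k)) (g : V k → ℝ) (G : V k → V k) (M : V k → V k →L[ℝ] V k),
  Dat k L g G M → ∀ y : V k, y ≠ 0 →
    ‖y‖⁻¹ • G y ∈ L ∧ (inner ℝ (‖y‖⁻¹ • G y) y : ℝ) = g y ∧ 0 < g y ∧
    (∀ x ∈ L, (inner ℝ x y : ℝ) = g y → x = ‖y‖⁻¹ • G y) ∧
    (∃ H : V k →L[ℝ] V k, HasFDerivAt (fun y' => ‖y'‖⁻¹ • G y') H y ∧
      ∀ v, M y v = ‖y‖ • H v + ((inner ℝ y v : ℝ) / ‖y‖) • (‖y‖⁻¹ • G y)) ∧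
    (∀ t : ℝ, 0 < t → G (t • y) = t • G y)

/-- StVolB.  `M y` has no negative eigenvalue: let `ε > 0`, `M y v + ε v = 0`; with `γ`, `H` from StVolA.  (1) `⟪H v, y⟫ = 0`: the function `y' ↦ ⟪γ y', y⟫` has a local
maximum at `y` (`γ y' ∈ L`, `⟪γ y, y⟫ = g y`).  So `0 = ⟪M y v + ε v, y⟫ = (⟪y, v⟫ / ‖y‖) g y + ε ⟪v, y⟫`, hence `⟪v, y⟫ = 0` (`g y > 0`), `‖y‖ H v + ε v = 0`.  (2) `⟪H v, v⟫ ≥ 0`:
for small `t > 0`: `⟪γ (y + t v) - γ y, v⟫ ≥ 0` (add `⟪γ (y + t v), y + t v⟫ ≥ ⟪γ y, y + t v⟫` and `⟪γ y, y⟫ ≥ ⟪γ (y + t v), y⟫`), divide by `t`, `t → 0`.  So `ε ‖v‖² ≤ 0`,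
`v = 0`.  Now `det (ε + M y) ≠ 0` for `ε > 0`; `det (ε - A)` (`A = -M y`) is the monic polynomial `A.charpoly` in `ε`, which tends to `+∞`: by the intermediate value
theorem it is positive for all `ε > 0`, so `≥ 0` at `ε = 0`, where its value is `det (M y)`. -/
def StVolB : Prop := ∀ (k : ℕ) (L : Set (V k)) (g : V k → ℝ) (G : V k → V k) (M : V k → V k →L[ℝ] V k),
  Dat k L g G M → ∀ y : V k, y ≠ 0 → 0 ≤ (M y).det

/-- StVolC.  Let `z = γ y`, `z' = γ y'`, so `‖y‖ z = ‖y'‖ z'` (`γ`, StVolA).  `‖y‖ = ‖y'‖`: if `‖y‖ < ‖y'‖`, `z' = t z` with `t < 1`: `g y' = ⟪z', y'⟫ = t ⟪z, y'⟫ ≤ t g y' < g y'`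
(if `⟪z, y'⟫ < 0` also impossible); the other case is the same.  So `z = z'`.  For `τ ∈ [0,1]`, `y_τ = y + τ (y' - y)`: `⟪z, y_τ⟫ = (1 - τ) g y + τ g y' > 0` and `⟪x, y_τ⟫ ≤ (1 - τ) g y + τ g y'` for `x ∈ L`:
`z` maximises at `y_τ ≠ 0`, so `γ y_τ = z`, `G y_τ = ‖y_τ‖ z`.  Derivative at `τ = 0` (from the right): `M y (y' - y) = (⟪y, y' - y⟫ / ‖y‖) z`.  And `M y y = G y = ‖y‖ z` (derivative of
`G (t y) = t G y` at `t = 1`).  So `M y v = 0` for `v = y' - y - c y`, `c = ⟪y, y' - y⟫ / ‖y‖²`.  `v ≠ 0`: otherwise `y' = (1 + c) y`, so `y' = ± y`; `y' = y` is excluded, and `y' = -y` gives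
`g y' = ⟪z, -y⟫ = - g y < 0`. -/
def StVolC : Prop := ∀ (k : ℕ) (L : Set (V k)) (g : V k → ℝ) (G : V k → V k) (M : V k → V k →L[ℝ] V k),
  Dat k L g G M → ∀ y y' : V k, y ≠ 0 → y' ≠ 0 → y ≠ y' → G y = G y' → (M y).det = 0

/-- StVolD.  (1) `G y = ‖y‖ γ y` with `‖y‖ < 1`, `0, γ y ∈ L`.  (2) Let `x ∈ interior L`, `x ≠ 0`, `ρ = gauge L x`: `0 < ρ < 1` (`gauge_pos`, `interior_subset_gauge_lt_one`), and
`z = ρ⁻¹ x` has gauge `1`: `z ∈ L` (closed) and `z ∉ interior L`.  Hahn-Banach (`geometric_hahn_banach_open_point` for `interior L`, `z`): `v ≠ 0` with `⟪a, v⟫ < ⟪z, v⟫` for `a ∈ interior L`, so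
`⟪a, v⟫ ≤ ⟪z, v⟫` for `a ∈ L = closure (interior L)`.  So `⟪z, v⟫ = g v`, `z = γ v` (StVolA).  Put `y = (ρ / ‖v‖) v`: `G y = (ρ / ‖v‖) G v = ρ γ v = ρ z = x`. -/
def StVolD : Prop := ∀ (k : ℕ) (L : Set (V k)) (g : V k → ℝ) (G : V k → V k) (M : V k → V k →L[ℝ] V k),
  Dat k L g G M → (∀ y : V k, y ≠ 0 → ‖y‖ < 1 → G y ∈ L) ∧
    ∀ x ∈ interior L, x ≠ 0 → ∃ y : V k, y ≠ 0 ∧ ‖y‖ < 1 ∧ G y = x

/-- StVolE.  `μ L = μ (G '' B)`, `B = ball 0 1 \ {0}` (StVolD; `Convex.addHaar_frontier`, `μ {0} = 0`).  `B = S ∪ N`, `S = {det (M y) ≠ 0}`, `N = {det (M y) = 0}` (measurable: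
`M y = fderiv ℝ G y` on `B`, `measurable_fderiv`; `y ↦ (fderiv ℝ G y).det` measurable by continuity of `det`).  `G` is injective on `S` (StVolC): `lintegral_abs_det_fderiv_eq_addHaar_image`;
`μ (G '' N) = 0`: `addHaar_image_eq_zero_of_det_fderiv_eq_zero`.  So `μ L = ∫⁻_S |det| = ∫⁻_B |det|`, and `|det| = det` (StVolB). -/
def StVolE : Prop := ∀ (k : ℕ) (μ : Measure (V k)) (L : Set (V k)) (g : V k → ℝ) (G : V k → V k) (M : V k → V k →L[ℝ] V k),
  μ.IsAddHaarMeasure → Dat k L g G M →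
  μ L = ∫⁻ y in Metric.ball 0 1 \ {0}, ENNReal.ofReal ((M y).det) ∂μ

/-! ## 2. derivatives of polynomials -/

/-- StDP.  Derivative of a polynomial function: induction on `P` (`MvPolynomial.induction_on`: constants, sums, products with a variable). -/
def StDP : Prop := ∀ (p : ℕ) (P : MvPolynomial (Fin p) ℝ) (x : EuclideanSpace ℝ (Fin p)),
  HasFDerivAt (fun x' : EuclideanSpace ℝ (Fin p) => MvPolynomial.eval (fun l => x' l) P)
    (∑ l, MvPolynomial.eval (fun l => x l) (MvPolynomial.pderiv l P) • (EuclideanSpace.proj l : EuclideanSpace ℝ (Fin p) →L[ℝ] ℝ)) x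

/-- StGrd.  Let `ρ = ‖y‖`, `R y = P (J y)`, `R_i`, `R_ij` its derivatives (`= R1, R2` at `y`, by StDP and the chain rule; `(J y) l = ∑ i, y i * c i l`, `c i l = J (single i 1) l`).
`g y = ‖y‖ P (J (y/‖y‖)) = ρ^(1-d) R y` (homogeneity).  Define `(G y)_i = (1-d) ρ^(-d) y_i R y + ρ^(2-d) R_i y` (integer exponents), so
`ρ⁻¹ (G y)_i = (1-d) ρ^(-1-d) y_i R y + ρ^(1-d) R_i y = ∂_i g`.  `∂_j (G y)_i = -d(1-d) ρ^(-d-2) y_i y_j R + (1-d) ρ^(-d) (δ_ij R + y_i R_j) + (2-d) ρ^(-d) y_j R_i + ρ^(2-d) R_ij`.  As `R`, `R_i`, `R_ij` are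
homogeneous of degree `d`, `d-1`, `d-2`, this is `Mat d P c (hat y) i j`.  (For `d = 0` all `R_i` vanish, for `d ≤ 1` all `R_ij`.) -/
def StGrd : Prop := ∀ (k d : ℕ) (P : MvPolynomial (Fin (k + 3)) ℝ), P.IsHomogeneous d → ∀ J : V k →ₗᵢ[ℝ] W k,
  ∃ (G : V k → V k) (M : V k → V k →L[ℝ] V k),
    (∀ y, y ≠ 0 → HasGradientAt (fun y' => ‖y'‖ * MvPolynomial.eval (fun l => J (‖y'‖⁻¹ • y') l) P) (‖y‖⁻¹ • G y) y) ∧
    (∀ y, y ≠ 0 → HasFDerivAt G (M y) y) ∧
    (∀ y, y ≠ 0 → ∀ i j, (M y (EuclideanSpace.single j 1)) i =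
      Mat d P (fun i l => J (EuclideanSpace.single i (1 : ℝ)) l) (hat y) i j)

/-! ## 3. the matrices `Mat` -/

/-- StMap.  Ring homomorphisms commute with all operations in the definition of `Mat` (`MvPolynomial.aeval`: `MvPolynomial.map_aeval` or `MvPolynomial.comp_aeval_apply`). -/
def StMap : Prop := ∀ (A B : Type) [CommRing A] [CommRing B] [Algebra ℝ A] [Algebra ℝ B] (f : A →ₐ[ℝ] B) (p q d : ℕ)
  (P : MvPolynomial (Fin p) ℝ) (c : Fin q → Fin p → A) (s : Fin q → A) (i j : Fin q),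
  f (Mat d P c s i j) = Mat d P (fun i l => f (c i l)) (fun i => f (s i)) i j

/-- StHomog.  For `Q` homogeneous of degree `e`: `Q (z x) = z ^ e Q x` (expand in monomials).  The derivatives `P_l` are homogeneous of degree `d - 1`
(`MvPolynomial.IsHomogeneous.pderiv`), and vanish for `d = 0`; `P_ll'` of degree `d - 2`, they vanish for `d ≤ 1`.  (1) All of `R0, R1, R2` are multiplied by `z ^ d`.  (2) For odd `d`: `R0`, `R2` change sign,
`R1` does not: `R0 P c (-s) = P (-x) = - P x`, `R1 = ∑ c P_l` with `P_l` of even degree, `R2` with `P_ll'` of odd degree (or zero for `d = 1`). -/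
def StHomog : Prop := ∀ (A : Type) [CommRing A] [Algebra ℝ A] (p q d : ℕ) (P : MvPolynomial (Fin p) ℝ), P.IsHomogeneous d →
  ∀ (c : Fin q → Fin p → A) (s : Fin q → A) (i j : Fin q),
  (∀ z : A, Mat d P (fun i l => z * c i l) s i j = z ^ d * Mat d P c s i j) ∧
  (Odd d → Mat d P c (fun i => - s i) i j = - Mat d P c s i j)

/-- StEv.  `frameX w i l` at `z = exp (i φ)` is `z * frame w φ i l` (`z² ν + ν' = z (z ν + z⁻¹ ν')`, `z ν + z⁻¹ ν' = cos φ w_0 + sin φ w_1` with `ν = nu w`, `ν' = nub w`).  StMap for the evaluation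
`Polynomial.aeval z` (restricted to scalars `ℝ`) and for `ℝ → ℂ` (`Complex.ofRealAm`), StHomog (1). -/
def StEv : Prop := ∀ (k d : ℕ) (P : MvPolynomial (Fin (k + 3)) ℝ), P.IsHomogeneous d →
  ∀ (w : Fin (k + 3) → Fin (k + 3) → ℝ) (s : Fin (k + 2) → ℝ) (φ : ℝ) (i j : Fin (k + 2)),
  (MatX d P w s i j).eval (Complex.exp (φ * Complex.I)) =
    Complex.exp (φ * Complex.I) ^ d * ((Mat d P (frame w φ) s i j : ℝ) : ℂ)

/-- StTop.  Lemma: for `Q` homogeneous of degree `e` the polynomial `R0 Q (frameX w) (C s)` has degree `≤ 2 e` and its coefficient at `2 e` is `s_0 ^ e * Q ν` (`ν = nu w`): the coordinates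
`∑ i, C (s i) * frameX w i l` have degree `≤ 2` and coefficient `s_0 ν_l` at `2`; expand in monomials.  Then `R1 P .. i = ∑ l, frameX w i l * R0 P_l`: degree `≤ 2 d`, coefficient at `2 d` equal to
`[i = 0] ∑ l, ν_l s_0^(d-1) P_l ν = [i = 0] d s_0^(d-1) P ν` (Euler's identity, in Mathlib: `MvPolynomial.IsHomogeneous.sum_X_mul_pderiv` or similar); `R2`: `[i = 0 ∧ j = 0] d (d-1) s_0^(d-2) P ν`
(Euler's identity twice).  `d = 0` (`P_l = 0`) and `d = 1` (`P_ll' = 0`) separately. -/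
def StTop : Prop := ∀ (k d : ℕ) (P : MvPolynomial (Fin (k + 3)) ℝ), P.IsHomogeneous d →
  ∀ (w : Fin (k + 3) → Fin (k + 3) → ℝ) (s : Fin (k + 2) → ℝ) (i j : Fin (k + 2)),
  (MatX d P w s i j).natDegree ≤ 2 * d ∧
  (MatX d P w s i j).coeff (2 * d) = MvPolynomial.aeval (nu w) P * ((T d s i j : ℝ) : ℂ)

/-- StCont.  Call `F : (Fin (k+2) → ℝ) → ℂ[X]` good if all `s ↦ (F s).coeff j` are continuous.  Constants, `s ↦ C (s i)`, sums, products (`Polynomial.coeff_mul`), finite sums and products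
of good functions are good; so `R0` (expand in monomials), `R1`, `R2`, `MatX` and the determinant (`Matrix.det_apply`) are. -/
def StCont : Prop := ∀ (k a b r r' : ℕ) (P Q : MvPolynomial (Fin (k + 3)) ℝ) (w : Fin (k + 3) → Fin (k + 3) → ℝ) (j : ℕ),
  Continuous (fun s : Fin (k + 2) → ℝ =>
    (((Polynomial.X : Polynomial ℂ) ^ r • MatX a P w s + (Polynomial.X : Polynomial ℂ) ^ r' • MatX b Q w s).det).coeff j)

/-! ## 4. determinants -/

/-- StPolA.  `Matrix.det_apply`; for a product over `Fin q`: `Polynomial.natDegree_prod_le`, `Polynomial.coeff_prod_of_natDegree_le`. -/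
def StPolA : Prop := ∀ (q D : ℕ) (C : Matrix (Fin q) (Fin q) (Polynomial ℂ)), (∀ i j, (C i j).natDegree ≤ D) →
  C.det.natDegree ≤ q * D ∧ C.det.coeff (q * D) = (Matrix.of (fun i j => (C i j).coeff D)).det

/-- StPolB.  For polynomials `a_i` of degree `≤ D` and `b_i` of degree `≤ D - r` (`i ∈ S`, `|S| = n ≥ 1`): `∏ (a_i + b_i) - ∏ a_i` has degree `≤ n D - r` and its coefficient at `n D - r` is
`∑ i, b_i.coeff (D - r) ∏_{j ≠ i} a_j.coeff D`.  Induction on `S`: the difference for `S ∪ {i}` is `(a_i + b_i) *` (difference for `S`) `+ b_i ∏_S a_j`, and `b_i.coeff D = 0`.  Then sum over permutations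
(`Matrix.det_apply`, the factor with index `i` is the entry in column `i`). -/
def StPolB : Prop := ∀ (q D r : ℕ) (A B : Matrix (Fin q) (Fin q) (Polynomial ℂ)), 1 ≤ q → 1 ≤ r → r ≤ D →
  (∀ i j, (A i j).natDegree ≤ D) → (∀ i j, (B i j).natDegree ≤ D - r) →
  (A + B).det.coeff (q * D - r) = A.det.coeff (q * D - r) +
    ∑ i, ((Matrix.of (fun i j => (A i j).coeff D)).updateCol i (fun j => (B j i).coeff (D - r))).det

/-- StDetU.  `det (λ 1 + U K Uᵀ) = λ ^ k det (λ 1 + K Uᵀ U)` for `U` of size `(k+2) x 2` (`Matrix.charpoly_mul_comm_of_le` for `-U K` and `Uᵀ`, evaluated at `λ`: `Matrix.eval_charpoly`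
or similar).  For `∑ s_i² = 1`, `U = [s, e_0]`, `t = s_0`: `Uᵀ U = [[1, t], [t, 1]]`, and `T d s = λ 1 + U K Uᵀ`, `λ = (1-d) t^d`,
`K = [[d(d-1) t^d, d(1-d) t^(d-1)], [d(2-d) t^(d-1), d(d-1) t^(d-2)]]`.  So `det (x T a s + y T b s)` is the product of `(x B_a + y B_b)^k` and the 2 x 2 determinant of
`(x λ_a + y λ_b) 1 + (x K_a + y K_b) [[1, t], [t, 1]]`, which is `(x H_a + y H_b) (x A_a + y A_b)`, where `H_d = t^d`, `A_d = (1-d) ((d+1) t^d - d t^(d-2))`, `B_d = (1-d) t^d`.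
[The factorisation is `ring` if all powers are written with `t^(d-2)`: for `d ≥ 2` put `u = t^(d-2)`; for `d = 0` all of `K` vanishes.  Only `d = 0` or `d ≥ 2` are needed.]
The statement is over a commutative ring `R` with elements `x y` (used for `R = ℝ[X]`, `x = 1`, `y = X`). -/
def StDetU : Prop := ∀ (k a b : ℕ) (s : Fin (k + 2) → ℝ), 2 ≤ a → b ≠ 1 → ∑ i, s i ^ 2 = 1 →
  ∀ (R : Type) [CommRing R] [Algebra ℝ R] (x y : R),
  (Matrix.of (fun i j => x * algebraMap ℝ R (T a s i j) + y * algebraMap ℝ R (T b s i j))).det =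
    (x * algebraMap ℝ R (s 0 ^ a) + y * algebraMap ℝ R (s 0 ^ b)) *
    (x * algebraMap ℝ R ((1 - a) * ((a + 1) * s 0 ^ a - a * s 0 ^ (a - 2))) +
      y * algebraMap ℝ R ((1 - b) * ((b + 1) * s 0 ^ b - b * s 0 ^ (b - 2)))) *
    (x * algebraMap ℝ R ((1 - a) * s 0 ^ a) + y * algebraMap ℝ R ((1 - b) * s 0 ^ b)) ^ k

/-- StDetA.  StDetU with `R = ℝ`, `x = 1`, `y = 0`. -/
def StDetA : Prop := ∀ (k d : ℕ) (s : Fin (k + 2) → ℝ), 2 ≤ d → ∑ i, s i ^ 2 = 1 →
  (T d s).det = (1 - (d : ℝ)) ^ (k + 1) * (((d : ℝ) + 1) * s 0 ^ (d * (k + 2)) - d * s 0 ^ (d * (k + 2) - 2))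

/-- StDetB.  The left side is the coefficient of `X` in `det (T a s + X T b s)` (over `ℝ[X]`; prove this like StPolB, or with the multilinearity of `det` in the columns), which is given by StDetU:
`H_b A_a B_a^k + H_a A_b B_a^k + k H_a A_a B_b B_a^(k-1)`; the right side is the same expression with all powers of `t = s_0` collected, `N = (k+1) a + b`. -/
def StDetB : Prop := ∀ (k a b : ℕ) (s : Fin (k + 2) → ℝ), 2 ≤ a → b ≠ 1 → ∑ i, s i ^ 2 = 1 →
  ∑ i, ((T a s).updateCol i (fun j => T b s j i)).det =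
    (1 - (a : ℝ)) ^ k * ((1 - (a : ℝ) + k * (1 - (b : ℝ))) *
        (((a : ℝ) + 1) * s 0 ^ ((k + 1) * a + b) - a * s 0 ^ ((k + 1) * a + b - 2))
      + (1 - (b : ℝ)) * (((b : ℝ) + 1) * s 0 ^ ((k + 1) * a + b) - b * s 0 ^ ((k + 1) * a + b - 2)))

/-- StInt.  `μ` is invariant under linear isometries (it is a multiple of `volume`).  Let `N ≥ 2` be even.  For a unit vector `v` let `ρ` be an isometry with `ρ e_0 = v` (a reflection,
`Submodule.reflection_sub`): `∫ ⟪ŷ, v⟫ ^ N = ∫ ŷ_0 ^ N = I_N` (`ŷ = hat y`).  With `v = (e_0 + x e_i) / √(1 + x²)`, `i ≠ 0`: `∫ (ŷ_0 + x ŷ_i) ^ N = (1 + x²)^(N/2) I_N` for all real `x`; both sides are polynomials in `x`; coefficients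
of `x²`: `(N choose 2) ∫ ŷ_0^(N-2) ŷ_i² = (N/2) I_N`, so `(N - 1) ∫ ŷ_0^(N-2) ŷ_i² = I_N`.  Sum over the `k + 1` indices `i ≠ 0` and use `∑ ŷ_i² = 1` (`y ≠ 0`): `(N-1) (I_(N-2) - I_N) = (k+1) I_N`.
`I_N > 0`: the integrand is `≥ 0`, and positive for `y_0 ≠ 0`.  All integrands are measurable and bounded by `1`. -/
def StInt : Prop := ∀ (k N : ℕ) (μ : Measure (V k)), μ.IsAddHaarMeasure → Even N → 2 ≤ N →
  0 < ∫ y in Metric.ball 0 1, hat y 0 ^ N ∂μ ∧
  ((N : ℝ) - 1) * ∫ y in Metric.ball 0 1, hat y 0 ^ (N - 2) ∂μ = ((N : ℝ) + k) * ∫ y in Metric.ball 0 1, hat y 0 ^ N ∂μ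

/-! ## 5. the core -/

/-- StCoef.  Let `N s = X^(e-a) MatX a P w s + X^(e-b) MatX b Q w s`, `e = max a b`, `m = k + 2`.  Entries have degree `≤ 2 e` (StTop), so `det N` has degree `≤ 2 e m` (StPolA).  For `z = exp (i φ)`:
`(det N s)(z) = z^(e m) det (Mat a P (frame w φ) s + Mat b Q (frame w φ) s)` (StEv; `Polynomial.eval` commutes with `det`).  Integrate over the ball with `s = hat y` (coefficients are continuous in `s` by StCont, `|hat y i| ≤ 1`: bounded and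
measurable): `∑_j κ_j z^j = c z^(e m)`, `κ_j = ∫ (det N (hat y)).coeff j`, for all `φ`.  A polynomial vanishing on the unit circle is `0`, so `κ_j = 0` for `j ≠ e m`. -/
def StCoef : Prop := ∀ (k a b : ℕ) (μ : Measure (V k)) (P Q : MvPolynomial (Fin (k + 3)) ℝ) (w : Fin (k + 3) → Fin (k + 3) → ℝ) (c : ℝ),
  μ.IsAddHaarMeasure → P.IsHomogeneous a → Q.IsHomogeneous b →
  (∀ φ : ℝ, ∫ y in Metric.ball 0 1, (Mat a P (frame w φ) (hat y) + Mat b Q (frame w φ) (hat y)).det ∂μ = c) →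
  ∀ j : ℕ, j ≠ max a b * (k + 2) →
    ∫ y in Metric.ball 0 1, (((Polynomial.X : Polynomial ℂ) ^ (max a b - a) • MatX a P w (hat y) +
      (Polynomial.X : Polynomial ℂ) ^ (max a b - b) • MatX b Q w (hat y)).det).coeff j ∂μ = 0

/-- StCore.  `m = k + 2`, `p = P (nu w)`, `q = Q (nu w)`, `I_N = ∫ ŷ_0 ^ N`.  StCoef with:
(1) `a < b`: `j = 2 b m`.  By StPolA (`D = 2 b`) and StTop the coefficient is `det (q T_b) = q^m det T_b` (`X^(b-a) MatX a P` has degree `≤ a + b < 2 b`).  StDetA, StInt: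
`∫ det T_b = (1-b)^(k+1) ((b+1) I_(bm) - b I_(bm-2)) = (1-b)^(k+1) (b-1)/(bm-1) I_(bm) ≠ 0` (`b ≥ 2`).  So `q = 0`.
(2) `b < a`, `a ≥ 3`, `m` even: the same with `P` (`a m` is even).
(3) `b < a`, `a ≥ 3`, `m` odd: `j = 2 a m - (a - b)`.  StPolB with `D = 2 a`, `r = a - b`: the coefficient is `(det MatX a P).coeff j + p^(m-1) q D(s)`, `D(s)` the left side of StDetB.  `det MatX a P w (-s) = - det MatX a P w s` (StHomog (2), `m` odd):
integral `0` (substitution `y ↦ -y`; integrability from StCont with `Q = 0`).  `∫ D = (1-a)^k (1-b)(k+2)(a-1)/(N-1) I_N ≠ 0`, `N = (k+1) a + b` (StDetB, StInt; `N` is even, as `m = k + 2` is odd). -/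
def StCore : Prop := ∀ (k a b : ℕ) (μ : Measure (V k)) (P Q : MvPolynomial (Fin (k + 3)) ℝ) (w : Fin (k + 3) → Fin (k + 3) → ℝ) (c : ℝ),
  μ.IsAddHaarMeasure → P.IsHomogeneous a → Q.IsHomogeneous b → Odd a → Even b →
  (∀ φ : ℝ, ∫ y in Metric.ball 0 1, (Mat a P (frame w φ) (hat y) + Mat b Q (frame w φ) (hat y)).det ∂μ = c) →
  (a < b → MvPolynomial.aeval (nu w) Q = 0) ∧
  (b < a → 3 ≤ a → MvPolynomial.aeval (nu w) P * MvPolynomial.aeval (nu w) Q = 0)

/-! ## 6. algebra -/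

/-- StAlgDiv.  Put `P` into `ℝ[x_1, .., x_(n-1)][X]` (`MvPolynomial.finSuccEquiv`, `X = x_0`), where `qf` is the monic polynomial `X² + C σ`, `σ = ∑_{l ≥ 1} x_l²`.  Division (`modByMonic`): `P = qf A + C b X + C c`, `b, c ∈ ℝ[x_1, ..]`.  Let
`y ∈ ℝ^(n-1)`, `y ≠ 0`, `e = (0, y/|y|)`, `f = e_0`: the vector `x = (-i |y|, y) = |y| (e - i f)` has `qf x = 0`, `P x = (2|y|)^d P ((e - i f)/2) = 0`.  So `- i |y| b y + c y = 0`, and `b y`, `c y` are real: `b y = c y = 0` for all `y ≠ 0`.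
So `b = c = 0` (`MvPolynomial.funext`; for `y = 0` e.g. by continuity, or apply it to `x_1 b`). -/
def StAlgDiv : Prop := ∀ (k d : ℕ) (P : MvPolynomial (Fin (k + 3)) ℝ), P.IsHomogeneous d →
  (∀ e f : Fin (k + 3) → ℝ, ∑ l, e l ^ 2 = 1 → ∑ l, f l ^ 2 = 1 → ∑ l, e l * f l = 0 →
    MvPolynomial.aeval (fun l => ((e l : ℂ) - Complex.I * (f l : ℂ)) / 2) P = 0) → qf k ∣ P

/-- StAlgPrime.  `MvPolynomial` over a field is a UFD, so it is enough that `qf` is irreducible; apply `MvPolynomial.finSuccEquiv`: `X² + C σ` is monic of degree 2 over a domain, so irreducible if it has no root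
(`Polynomial.Monic.irreducible_iff_roots_eq_zero_of_degree_le_three`); a root `b` has `b² = -σ`; evaluate at the point `(1, 0, .., 0)`: `-1` would be a square in `ℝ`. -/
def StAlgPrime : Prop := ∀ k : ℕ, Prime (qf k)

/-- StMin.  (1) For every polynomial `p` there are `(a, P, b, Q)` as in the statement without the last two conditions: `MvPolynomial.induction_on'` (or the sum of the monomials): a monomial is homogeneous; sums: multiply by powers of `qf` (which is `1` on the sphere,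
homogeneous of degree 2) to get equal degrees.  (2) Choose one with `a + b` minimal.  If `a ≥ 3` and `P = qf P'`: `P = qf P''` with `P''` the homogeneous component of `P'` of degree `a - 2` (component of degree `a` of both sides:
`DirectSum.coe_decompose_mul_of_left_mem` or by hand), and `(a - 2, P'', b, Q)` contradicts minimality.  The same for `b ≥ 2`. -/
def StMin : Prop := ∀ (k : ℕ) (p : MvPolynomial (Fin (k + 3)) ℝ), ∃ (a b : ℕ) (P Q : MvPolynomial (Fin (k + 3)) ℝ),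
  Odd a ∧ Even b ∧ P.IsHomogeneous a ∧ Q.IsHomogeneous b ∧
  (∀ u : Fin (k + 3) → ℝ, ∑ l, u l ^ 2 = 1 → MvPolynomial.eval u p = MvPolynomial.eval u P + MvPolynomial.eval u Q) ∧
  (3 ≤ a → ¬ qf k ∣ P) ∧ (2 ≤ b → ¬ qf k ∣ Q)

/-! ## 7. geometry -/

/-- StFr.  Extend `e, f` to an orthonormal basis `w` (`Orthonormal.exists_orthonormalBasis_extension_of_card_eq`).  For `φ` the vectors `frame w φ i` (`i : Fin (k+2)`) are orthonormal, so they define the isometry `J`;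
`u = - sin φ w_0 + cos φ w_1`. -/
def StFr : Prop := ∀ (k : ℕ) (e f : Fin (k + 3) → ℝ), ∑ l, e l ^ 2 = 1 → ∑ l, f l ^ 2 = 1 → ∑ l, e l * f l = 0 →
  ∃ w : Fin (k + 3) → Fin (k + 3) → ℝ, w 0 = e ∧ w 1 = f ∧ ∀ φ : ℝ, ∃ (J : V k →ₗᵢ[ℝ] W k) (u : W k),
    ‖u‖ = 1 ∧ (∀ y, (inner ℝ (J y) u : ℝ) = 0) ∧ ∀ i l, J (EuclideanSpace.single i (1 : ℝ)) l = frame w φ i l

/-- StGeo.  `L = J^* '' K` (`J^*` the adjoint of `J`, linear and continuous): convex, compact; `0` is interior: `ball 0 ε ⊆ K` and `J^* (J y) = y`.  `⟪J^* x, y⟫ = ⟪x, J y⟫`.  The range of `J` is `u^⊥` (dimension `k + 2`), so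
`J (J^* x) = x - ⟪x, u⟫ u` (both sides are in `u^⊥` and have the same inner products with `J y`), i.e. the projection of `K` is `J '' L`, and isometries preserve `μH` (`Isometry.hausdorffMeasure_image`). -/
def StGeo : Prop := ∀ (k : ℕ) (K : Set (W k)) (J : V k →ₗᵢ[ℝ] W k) (u : W k), Convex ℝ K → IsCompact K → (0 : W k) ∈ interior K →
  ‖u‖ = 1 → (∀ y, (inner ℝ (J y) u : ℝ) = 0) → ∃ L : Set (V k), Convex ℝ L ∧ IsCompact L ∧ (0 : V k) ∈ interior L ∧
    (∀ (y : V k) (v : ℝ), IsLUB ((fun x => (inner ℝ x (J y) : ℝ)) '' K) v → IsLUB ((fun x => (inner ℝ x y : ℝ)) '' L) v) ∧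
    Measure.hausdorffMeasure ((k : ℝ) + 2) L =
      Measure.hausdorffMeasure ((k : ℝ) + 2) ((fun x : W k => x - (inner ℝ x u : ℝ) • u) '' K)

/-- StBall.  `K = closedBall c r` with `c` the coefficient vector of `P` and `Q = C r`: `⟪x, u⟫ ≤ ⟪c, u⟫ + r` for `x ∈ K` and unit `u`, so `‖x - c‖ ≤ r`; conversely, if `‖x - c‖ ≤ r` and `x ∉ K`, separate `x` from `K` (`geometric_hahn_banach_point_compact` or `..closed_point`):
a unit `u` with `⟪x, u⟫ > sup ⟪K, u⟫ = ⟪c, u⟫ + r ≥ ⟪x, u⟫`. -/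
def StBall : Prop := ∀ (k : ℕ) (K : Set (W k)) (P Q : MvPolynomial (Fin (k + 3)) ℝ), Convex ℝ K → IsCompact K → K.Nonempty →
  P.IsHomogeneous 1 → Q.IsHomogeneous 0 →
  (∀ u : W k, ‖u‖ = 1 → IsLUB ((fun x => (inner ℝ x u : ℝ)) '' K) (MvPolynomial.eval (fun l => u l) P + MvPolynomial.eval (fun l => u l) Q)) →
  ∃ (c : W k) (r : ℝ), K = Metric.closedBall c r

/-- StConst.  For `w` from StFr and `φ`: `J`, `u` (StFr), `L` (StGeo); `g y = ‖y‖ (P + Q)(J (y/‖y‖))` is the support function of `L` (for `y ≠ 0`, homogeneity), `G = G_P + G_Q`, `M = M_P + M_Q` from StGrd: `Dat k L g G M`.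
`μ = μH[k+2]` is a Haar measure on `V k` (`isAddHaarMeasure_hausdorffMeasure`, `finrank = k + 2`).  `(M y).det` is the determinant of the matrix `Mat a P (frame w φ) (hat y) + Mat b Q (frame w φ) (hat y)` (LinearMap.det and `toMatrix` in the
standard basis).  StVolE: `μ L = ∫⁻ ofReal det`, with `det ≥ 0` (StVolB) and `μ L = A` independent of `φ` (StGeo), finite (`L` is compact).  So `∫ det = A.toReal` (`integral_eq_lintegral_of_nonneg_ae`; `{0}` is a null set; measurability of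
`y ↦ det (..hat y..)`: polynomial in `hat y`). -/
def StConst : Prop := ∀ (k a b : ℕ) (K : Set (W k)) (P Q : MvPolynomial (Fin (k + 3)) ℝ) (A : ENNReal), Convex ℝ K → IsCompact K →
  (0 : W k) ∈ interior K → P.IsHomogeneous a → Q.IsHomogeneous b →
  (∀ u : W k, ‖u‖ = 1 → IsLUB ((fun x => (inner ℝ x u : ℝ)) '' K) (MvPolynomial.eval (fun l => u l) P + MvPolynomial.eval (fun l => u l) Q)) →
  (∀ u : W k, ‖u‖ = 1 → Measure.hausdorffMeasure ((k : ℝ) + 2) ((fun x : W k => x - (inner ℝ x u : ℝ) • u) '' K) = A) →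
  ∀ (w : Fin (k + 3) → Fin (k + 3) → ℝ) (φ : ℝ) (J : V k →ₗᵢ[ℝ] W k) (u : W k), ‖u‖ = 1 → (∀ y, (inner ℝ (J y) u : ℝ) = 0) →
  (∀ i l, J (EuclideanSpace.single i (1 : ℝ)) l = frame w φ i l) →
  ∫ y in Metric.ball 0 1, (Mat a P (frame w φ) (hat y) + Mat b Q (frame w φ) (hat y)).det
    ∂(Measure.hausdorffMeasure ((k : ℝ) + 2) : Measure (V k)) = A.toReal

/-- StZero.  StMin for `p`; StFr, StConst, StCore for all orthonormal pairs `(e, f)` (`nu w = (e - i f) / 2`).  `a < b`: `qf ∣ Q` (StAlgDiv), contradiction (`b ≥ 2`).  `b < a` (`a ≠ b` by parity), `a ≥ 3`: `qf ∣ P Q` (StAlgDiv for the product), so `qf ∣ P` or `qf ∣ Q` (StAlgPrime): the first contradicts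
StMin, the second too if `b ≥ 2`; if `b = 0`, `Q` is a constant divisible by `qf`, so `Q = 0`; then `h u + h (-u) = 0` for all unit `u` (`P` odd), but `h > 0` as `0 ∈ interior K`.  So `a = 1`, `b = 0`: StBall. -/
def StZero : Prop := ∀ (k : ℕ) (K : Set (W k)) (p : MvPolynomial (Fin (k + 3)) ℝ) (A : ENNReal), Convex ℝ K → IsCompact K →
  (0 : W k) ∈ interior K →
  (∀ u : W k, ‖u‖ = 1 → IsLUB ((fun x => (inner ℝ x u : ℝ)) '' K) (MvPolynomial.eval (fun l => u l) p)) →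
  (∀ u : W k, ‖u‖ = 1 → Measure.hausdorffMeasure ((k : ℝ) + 2) ((fun x : W k => x - (inner ℝ x u : ℝ) • u) '' K) = A) →
  ∃ (c : W k) (r : ℝ), K = Metric.closedBall c r

/-- StMain.  `n = k + 3`; translate an interior point `x0` of `K` to `0`: `K - x0` has the support function `p - ∑ x0_l X_l` and projections which are translates of those of `K` (`Isometry.hausdorffMeasure_image`). -/
def StMain : Prop := ∀ (n : ℕ), 3 ≤ n → ∀ (K : Set (EuclideanSpace ℝ (Fin n))) (p : MvPolynomial (Fin n) ℝ) (A : ENNReal), Convex ℝ K → IsCompact K →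
  (interior K).Nonempty →
  (∀ u : EuclideanSpace ℝ (Fin n), ‖u‖ = 1 → IsLUB ((fun x => (inner ℝ x u : ℝ)) '' K) (MvPolynomial.eval (fun l => u l) p)) →
  (∀ u : EuclideanSpace ℝ (Fin n), ‖u‖ = 1 → Measure.hausdorffMeasure ((n : ℝ) - 1) ((fun x : EuclideanSpace ℝ (Fin n) => x - (inner ℝ x u : ℝ) • u) '' K) = A) →
  ∃ (c : EuclideanSpace ℝ (Fin n)) (r : ℝ), K = Metric.closedBall c r

end Pool.Helper51.PSB
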